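import Pool.Agent.Lib.MP_7b7e48_nt.OW.T0
import Pool.Agent.Lib.MP_7b7e48_nt.OW.T1

/-!
# `lam` on the numbers coprime to `N` in the classes modulo `W`, uniformly in the modulus `W`

Copies of OW/T1 and OW/T2 with the quantifiers exchanged.
-/

open Finset
open Pool.Agent.Lib.MP_45349e_nt.LS (lam)

namespace Pool.Agent.Lib.PP

open Pool.Agent.Lib.OW (Dom sqf_tail sqf_sum)
open Pool.Agent.Lib.RG (RC LV rr SS PB)

open Classical in
private theorem swa_class (A : ℕ) : ∃ C : ℝ, 0 < C ∧ ∀ W : ℕ, 1 ≤ W → ∀ a Y : ℕ, 2 ≤ Y →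
    |∑ n ∈ (Finset.Icc 1 Y).filter (fun n => n ≡ a [MOD W]), lam n| ≤ C * Y / (Real.log Y) ^ A := by
  obtain ⟨C, hC, h⟩ := Pool.Agent.Lib.MP_7b7e48_nt.LG.LA1 A
  refine ⟨C, hC, fun W hW a Y hY => ?_⟩
  have hWR : (0 : ℝ) < W := by exact_mod_cast hW
  have hWC : (W : ℂ) ≠ 0 := by exact_mod_cast (Nat.pos_iff_ne_zero.mp hW)
  have key : (W : ℂ) * ((∑ n ∈ (Finset.Icc 1 Y).filter (fun n => n ≡ a [MOD W]), lam n : ℝ) : ℂ) =
      ∑ k ∈ Finset.range W, Pool.Agent.Lib.GT.e (-((k : ℝ) * a / W)) *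
        ∑ n ∈ Finset.Icc 1 Y, ((lam n : ℝ) : ℂ) *
          Pool.Agent.Lib.GT.e ((n : ℝ) * ((k : ℝ) / W)) := by
    have h1 : ∀ n ∈ Finset.Icc 1 Y, (W : ℂ) * (if n ≡ a [MOD W] then ((lam n : ℝ) : ℂ) else 0) =
        ∑ k ∈ Finset.range W, Pool.Agent.Lib.GT.e (-((k : ℝ) * a / W)) *
          (((lam n : ℝ) : ℂ) * Pool.Agent.Lib.GT.e ((n : ℝ) * ((k : ℝ) / W))) := by
      intro n _
      have h2 := Pool.Agent.Lib.GT.sum_e_mod (W := W) hW ((n : ℤ) - (a : ℤ))
      have h3 : ∀ k ∈ Finset.range W, Pool.Agent.Lib.GT.e (-((k : ℝ) * a / W)) *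
          (((lam n : ℝ) : ℂ) * Pool.Agent.Lib.GT.e ((n : ℝ) * ((k : ℝ) / W))) =
          ((lam n : ℝ) : ℂ) *
            Pool.Agent.Lib.GT.e ((k : ℝ) * (((n : ℤ) - (a : ℤ) : ℤ) : ℝ) / W) := by
        intro k _
        have h4 : Pool.Agent.Lib.GT.e ((k : ℝ) * (((n : ℤ) - (a : ℤ) : ℤ) : ℝ) / W) =
            Pool.Agent.Lib.GT.e (-((k : ℝ) * a / W)) *
              Pool.Agent.Lib.GT.e ((n : ℝ) * ((k : ℝ) / W)) := by
          rw [← Pool.Agent.Lib.GT.e_add]
          congr 1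
          push_cast
          ring
        rw [h4]
        ring
      rw [Finset.sum_congr rfl h3, ← Finset.mul_sum, h2]
      have h5 : (n ≡ a [MOD W]) ↔ ((W : ℤ) ∣ ((n : ℤ) - (a : ℤ))) := by
        rw [Nat.ModEq.comm]
        exact Nat.modEq_iff_dvd
      by_cases h6 : n ≡ a [MOD W]
      · rw [if_pos h6, if_pos (h5.mp h6), mul_comm]
      · rw [if_neg h6, if_neg (fun h7 => h6 (h5.mpr h7)), mul_zero, mul_zero]
    rw [Complex.ofReal_sum, Finset.sum_filter, Finset.mul_sum, Finset.sum_congr rfl h1,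
      Finset.sum_comm]
    refine Finset.sum_congr rfl fun k _ => ?_
    rw [Finset.mul_sum]
  have h8 : ‖(W : ℂ) * ((∑ n ∈ (Finset.Icc 1 Y).filter (fun n => n ≡ a [MOD W]), lam n : ℝ) : ℂ)‖ ≤
      W * (C * Y / (Real.log Y) ^ A) := by
    rw [key]
    refine (norm_sum_le _ _).trans ?_
    calc ∑ k ∈ Finset.range W, ‖Pool.Agent.Lib.GT.e (-((k : ℝ) * a / W)) *
        ∑ n ∈ Finset.Icc 1 Y, ((lam n : ℝ) : ℂ) *
          Pool.Agent.Lib.GT.e ((n : ℝ) * ((k : ℝ) / W))‖
        ≤ ∑ k ∈ Finset.range W, C * Y / (Real.log Y) ^ A := by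
          refine Finset.sum_le_sum fun k _ => ?_
          rw [norm_mul, Pool.Agent.Lib.MP_7b7e48_nt.LG.LA1_norm_e, one_mul]
          exact h Y hY _
      _ = W * (C * Y / (Real.log Y) ^ A) := by
          rw [Finset.sum_const, Finset.card_range, nsmul_eq_mul]
  rw [norm_mul, Complex.norm_natCast, Complex.norm_real, Real.norm_eq_abs] at h8
  exact le_of_mul_le_mul_left h8 hWR


open Classical in
private theorem t2_cop (N : ℕ) (hN : N ≠ 0) (f : ℕ → ℝ) (R : Finset ℕ) :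
    ∑ n ∈ R.filter (fun n => n.Coprime N), f n =
      ∑ d ∈ N.divisors.filter (fun d => Squarefree d), ((ArithmeticFunction.moebius d : ℤ) : ℝ) *
        ∑ n ∈ R.filter (fun n => d ∣ n), f n := by
  have h1 : ∀ n ∈ R, (if n.Coprime N then f n else 0) =
      ∑ d ∈ N.divisors, (if d ∣ n then ((ArithmeticFunction.moebius d : ℤ) : ℝ) * f n else 0) := by
    intro n hn
    have h2 : ∑ d ∈ (Nat.gcd n N).divisors, (ArithmeticFunction.moebius d : ℤ) =
        if Nat.gcd n N = 1 then 1 else 0 := by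
      have h := ArithmeticFunction.coe_mul_zeta_apply (f := ArithmeticFunction.moebius)
        (x := Nat.gcd n N)
      rw [ArithmeticFunction.moebius_mul_coe_zeta] at h
      rw [← h, ArithmeticFunction.one_apply]
    have h3 : ∑ d ∈ N.divisors, (if d ∣ n then ((ArithmeticFunction.moebius d : ℤ) : ℝ) * f n else 0) =
        ((∑ d ∈ (Nat.gcd n N).divisors, (ArithmeticFunction.moebius d : ℤ) : ℤ) : ℝ) * f n := by
      rw [← sum_filter, Int.cast_sum, sum_mul]
      refine sum_congr ?_ fun _ _ => rfl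
      ext d
      simp only [mem_filter, Nat.mem_divisors]
      constructor
      · rintro ⟨⟨h4, _⟩, h5⟩
        exact ⟨Nat.dvd_gcd h5 h4, Nat.gcd_ne_zero_right hN⟩
      · rintro ⟨h4, _⟩
        exact ⟨⟨h4.trans (Nat.gcd_dvd_right _ _), hN⟩, h4.trans (Nat.gcd_dvd_left _ _)⟩
    rw [h3, h2]
    by_cases hc : n.Coprime N
    · have hc' : Nat.gcd n N = 1 := hc
      rw [if_pos hc, if_pos hc']; simp
    · have hc' : ¬ Nat.gcd n N = 1 := hc
      rw [if_neg hc, if_neg hc']; simp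
  rw [sum_filter, sum_congr rfl h1, sum_comm, sum_filter]
  refine sum_congr rfl fun d _ => ?_
  by_cases hd : Squarefree d
  · rw [if_pos hd, mul_sum, sum_filter]
  · rw [if_neg hd]
    refine sum_eq_zero fun n _ => ?_
    rw [ArithmeticFunction.moebius_eq_zero_of_not_squarefree hd]
    simp

open Classical in
private theorem t2_tail (θ : ℝ) (h0 : 0 < θ) (h1 : θ ≤ 1) (A : ℕ) : ∃ N0 : ℕ, ∀ N : ℕ, N0 ≤ N → ∀ y : ℝ,
    Real.exp ((Real.log N) ^ θ) ≤ y →
    ∑ d ∈ N.divisors.filter (fun d : ℕ => Squarefree d ∧ Real.sqrt y < (d : ℝ)), 1 / (d : ℝ) ≤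
      1 / (Real.log N) ^ A := by
  obtain ⟨N1, hN1⟩ := sqf_tail θ h0 h1 A
  refine ⟨N1, fun N hN y hy => ?_⟩
  have h := hN1 N hN y hy
  first
  | exact h
  | (refine le_trans ?_ h
     have hinj : Set.InjOn (fun d : ℕ => (d : ℝ))
         (N.divisors.filter (fun d : ℕ => Squarefree d ∧ Real.sqrt y < (d : ℝ)) : Set ℕ) :=
       fun a _ b _ hab => Nat.cast_injective hab
     have e1 : ∑ d ∈ N.divisors.filter (fun d : ℕ => Squarefree d ∧ Real.sqrt y < (d : ℝ)),
         1 / (d : ℝ) = ∑ r ∈ (N.divisors.filter (fun d : ℕ => Squarefree d ∧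
         Real.sqrt y < (d : ℝ))).image (fun d : ℕ => (d : ℝ)), 1 / r := (sum_image hinj).symm
     rw [e1]
     refine sum_le_sum_of_subset_of_nonneg ?_ ?_
     · intro r hr
       obtain ⟨d, hd, rfl⟩ := mem_image.mp hr
       have h2 := mem_filter.mp hd
       have h3 : (d : ℝ) ≠ 0 := by
         exact_mod_cast (Nat.pos_of_mem_divisors h2.1).ne'
       refine mem_filter.mpr ⟨?_, ?_, h2.2.2⟩
       · simp only [Finset.bind_def, Finset.mem_sup]
         exact ⟨d, h2.1, by simp⟩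
       · exact (IsUnit.mk0 _ h3).squarefree
     · intro r hr _
       have h2 := (mem_filter.mp hr).2.2
       have h3 : 0 ≤ r := (Real.sqrt_nonneg y).trans h2.le
       positivity)

open Classical in
private theorem t2_sum (θ : ℝ) (h0 : 0 < θ) (h1 : θ ≤ 1) (A A' : ℕ) (hA' : (A : ℝ) + 3 ≤ A' * θ)
    (C0 C1 : ℝ) (hC0 : 0 ≤ C0) (hC1 : 0 ≤ C1) : ∃ N0 : ℕ, ∀ N : ℕ, N0 ≤ N → ∀ y : ℝ,
    Real.exp ((Real.log N) ^ θ) ≤ y → ∀ g : ℕ → ℝ,
    (∀ d ∈ N.divisors, √y < d → g d ≤ C0 / d) →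
    (∀ d ∈ N.divisors, (d : ℝ) ≤ √y → g d ≤ C1 / (d * ((Real.log N) ^ θ) ^ A')) →
    ∑ d ∈ N.divisors.filter (fun d => Squarefree d), g d ≤ 1 / (Real.log N) ^ A := by
  obtain ⟨N1, hN1⟩ := t2_tail θ h0 h1 (A + 3)
  obtain ⟨N2, hN2⟩ := sqf_sum
  obtain ⟨N3, hN3⟩ := (((Real.tendsto_log_atTop.comp tendsto_natCast_atTop_atTop).eventually
    (Filter.eventually_ge_atTop (C0 + C1 + 1)))).exists_forall_of_atTop
  refine ⟨max N1 (max N2 N3), fun N hN y hy g hg0 hg1 => ?_⟩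
  have hK : C0 + C1 + 1 ≤ Real.log N := hN3 N ((le_max_right _ _).trans ((le_max_right _ _).trans hN))
  set K : ℝ := Real.log N with hKdef
  have hK1 : 1 ≤ K := by linarith
  have hK0 : 0 < K := by linarith
  have htail := hN1 N ((le_max_left _ _).trans hN) y hy
  have hsum := hN2 N ((le_max_left _ _).trans ((le_max_right _ _).trans hN))
  have hpow : K ^ (A + 3) ≤ (K ^ θ) ^ A' := by
    rw [← Real.rpow_natCast, ← Real.rpow_natCast, ← Real.rpow_mul hK0.le]
    refine Real.rpow_le_rpow_of_exponent_le hK1 ?_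
    push_cast
    linarith
  have hsplit : ∑ d ∈ N.divisors.filter (fun d => Squarefree d), g d =
      ∑ d ∈ N.divisors.filter (fun d : ℕ => Squarefree d ∧ √y < (d : ℝ)), g d +
      ∑ d ∈ N.divisors.filter (fun d : ℕ => Squarefree d ∧ ¬ √y < (d : ℝ)), g d := by
    rw [← sum_filter_add_sum_filter_not (N.divisors.filter (fun d => Squarefree d))
      (fun d : ℕ => √y < (d : ℝ)), filter_filter, filter_filter]
  have hA : ∑ d ∈ N.divisors.filter (fun d : ℕ => Squarefree d ∧ √y < (d : ℝ)), g d ≤ C0 / K ^ (A + 3) := by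
    calc ∑ d ∈ N.divisors.filter (fun d : ℕ => Squarefree d ∧ √y < (d : ℝ)), g d
        ≤ ∑ d ∈ N.divisors.filter (fun d : ℕ => Squarefree d ∧ √y < (d : ℝ)), C0 * (1 / (d : ℝ)) := by
          refine sum_le_sum fun d hd => ?_
          have h3 := mem_filter.mp hd
          have h4 := hg0 d h3.1 h3.2.2
          rw [mul_one_div]
          exact h4
      _ = C0 * ∑ d ∈ N.divisors.filter (fun d : ℕ => Squarefree d ∧ √y < (d : ℝ)), 1 / (d : ℝ) := by
          rw [mul_sum]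
      _ ≤ C0 * (1 / K ^ (A + 3)) := mul_le_mul_of_nonneg_left htail hC0
      _ = C0 / K ^ (A + 3) := by rw [mul_one_div]
  have hB : ∑ d ∈ N.divisors.filter (fun d : ℕ => Squarefree d ∧ ¬ √y < (d : ℝ)), g d ≤
      C1 / K ^ (A + 3) * K := by
    calc ∑ d ∈ N.divisors.filter (fun d : ℕ => Squarefree d ∧ ¬ √y < (d : ℝ)), g d
        ≤ ∑ d ∈ N.divisors.filter (fun d : ℕ => Squarefree d ∧ ¬ √y < (d : ℝ)), C1 / K ^ (A + 3) *
          (1 / (d : ℝ)) := by
          refine sum_le_sum fun d hd => ?_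
          have h3 := mem_filter.mp hd
          have h4 := hg1 d h3.1 (not_lt.mp h3.2.2)
          refine h4.trans ?_
          have hd0 : (0 : ℝ) < d := by
            exact_mod_cast Nat.pos_of_mem_divisors h3.1
          rw [div_mul_div_comm, mul_one, mul_comm (K ^ (A + 3))]
          exact div_le_div_of_nonneg_left hC1 (by positivity)
            (mul_le_mul_of_nonneg_left hpow hd0.le)
      _ = C1 / K ^ (A + 3) * ∑ d ∈ N.divisors.filter (fun d : ℕ => Squarefree d ∧ ¬ √y < (d : ℝ)), 1 / (d : ℝ) := by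
          rw [mul_sum]
      _ ≤ C1 / K ^ (A + 3) * K := by
          refine mul_le_mul_of_nonneg_left ?_ (by positivity)
          refine le_trans (sum_le_sum_of_subset_of_nonneg ?_ ?_) hsum
          · intro d hd
            have h3 := mem_filter.mp hd
            exact mem_filter.mpr ⟨h3.1, h3.2.1⟩
          · intro d _ _
            positivity
  rw [hsplit]
  have e1 : C0 / K ^ (A + 3) ≤ C0 / K ^ (A + 2) :=
    div_le_div_of_nonneg_left hC0 (by positivity) (pow_le_pow_right₀ hK1 (by omega))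
  have e2 : C1 / K ^ (A + 3) * K = C1 / K ^ (A + 2) := by
    rw [show A + 3 = (A + 2) + 1 from rfl, pow_succ K (A + 2)]
    field_simp
  have e3 : C0 / K ^ (A + 2) + C1 / K ^ (A + 2) ≤ 1 / K ^ A := by
    rw [← add_div, pow_add, div_le_div_iff₀ (by positivity) (by positivity), one_mul]
    have e4 : C0 + C1 ≤ K ^ 2 := by nlinarith
    have e5 : 0 < K ^ A := by positivity
    nlinarith
  linarith

private theorem t2_quot {y d : ℕ} (hd : 1 ≤ d) (hy : 16 ≤ y) (hdy : (d : ℝ) ≤ √(y : ℝ)) :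
    2 ≤ (y - 1) / d ∧ Real.log y / 4 ≤ Real.log (((y - 1) / d : ℕ) : ℝ) := by
  have hyR : (16 : ℝ) ≤ y := by exact_mod_cast hy
  have hd0 : (0 : ℝ) < d := by exact_mod_cast hd
  set t : ℝ := √(y : ℝ) with ht
  have ht4 : 4 ≤ t := by
    rw [ht]
    exact Real.le_sqrt_of_sq_le (by norm_num; exact_mod_cast hyR)
  have htt : t * t = y := Real.mul_self_sqrt (by linarith)
  have h1 : y - 1 < d * ((y - 1) / d + 1) := Nat.lt_mul_div_succ _ (by omega)
  have h2 : ((y : ℝ) - 1) < d * ((((y - 1) / d : ℕ) : ℝ) + 1) := by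
    have h3 : ((y - 1 : ℕ) : ℝ) < ((d * ((y - 1) / d + 1) : ℕ) : ℝ) := by exact_mod_cast h1
    rw [Nat.cast_sub (by omega)] at h3
    push_cast at h3
    exact h3
  set Q : ℝ := (((y - 1) / d : ℕ) : ℝ) with hQ
  have hQ0 : 0 ≤ Q := Nat.cast_nonneg _
  have h3 : t - 2 ≤ Q := by
    have h4 : (d : ℝ) * (Q + 1) ≤ t * (Q + 1) := mul_le_mul_of_nonneg_right hdy (by linarith)
    have h5 : t * t - 1 < t * (Q + 1) := by rw [htt]; linarith
    nlinarith
  have h6 : t / 2 ≤ Q := by linarith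
  constructor
  · have : (2 : ℝ) ≤ Q := by linarith
    rw [hQ] at this
    exact_mod_cast this
  · have h7 : √t ≤ Q := by
      refine le_trans ?_ h6
      rw [Real.sqrt_le_left (by linarith)]
      nlinarith
    have ht0 : 0 < t := by linarith
    have h8 : Real.log √t = Real.log y / 4 := by
      rw [Real.log_sqrt ht0.le, ht, Real.log_sqrt (by linarith)]
      ring
    rw [← h8]
    exact Real.log_le_log (Real.sqrt_pos.mpr ht0) h7

open Classical in
/-- multiples of `d` -/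
private theorem t2_mult (W a y d : ℕ) (hd : 1 ≤ d) (f : ℕ → ℝ) :
    ∑ n ∈ ((Finset.Icc 1 (y - 1)).filter (fun n => n ≡ a [MOD W])).filter (fun n => d ∣ n), f n =
      ∑ m ∈ (Finset.Icc 1 ((y - 1) / d)).filter (fun m => d * m ≡ a [MOD W]), f (d * m) := by
  symm
  refine sum_nbij (fun m => d * m) ?_ ?_ ?_ fun _ _ => rfl
  · intro m hm
    have h1 := mem_filter.mp hm
    have h2 := mem_Icc.mp h1.1
    refine mem_filter.mpr ⟨mem_filter.mpr ⟨mem_Icc.mpr ⟨?_, ?_⟩, h1.2⟩, Dvd.intro _ rfl⟩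
    · exact Nat.mul_pos (by omega) (by omega)
    · exact (Nat.mul_le_mul_left d h2.2).trans (Nat.mul_div_le _ _)
  · intro m _ m' _ h
    exact Nat.eq_of_mul_eq_mul_left (by omega) h
  · intro n hn
    have h1 := mem_filter.mp hn
    have h2 := mem_filter.mp h1.1
    have h3 := mem_Icc.mp h2.1
    obtain ⟨m, hm⟩ := h1.2
    have hm' : d * m = n := hm.symm
    refine ⟨m, ?_, hm'⟩
    refine mem_coe.mpr (mem_filter.mpr ⟨mem_Icc.mpr ⟨?_, ?_⟩, ?_⟩)
    · rcases Nat.eq_zero_or_pos m with h | h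
      · rw [h, mul_zero] at hm'
        omega
      · exact h
    · rw [Nat.le_div_iff_mul_le (by omega), mul_comm, hm']
      exact h3.2
    · rw [hm']
      exact h2.2

open Classical in
private theorem t2_class (A' : ℕ) : ∃ C : ℝ, 0 < C ∧ ∀ W : ℕ, 1 ≤ W → ∀ a d Y : ℕ, a.Coprime W →
    2 ≤ Y → |∑ m ∈ (Finset.Icc 1 Y).filter (fun m => d * m ≡ a [MOD W]), lam m| ≤
      C * Y / (Real.log Y) ^ A' := by
  obtain ⟨C, hC, h⟩ := swa_class A'
  refine ⟨C, hC, fun W hW a d Y ha hY => ?_⟩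
  have hYR : (2 : ℝ) ≤ Y := by exact_mod_cast hY
  have hlog : 0 < Real.log Y := Real.log_pos (by linarith)
  have hb0 : 0 ≤ C * Y / (Real.log Y) ^ A' := by positivity
  have : NeZero W := ⟨by omega⟩
  by_cases hdW : d.Coprime W
  · set u : (ZMod W)ˣ := ZMod.unitOfCoprime d hdW with hu
    set b : ℕ := (((u⁻¹ : (ZMod W)ˣ) : ZMod W) * (a : ZMod W)).val with hb
    have h1 : ∀ m : ℕ, (d * m ≡ a [MOD W]) ↔ (m ≡ b [MOD W]) := by
      intro m
      rw [← ZMod.natCast_eq_natCast_iff, ← ZMod.natCast_eq_natCast_iff, hb, ZMod.natCast_val,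
        ZMod.cast_id, Nat.cast_mul]
      have h2 : ((d : ℕ) : ZMod W) = (u : ZMod W) := by rw [hu, ZMod.coe_unitOfCoprime]
      rw [h2]
      constructor
      · intro h3
        rw [← h3, Units.inv_mul_cancel_left]
      · intro h3
        rw [h3, Units.mul_inv_cancel_left]
    have h2 : (Finset.Icc 1 Y).filter (fun m => d * m ≡ a [MOD W]) =
        (Finset.Icc 1 Y).filter (fun m => m ≡ b [MOD W]) := by
      ext m
      rw [mem_filter, mem_filter, h1 m]
    rw [h2]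
    exact h W hW b Y hY
  · have h2 : (Finset.Icc 1 Y).filter (fun m => d * m ≡ a [MOD W]) = ∅ := by
      rw [filter_eq_empty_iff]
      intro m _ hm
      apply hdW
      have h3 : Nat.gcd d W ∣ a := by
        have h4 : Nat.gcd d W ∣ W := Nat.gcd_dvd_right _ _
        have h5 : d * m ≡ a [MOD Nat.gcd d W] := hm.of_dvd h4
        have h6 : Nat.gcd d W ∣ d * m := Dvd.dvd.mul_right (Nat.gcd_dvd_left _ _) _
        exact (h5.dvd_iff dvd_rfl).mp h6
      have h7 : Nat.gcd d W ∣ Nat.gcd a W := Nat.dvd_gcd h3 (Nat.gcd_dvd_right _ _)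
      rw [ha] at h7
      exact Nat.dvd_one.mp h7
    rw [h2, sum_empty, abs_zero]
    exact hb0

theorem swa_dom (θ : ℝ) (h0 : 0 < θ) (h1 : θ ≤ 1) (A : ℕ) : ∃ N0 : ℕ, ∀ N : ℕ, N0 ≤ N →
    ∀ W : ℕ, 1 ≤ W → ∀ a y : ℕ, a.Coprime W → Real.exp ((Real.log N) ^ θ) ≤ y →
    |∑ n ∈ Dom N W a y, lam n| ≤ y / (Real.log N) ^ A := by
  classical
  obtain ⟨A', hA'⟩ : ∃ A' : ℕ, (A : ℝ) + 3 ≤ A' * θ := by
    obtain ⟨k, hk⟩ := exists_nat_ge (((A : ℝ) + 3) / θ)
    refine ⟨k, ?_⟩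
    rwa [div_le_iff₀ h0] at hk
  obtain ⟨C, hC, hcl⟩ := t2_class A'
  obtain ⟨N1, hN1⟩ := t2_sum θ h0 h1 A A' hA' 1 (C * 4 ^ A') zero_le_one (by positivity)
  obtain ⟨N2, hN2⟩ := ((((tendsto_rpow_atTop h0).comp
    (Real.tendsto_log_atTop.comp tendsto_natCast_atTop_atTop)).eventually
    (Filter.eventually_ge_atTop (16 : ℝ)))).exists_forall_of_atTop
  obtain ⟨N3, hN3⟩ := (((Real.tendsto_log_atTop.comp tendsto_natCast_atTop_atTop).eventually
    (Filter.eventually_ge_atTop (1 : ℝ)))).exists_forall_of_atTop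
  refine ⟨max (max N1 2) (max N2 N3), fun N hN W hW a y ha hy => ?_⟩
  have hNN1 : N1 ≤ N := (le_max_left _ _).trans ((le_max_left _ _).trans hN)
  have hN2' : 2 ≤ N := (le_max_right _ _).trans ((le_max_left _ _).trans hN)
  have hK16 : (16 : ℝ) ≤ (Real.log N) ^ θ := hN2 N ((le_max_left _ _).trans ((le_max_right _ _).trans hN))
  have hK1 : (1 : ℝ) ≤ Real.log N := hN3 N ((le_max_right _ _).trans ((le_max_right _ _).trans hN))
  have hN0 : N ≠ 0 := by omega
  have hy16 : (16 : ℝ) ≤ y := by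
    have h2 := Real.add_one_le_exp ((Real.log N) ^ θ)
    linarith
  have hy16' : 16 ≤ y := by exact_mod_cast hy16
  have hlogy : (Real.log N) ^ θ ≤ Real.log y := by
    have h2 := Real.log_le_log (Real.exp_pos _) hy
    rwa [Real.log_exp] at h2
  have hy0 : (0 : ℝ) < y := by linarith
  set K : ℝ := Real.log N with hKdef
  -- the domain
  have hdom : Dom N W a y =
      ((Finset.Icc 1 (y - 1)).filter (fun n => n ≡ a [MOD W])).filter (fun n => n.Coprime N) := by
    ext n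
    unfold Dom
    rw [filter_filter, mem_filter, mem_filter, mem_range, mem_Icc]
    constructor
    · rintro ⟨h2, h3, h4⟩
      refine ⟨⟨?_, by omega⟩, h3, h4⟩
      rcases Nat.eq_zero_or_pos n with h5 | h5
      · rw [h5, Nat.coprime_zero_left] at h4
        omega
      · exact h5
    · rintro ⟨⟨h2, h3⟩, h4, h5⟩
      exact ⟨by omega, h4, h5⟩
  rw [hdom, t2_cop N hN0 lam _]
  set T : ℕ → ℝ := fun d => ∑ n ∈ ((Finset.Icc 1 (y - 1)).filter (fun n => n ≡ a [MOD W])).filter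
    (fun n => d ∣ n), lam n with hT
  have hTle : ∀ d ∈ N.divisors, |T d| / y ≤ 1 / d := by
    intro d hd
    have hdpos : 1 ≤ d := Nat.pos_of_mem_divisors hd
    have hd0 : (0 : ℝ) < d := by exact_mod_cast hdpos
    have h2 : |T d| ≤ (((y - 1) / d : ℕ) : ℝ) := by
      rw [hT]
      simp only
      rw [t2_mult W a y d hdpos]
      refine (abs_sum_le_sum_abs _ _).trans ?_
      rw [sum_congr rfl fun m _ => Pool.Agent.Lib.MP_45349e_nt.LS.abs_lam (d * m)]
      rw [sum_const, nsmul_eq_mul, mul_one]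
      have h3 : ((Finset.Icc 1 ((y - 1) / d)).filter (fun m => d * m ≡ a [MOD W])).card ≤
          (y - 1) / d := by
        refine (card_filter_le _ _).trans ?_
        rw [Nat.card_Icc, Nat.add_sub_cancel]
      exact_mod_cast h3
    have h3 : (((y - 1) / d : ℕ) : ℝ) ≤ y / d := by
      refine Nat.cast_div_le.trans ?_
      refine div_le_div_of_nonneg_right ?_ hd0.le
      exact_mod_cast Nat.sub_le _ _
    rw [div_le_div_iff₀ hy0 hd0, one_mul]
    have h4 := h2.trans h3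
    rwa [le_div_iff₀ hd0] at h4
  have hTsm : ∀ d ∈ N.divisors, (d : ℝ) ≤ √(y : ℝ) → |T d| / y ≤ C * 4 ^ A' / (d * (K ^ θ) ^ A') := by
    intro d hd hdy
    have hdpos : 1 ≤ d := Nat.pos_of_mem_divisors hd
    have hd0 : (0 : ℝ) < d := by exact_mod_cast hdpos
    obtain ⟨hq2, hqlog⟩ := t2_quot hdpos hy16' hdy
    have h2 : T d = lam d * ∑ m ∈ (Finset.Icc 1 ((y - 1) / d)).filter
        (fun m => d * m ≡ a [MOD W]), lam m := by
      rw [hT]
      simp only
      rw [t2_mult W a y d hdpos, mul_sum]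
      refine sum_congr rfl fun m hm => ?_
      have h3 := mem_Icc.mp (mem_filter.mp hm).1
      exact Pool.Agent.Lib.MP_45349e_nt.LS.lam_mul d m (by omega) (by omega)
    have h3 := hcl W hW a d ((y - 1) / d) ha hq2
    rw [h2, abs_mul, Pool.Agent.Lib.MP_45349e_nt.LS.abs_lam, one_mul]
    set Q : ℝ := (((y - 1) / d : ℕ) : ℝ) with hQ
    have hQ0 : (0 : ℝ) ≤ Q := Nat.cast_nonneg _
    have hQy : Q ≤ y / d := by
      refine Nat.cast_div_le.trans ?_
      refine div_le_div_of_nonneg_right ?_ hd0.le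
      exact_mod_cast Nat.sub_le _ _
    have hKt : 0 < K ^ θ := by linarith
    have h4 : K ^ θ / 4 ≤ Real.log Q := by linarith
    have h5 : (K ^ θ / 4) ^ A' ≤ Real.log Q ^ A' := pow_le_pow_left₀ (by positivity) h4 _
    have h6 : C * Q / Real.log Q ^ A' ≤ C * (y / d) / (K ^ θ / 4) ^ A' :=
      div_le_div₀ (by positivity) (mul_le_mul_of_nonneg_left hQy hC.le) (by positivity) h5
    have h7 : C * (y / d) / (K ^ θ / 4) ^ A' = (C * 4 ^ A' / (d * (K ^ θ) ^ A')) * y := by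
      rw [div_pow]
      field_simp
    rw [div_le_iff₀ hy0, ← h7]
    exact h3.trans h6
  have hfin := hN1 N hNN1 (y : ℝ) hy (fun d => |T d| / y) (fun d hd _ => hTle d hd) hTsm
  have h2 : |∑ d ∈ N.divisors.filter (fun d => Squarefree d), ((ArithmeticFunction.moebius d : ℤ) : ℝ) *
      T d| ≤ ∑ d ∈ N.divisors.filter (fun d => Squarefree d), |T d| := by
    refine (abs_sum_le_sum_abs _ _).trans (sum_le_sum fun d _ => ?_)
    rw [abs_mul]
    have h3 : |((ArithmeticFunction.moebius d : ℤ) : ℝ)| ≤ 1 := by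
      have h4 := ArithmeticFunction.abs_moebius_le_one (n := d)
      exact_mod_cast h4
    calc |((ArithmeticFunction.moebius d : ℤ) : ℝ)| * |T d| ≤ 1 * |T d| :=
          mul_le_mul_of_nonneg_right h3 (abs_nonneg _)
      _ = |T d| := one_mul _
  refine h2.trans ?_
  rw [← sum_div, div_le_div_iff₀ hy0 (by positivity), one_mul] at hfin
  rw [le_div_iff₀ (by positivity)]
  exact hfin


end Pool.Agent.Lib.PP
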