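import Pool.Agent.Lib.MP_7b7e48_nt.PP.S3c

/-!
# Part III of theorem PP
-/

open Finset
open Pool.Agent.Lib.MP_45349e_nt.LS (lam lam_mul lam_prime)

namespace Pool.Agent.Lib.PP

open Pool.Agent.Lib.OW (UU mr sum_zmod)
open Pool.Agent.Lib.OA (card_UU_tot)

open Classical in
/-- the characters related to `B` -/
noncomputable def XB {W N : ℕ} [NeZero (W * N)] (B : Finset (DirichletCharacter ℂ (W * N))) :
    Finset (DirichletCharacter ℂ (W * N)) :=
  univ.filter fun χ => ∃ ψ : DirichletCharacter ℂ W, DirichletCharacter.changeLevel (dvd_mul_right W N) ψ * χ⁻¹ ∈ B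

theorem XB_card {W N : ℕ} [NeZero W] [NeZero (W * N)] (B : Finset (DirichletCharacter ℂ (W * N))) :
    (XB B).card ≤ W * B.card := by
  classical
  have h1 : XB B ⊆ ((univ : Finset (DirichletCharacter ℂ W)) ×ˢ B).image
      (fun p => DirichletCharacter.changeLevel (dvd_mul_right W N) p.1 * p.2⁻¹) := by
    intro χ hχ
    unfold XB at hχ
    rw [mem_filter] at hχ
    obtain ⟨-, ψ, hψ⟩ := hχ
    rw [mem_image]
    refine ⟨(ψ, DirichletCharacter.changeLevel (dvd_mul_right W N) ψ * χ⁻¹), mem_product.mpr ⟨mem_univ _, hψ⟩, ?_⟩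
    simp
  refine (card_le_card h1).trans (card_image_le.trans ?_)
  rw [card_product]
  refine Nat.mul_le_mul_right _ ?_
  rw [card_univ, ← Nat.card_eq_fintype_card]
  rw [DirichletCharacter.card_eq_totient_of_hasEnoughRootsOfUnity ℂ W]
  exact Nat.totient_le W

theorem part3 (hMR : MRqS) (W : ℕ) (hW : 1 ≤ W) (κ ε : ℝ) (hκ : 0 < κ) (hε : 0 < ε) :
    ∃ η : ℝ, 0 < η ∧ ∃ A0 : ℕ, 0 < A0 ∧ ∀ A : ℕ, A0 ≤ A → ∃ N0 : ℕ, ∀ (N : ℕ) [NeZero (W * N)], N0 ≤ N →
    κ * N ≤ N.totient → ∀ a : ℕ, a.Coprime W →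
    (∀ k : ℕ, 1 ≤ k → k < A → ((NQ W N a k).card : ℝ) ≤ η * N) →
    ∃ (χ : DirichletCharacter ℂ (W * N)) (ω : ℂ), ‖ω‖ = 1 ∧
      ∑ x ∈ UU W N a, ‖(lam x : ℂ) - ω * χ (x : ZMod (W * N))‖ ^ 2 ≤ ε * (UU W N a).card := by
  classical
  have : NeZero W := ⟨by omega⟩
  have hWR : (1 : ℝ) ≤ W := by exact_mod_cast hW
  have hW0 : (0 : ℝ) < W := by linarith
  obtain ⟨δ, η1, hδ, hη1, N1, hsp⟩ := spX W hW ε hε
  obtain ⟨A0, hA0, hMR1⟩ := hMR (κ / W) (η1 * κ ^ 2 / (4 * W ^ 3)) (by positivity) (by positivity)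
  refine ⟨η1 * κ / (16 * W), by positivity, A0, hA0, ?_⟩
  intro A hA
  obtain ⟨ε', hε'⟩ : ∃ ε' : ℝ, ε' = min (δ / 2) 1 := ⟨_, rfl⟩
  have hε'0 : 0 < ε' := by rw [hε']; positivity
  obtain ⟨q0, hMR2⟩ := hMR1 A hA ε' hε'0
  have ht : Filter.Tendsto (fun N : ℕ => (N : ℝ) ^ (δ / 2)) Filter.atTop Filter.atTop :=
    (tendsto_rpow_atTop (by positivity)).comp tendsto_natCast_atTop_atTop
  obtain ⟨N2, hN2⟩ := (ht.eventually_ge_atTop ((W : ℝ) ^ 2)).exists_forall_of_atTop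
  refine ⟨max (max N1 q0) (max N2 2), ?_⟩
  intro N _ hN htot a haW hP
  have n1 : N1 ≤ N := (le_max_left _ _).trans ((le_max_left _ _).trans hN)
  have n2 : q0 ≤ N := (le_max_right _ _).trans ((le_max_left _ _).trans hN)
  have n3 : N2 ≤ N := (le_max_left _ _).trans ((le_max_right _ _).trans hN)
  have n4 : 2 ≤ N := (le_max_right _ _).trans ((le_max_right _ _).trans hN)
  have hN0 : (0 : ℝ) < N := by exact_mod_cast (by omega : 0 < N)
  have hN1R : (1 : ℝ) ≤ N := by exact_mod_cast (by omega : 1 ≤ N)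
  have hNq : N ≤ W * N := Nat.le_mul_of_pos_left _ hW
  have hφ1 : (N.totient : ℝ) ≤ (W * N).totient := by
    have h1 := Nat.totient_super_multiplicative W N
    have h2 : 1 ≤ W.totient := Nat.totient_pos.mpr hW
    have h3 : N.totient ≤ (W * N).totient := by
      calc N.totient = 1 * N.totient := (one_mul _).symm
        _ ≤ W.totient * N.totient := Nat.mul_le_mul_right _ h2
        _ ≤ _ := h1
    exact_mod_cast h3
  have hφN : κ * N ≤ (W * N).totient := htot.trans hφ1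
  have hφ0 : (0 : ℝ) < (W * N).totient := lt_of_lt_of_le (by positivity) hφN
  obtain ⟨B, hBc, hB⟩ := hMR2 (W * N) (n2.trans hNq) (by
    push_cast
    refine le_trans (le_of_eq ?_) hφN
    field_simp) fl fl_mul fl_norm
  have hXc : ((XB B).card : ℝ) ≤ (N : ℝ) ^ δ := by
    have h1 : ((XB B).card : ℝ) ≤ W * B.card := by exact_mod_cast XB_card B
    have h2 : (((W * N : ℕ) : ℝ)) ^ ε' ≤ W * (N : ℝ) ^ (δ / 2) := by
      push_cast
      rw [Real.mul_rpow hW0.le hN0.le]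
      refine mul_le_mul ?_ ?_ (by positivity) hW0.le
      · calc (W : ℝ) ^ ε' ≤ (W : ℝ) ^ (1 : ℝ) :=
              Real.rpow_le_rpow_of_exponent_le hWR (by rw [hε']; exact min_le_right _ _)
          _ = W := Real.rpow_one _
      · exact Real.rpow_le_rpow_of_exponent_le hN1R (by rw [hε']; exact min_le_left _ _)
    have h3 := hN2 N n3
    calc ((XB B).card : ℝ) ≤ W * B.card := h1
      _ ≤ W * (W * (N : ℝ) ^ (δ / 2)) := mul_le_mul_of_nonneg_left (hBc.trans h2) hW0.le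
      _ = (W : ℝ) ^ 2 * (N : ℝ) ^ (δ / 2) := by ring
      _ ≤ (N : ℝ) ^ (δ / 2) * (N : ℝ) ^ (δ / 2) := mul_le_mul_of_nonneg_right h3 (by positivity)
      _ = (N : ℝ) ^ δ := by
          rw [← Real.rpow_add hN0]
          congr 1
          ring
  have hA1 : 1 ≤ A := by omega
  have hAR : (0 : ℝ) < A := by exact_mod_cast hA1
  have hHH := small_HH (W := W) (N := N) (a := a) (A := A) n4 haW hA1
    (η1 * κ ^ 2 / (4 * W ^ 3) * ((A : ℝ) * ((W * N : ℕ) : ℝ)) ^ 2) (η1 * κ / (16 * W) * N) (by positivity) B (XB B)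
    (fun T hT => hB T hT) (fun χ hχ ψ hψ => hχ (by
      unfold XB
      rw [mem_filter]
      exact ⟨mem_univ _, ψ, hψ⟩)) hP
  have hU : κ * N / W ≤ (UU W N a).card := by
    rw [div_le_iff₀ hW0]
    have h1 : ((UU W N a).card : ℝ) * W.totient = (W * N).totient := by
      exact_mod_cast card_UU_tot hW (by omega) haW
    have h2 : (W.totient : ℝ) ≤ W := by exact_mod_cast Nat.totient_le W
    calc κ * N ≤ (W * N).totient := hφN
      _ = (UU W N a).card * W.totient := h1.symm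
      _ ≤ _ := mul_le_mul_of_nonneg_left h2 (Nat.cast_nonneg _)
  refine hsp N n1 a haW (XB B) hXc (hHH.trans ?_)
  have e1 : 2 * (η1 * κ ^ 2 / (4 * W ^ 3) * ((A : ℝ) * ((W * N : ℕ) : ℝ)) ^ 2 / (A ^ 2 * (W * N).totient)) ≤
      η1 / 2 * (κ * N / W) := by
    have e2 : 2 * (η1 * κ ^ 2 / (4 * W ^ 3) * ((A : ℝ) * ((W * N : ℕ) : ℝ)) ^ 2 / (A ^ 2 * (W * N).totient)) =
        η1 * κ ^ 2 * N ^ 2 / (2 * W) / (W * N).totient := by
      push_cast
      field_simp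
      norm_num
    rw [e2, div_le_iff₀ hφ0]
    calc η1 * κ ^ 2 * N ^ 2 / (2 * W) = η1 / 2 * (κ * N / W) * (κ * N) := by field_simp
      _ ≤ _ := mul_le_mul_of_nonneg_left hφN (by positivity)
  have e3 : 8 * (η1 * κ / (16 * W) * N) = η1 / 2 * (κ * N / W) := by
    field_simp
    norm_num
  rw [e3]
  calc _ ≤ η1 / 2 * (κ * N / W) + η1 / 2 * (κ * N / W) := add_le_add e1 le_rfl
    _ = η1 * (κ * N / W) := by ring
    _ ≤ η1 * (UU W N a).card := mul_le_mul_of_nonneg_left hU hη1.le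

end Pool.Agent.Lib.PP
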