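import Pool.Agent.Lib.MP_7b7e48_nt.PP.Prd
import Pool.Agent.Lib.MP_7b7e48_nt.PP.S3d
import Pool.Agent.Lib.MR.Main

/-!
# PP part III: `lam` is close to a character on the class

PROOF. `part3` (module S3d) with `MR.MRq`; the periodicity is `prd`.
-/

open Finset
open Pool.Agent.Lib.MP_45349e_nt.LS (lam)
open Pool.Agent.Lib.RG (bch)
open Pool.Agent.Lib.OWS

namespace Pool.Agent.Lib.PP

open Pool.Agent.Lib.OW (UU)
open Pool.Agent.Lib.OA (card_UU_tot)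

theorem mrqs : MRqS := fun κ η hκ hη => MR.MRq κ η hκ hη

theorem card_UU_le' {W N a : ℕ} (hW : 1 ≤ W) (hN : 0 < N) (haW : a.Coprime W) : (UU W N a).card ≤ W * N := by
  have h1 := card_UU_tot hW hN haW
  have h2 : 1 ≤ W.totient := Nat.totient_pos.mpr hW
  calc (UU W N a).card = (UU W N a).card * 1 := (mul_one _).symm
    _ ≤ (UU W N a).card * W.totient := Nat.mul_le_mul_left _ h2
    _ = (W * N).totient := h1
    _ ≤ W * N := Nat.totient_le _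

theorem gg_lam {q : ℕ} (χ : DirichletCharacter ℂ q) (n : ℕ) (ω : ℂ) (hn : IsUnit (n : ZMod q)) :
    ‖gg (-1) χ⁻¹ n - ω‖ = ‖(lam n : ℂ) - ω * χ (n : ZMod q)‖ := by
  have h1 : gg (-1) χ⁻¹ n = (lam n : ℂ) * χ⁻¹ (n : ZMod q) := by
    unfold gg om
    unfold Pool.Agent.Lib.MP_45349e_nt.LS.lam
    rw [ArithmeticFunction.cardFactors_apply]
    push_cast
    rfl
  have h2 : χ (n : ZMod q) * χ⁻¹ (n : ZMod q) = 1 := by
    rw [← MulChar.mul_apply, mul_inv_cancel]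
    exact MulChar.one_apply hn
  obtain ⟨u, hu⟩ := hn
  have h3 : ‖χ (n : ZMod q)‖ = 1 := by
    rw [← hu]
    exact DirichletCharacter.unit_norm_eq_one χ u
  calc ‖gg (-1) χ⁻¹ n - ω‖ = ‖gg (-1) χ⁻¹ n - ω‖ * ‖χ (n : ZMod q)‖ := by rw [h3, mul_one]
    _ = ‖(gg (-1) χ⁻¹ n - ω) * χ (n : ZMod q)‖ := (norm_mul _ _).symm
    _ = _ := by
        congr 1
        rw [h1, sub_mul, mul_assoc, mul_comm (χ⁻¹ (n : ZMod q)), h2, mul_one]

theorem apx (W : ℕ) (hW : 1 ≤ W) (κ ε : ℝ) (hκ : 0 < κ) (hε : 0 < ε) : ∃ δ : ℝ, 0 < δ ∧ ∃ N0 : ℕ,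
    ∀ N : ℕ, N0 ≤ N → κ * N ≤ N.totient → ∀ (a : ℕ) (s : ℝ), a.Coprime W → s ^ 2 = 1 →
    ((EX W N a s).card : ℝ) ≤ δ * N → ∃ χ : DirichletCharacter ℂ (W * N), Apx W N a ε χ := by
  have hW0 : (0 : ℝ) < W := by exact_mod_cast hW
  obtain ⟨η, hη, A, hA, h3⟩ := part3 mrqs W hW κ (ε / W) hκ (by positivity)
  obtain ⟨N1, h4⟩ := h3 A le_rfl
  obtain ⟨δ, hδ, N2, h5⟩ := prd W A κ η hW hκ hη
  refine ⟨δ, hδ, max N1 (max N2 1), ?_⟩
  intro N hN htot a s haW hs hE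
  have n1 : N1 ≤ N := (le_max_left _ _).trans hN
  have n2 : N2 ≤ N := (le_max_left _ _).trans ((le_max_right _ _).trans hN)
  have n3 : 1 ≤ N := (le_max_right _ _).trans ((le_max_right _ _).trans hN)
  have hne : NeZero (W * N) := ⟨(Nat.mul_pos hW n3).ne'⟩
  obtain ⟨χ, ω, hω, hsum⟩ := h4 N n1 htot a haW (by
    intro k hk hkA
    refine le_trans ?_ (h5 N n2 htot a s hs hE k hk hkA)
    have h6 : NQ W N a k ⊆ NP W N a A k := by
      intro u hu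
      unfold NQ at hu
      unfold NP
      rw [mem_filter, mem_Ioc] at hu ⊢
      refine ⟨⟨hu.1.1, hu.1.2.trans ?_⟩, hu.2.1, hu.2.2.2⟩
      exact Nat.mul_le_mul_right _ (Nat.mul_le_mul_right _ hkA)
    exact_mod_cast card_le_card h6)
  refine ⟨χ⁻¹, ω, hω.le, ?_⟩
  have hCL : CL W N a ⊆ UU W N a := by
    intro n hn
    unfold CL at hn
    unfold UU
    rw [mem_filter, mem_range] at hn ⊢
    exact ⟨lt_of_lt_of_le hn.1 (Nat.le_mul_of_pos_left _ hW), hn.2.1, Nat.Coprime.coprime_mul_left_right hn.2.2⟩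
  have e1 : ∑ n ∈ CL W N a, ‖gg (-1) χ⁻¹ n - ω‖ ^ 2 = ∑ n ∈ CL W N a, ‖(lam n : ℂ) - ω * χ (n : ZMod (W * N))‖ ^ 2 := by
    refine sum_congr rfl fun n hn => ?_
    unfold CL at hn
    rw [mem_filter] at hn
    rw [gg_lam χ n ω ((ZMod.isUnit_iff_coprime _ _).mpr hn.2.2)]
  rw [e1]
  refine (sum_le_sum_of_subset_of_nonneg hCL fun _ _ _ => sq_nonneg _).trans (hsum.trans ?_)
  have h7 : ((UU W N a).card : ℝ) ≤ W * N := by exact_mod_cast card_UU_le' hW n3 haW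
  calc ε / W * (UU W N a).card ≤ ε / W * (W * N) := mul_le_mul_of_nonneg_left h7 (by positivity)
    _ = ε * N := by field_simp

end Pool.Agent.Lib.PP
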