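import Pool.Agent.Lib.MP_7b7e48_nt.PP.Defs
import Pool.Agent.Lib.MP_7b7e48_nt.OW.T1

/-!
# PP part IV: few representations of one kind: the rule `lam m * lam (N - m) = s` has few exceptions

PROOF.
s0 = (-1)^i, t0 = (-1)^j, s := -s0 t0. x(al,be) = #{0<n<N, n = a (W), lam n = al, lam(N-n) = be}. x(s0,t0) <= |RP| + 1 (the condition n <> N - n).
|sum_{0<n<N, n = a (W)} lam n| <= E and |sum lam(N-n)| = |sum_{m = N-a (W)} lam m| <= E with E = o(N) (OW.lam_class with A = 1), so x(-s0,-t0) <= x(s0,t0) + E.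
EX W N a s = the n with lam n lam(N-n) = s0 t0: card = x(s0,t0) + x(-s0,-t0) <= 2 (delta/4 N + 1) + E <= delta N.
-/

open Finset
open Pool.Agent.Lib.MP_45349e_nt.LS (lam)

namespace Pool.Agent.Lib.PP

private theorem cnt_pm (n : ℕ) : lam n = 1 ∨ lam n = -1 := by
  have h := Pool.Agent.Lib.MP_45349e_nt.LS.abs_lam n
  rcases abs_cases (lam n) with h1 | h1
  · left; linarith
  · right; linarith

private theorem cnt_par (n i : ℕ) (h : lam n = (-1 : ℝ) ^ i) :
    ArithmeticFunction.cardFactors n % 2 = i % 2 := by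
  have h0 : lam n = (-1 : ℝ) ^ (ArithmeticFunction.cardFactors n) := rfl
  rw [h0] at h
  rcases Nat.even_or_odd (ArithmeticFunction.cardFactors n) with h1 | h1 <;>
    rcases Nat.even_or_odd i with h2 | h2
  · rw [Nat.even_iff.1 h1, Nat.even_iff.1 h2]
  · rw [h1.neg_one_pow, h2.neg_one_pow] at h
    norm_num at h
  · rw [h1.neg_one_pow, h2.neg_one_pow] at h
    norm_num at h
  · rw [Nat.odd_iff.1 h1, Nat.odd_iff.1 h2]

private theorem cnt_refl {N W a n : ℕ} (haN : a ≤ N)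
    (h : n ∈ (Finset.Ioo 0 N).filter (fun n => n % W = a % W)) :
    N - n ∈ (Finset.Ioo 0 N).filter (fun n => n % W = (N - a) % W) := by
  rw [mem_filter, mem_Ioo] at h ⊢
  obtain ⟨⟨h1, h2⟩, h3⟩ := h
  refine ⟨⟨by omega, by omega⟩, ?_⟩
  have h3' : n ≡ a [MOD W] := h3
  have h4 : N - n + n ≡ N - a + a [MOD W] := by
    rw [Nat.sub_add_cancel h2.le, Nat.sub_add_cancel haN]
  exact Nat.ModEq.add_right_cancel h3' h4

private theorem cnt_sum {N W a : ℕ} (haN : a ≤ N) :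
    ∑ n ∈ (Finset.Ioo 0 N).filter (fun n => n % W = a % W), lam (N - n) =
      ∑ n ∈ (Finset.Ioo 0 N).filter (fun n => n % W = (N - a) % W), lam n := by
  refine Finset.sum_nbij' (fun n => N - n) (fun n => N - n) ?_ ?_ ?_ ?_ ?_
  · intro n hn
    exact cnt_refl haN hn
  · intro n hn
    have h := cnt_refl (Nat.sub_le _ _) hn
    rw [Nat.sub_sub_self haN] at h
    exact h
  · intro n hn
    exact Nat.sub_sub_self (mem_Ioo.1 (mem_filter.1 hn).1).2.le
  · intro n hn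
    exact Nat.sub_sub_self (mem_Ioo.1 (mem_filter.1 hn).1).2.le
  · intro n _
    rfl

private theorem cnt_main {W N a i j : ℕ} (haN : a ≤ N) (s t : ℝ) (hs : s = 1 ∨ s = -1)
    (ht : t = 1 ∨ t = -1) (hsi : s = (-1 : ℝ) ^ i) (htj : t = (-1 : ℝ) ^ j) :
    ((EX W N a (-(s * t))).card : ℝ) ≤ 2 * ((RP W N a i j).card : ℝ) + 2 +
      (|∑ n ∈ (Finset.Ioo 0 N).filter (fun n => n % W = a % W), lam n| +
      |∑ n ∈ (Finset.Ioo 0 N).filter (fun n => n % W = (N - a) % W), lam n|) / 2 := by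
  classical
  obtain ⟨U, hU⟩ : ∃ U : Finset ℕ, U = (Finset.Ioo 0 N).filter (fun n => n % W = a % W) := ⟨_, rfl⟩
  obtain ⟨A, hA⟩ : ∃ A : Finset ℕ, A = U.filter (fun n => lam n = s ∧ lam (N - n) = t) := ⟨_, rfl⟩
  obtain ⟨B, hB⟩ : ∃ B : Finset ℕ, B = U.filter (fun n => lam n = -s ∧ lam (N - n) = -t) := ⟨_, rfl⟩
  have hEAB : EX W N a (-(s * t)) ⊆ A ∪ B := by
    intro n hn
    unfold EX at hn
    rw [mem_filter, mem_range] at hn
    obtain ⟨h1, h0, h2, h3⟩ := hn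
    have hnU : n ∈ U := by
      rw [hU, mem_filter, mem_Ioo]
      exact ⟨⟨h0, h1⟩, h2⟩
    rw [Finset.mem_union, hA, hB, Finset.mem_filter, Finset.mem_filter]
    clear hsi htj
    rcases hs with rfl | rfl <;> rcases ht with rfl | rfl <;> rcases cnt_pm n with h5 | h5 <;>
      rcases cnt_pm (N - n) with h6 | h6 <;> rw [h5, h6] at h3 ⊢ <;>
      first
        | (exfalso; apply h3; norm_num; done)
        | (left; refine ⟨hnU, ?_, ?_⟩ <;> norm_num; done)
        | (right; refine ⟨hnU, ?_, ?_⟩ <;> norm_num; done)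
  have hAr : A.card ≤ (RP W N a i j).card + 1 := by
    have h1 : A ⊆ RP W N a i j ∪ {N / 2} := by
      intro n hn
      rw [hA, hU, mem_filter, mem_filter] at hn
      obtain ⟨⟨h1, h2⟩, h3, h4⟩ := hn
      rw [mem_Ioo] at h1
      rw [mem_union, mem_singleton]
      by_cases h5 : n = N - n
      · right
        omega
      · left
        unfold RP
        rw [mem_filter, mem_range]
        exact ⟨h1.2, h1.1, h5, h2, cnt_par _ _ (h3.trans hsi), cnt_par _ _ (h4.trans htj)⟩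
    exact (card_le_card h1).trans ((card_union_le _ _).trans (by rw [card_singleton]))
  clear hsi htj
  have hsum : ∑ n ∈ U, (s * lam n + t * lam (N - n)) = 2 * (A.card : ℝ) - 2 * (B.card : ℝ) := by
    have hpt : ∀ n ∈ U, s * lam n + t * lam (N - n) =
        (if lam n = s ∧ lam (N - n) = t then (2 : ℝ) else 0) -
        (if lam n = -s ∧ lam (N - n) = -t then (2 : ℝ) else 0) := by
      intro n _
      rcases hs with rfl | rfl <;> rcases ht with rfl | rfl <;> rcases cnt_pm n with h5 | h5 <;>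
        rcases cnt_pm (N - n) with h6 | h6 <;> rw [h5, h6] <;> norm_num
    rw [Finset.sum_congr rfl hpt, Finset.sum_sub_distrib, ← Finset.sum_filter, ← Finset.sum_filter,
      Finset.sum_const, Finset.sum_const, nsmul_eq_mul, nsmul_eq_mul, ← hA, ← hB]
    ring
  have hsum2 : ∑ n ∈ U, (s * lam n + t * lam (N - n)) =
      s * ∑ n ∈ (Finset.Ioo 0 N).filter (fun n => n % W = a % W), lam n +
      t * ∑ n ∈ (Finset.Ioo 0 N).filter (fun n => n % W = (N - a) % W), lam n := by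
    rw [Finset.sum_add_distrib, ← Finset.mul_sum, ← Finset.mul_sum, hU, cnt_sum haN]
  obtain ⟨X, hX⟩ : ∃ X : ℝ, X = ∑ n ∈ (Finset.Ioo 0 N).filter (fun n => n % W = a % W), lam n :=
    ⟨_, rfl⟩
  obtain ⟨Y, hY⟩ : ∃ Y : ℝ, Y =
      ∑ n ∈ (Finset.Ioo 0 N).filter (fun n => n % W = (N - a) % W), lam n := ⟨_, rfl⟩
  rw [← hX, ← hY] at hsum2 ⊢
  have h1 : 2 * (A.card : ℝ) - 2 * (B.card : ℝ) = s * X + t * Y := by rw [← hsum, hsum2]
  have hx1 := neg_abs_le X
  have hx2 := le_abs_self X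
  have hy1 := neg_abs_le Y
  have hy2 := le_abs_self Y
  have h2 : -(|X| + |Y|) ≤ s * X + t * Y := by
    rcases hs with rfl | rfl <;> rcases ht with rfl | rfl <;> linarith
  have h3 : ((EX W N a (-(s * t))).card : ℝ) ≤ (A.card : ℝ) + B.card := by
    exact_mod_cast (card_le_card hEAB).trans (card_union_le _ _)
  have h4 : (A.card : ℝ) ≤ ((RP W N a i j).card : ℝ) + 1 := by exact_mod_cast hAr
  linarith

private theorem cnt_lam (W : ℕ) (hW : 1 ≤ W) (ε : ℝ) (hε : 0 < ε) : ∃ N0 : ℕ, ∀ N : ℕ, N0 ≤ N →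
    ∀ a : ℕ, |∑ n ∈ (Finset.Ioo 0 N).filter (fun n => n % W = a % W), lam n| ≤ ε * N := by
  obtain ⟨C, hC, h⟩ := Pool.Agent.Lib.OW.lam_class W hW 1
  obtain ⟨N1, hN1⟩ := Filter.eventually_atTop.mp
    ((Real.tendsto_log_atTop.comp tendsto_natCast_atTop_atTop).eventually_ge_atTop
      (2 * C / ε))
  refine ⟨max 4 N1, fun N hN a => ?_⟩
  have hN4 : 4 ≤ N := (le_max_left _ _).trans hN
  have hlog : 2 * C / ε ≤ Real.log N := hN1 N ((le_max_right _ _).trans hN)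
  rw [div_le_iff₀ hε] at hlog
  have h1 := h a (N - 1) (by omega)
  have hset : (Finset.Ioo 0 N).filter (fun n => n % W = a % W) =
      (Finset.Icc 1 (N - 1)).filter (fun n => n ≡ a [MOD W]) := by
    ext n
    rw [mem_filter, mem_filter, mem_Ioo, mem_Icc]
    constructor
    · rintro ⟨⟨h2, h3⟩, h4⟩
      exact ⟨⟨h2, by omega⟩, h4⟩
    · rintro ⟨⟨h2, h3⟩, h4⟩
      exact ⟨⟨h2, by omega⟩, h4⟩
  rw [hset]
  refine h1.trans ?_
  have hN4' : (4 : ℝ) ≤ N := by exact_mod_cast hN4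
  have hN0 : (0 : ℝ) < N := by linarith
  have hc : ((N - 1 : ℕ) : ℝ) = (N : ℝ) - 1 := by
    rw [Nat.cast_sub (by omega)]
    norm_num
  have hL0 : 0 < Real.log N := Real.log_pos (by linarith)
  have hL : Real.log N / 2 ≤ Real.log ((N - 1 : ℕ) : ℝ) := by
    rw [hc, ← Real.log_sqrt hN0.le]
    apply Real.log_le_log (Real.sqrt_pos.2 hN0)
    rw [Real.sqrt_le_left (by linarith)]
    nlinarith
  rw [pow_one, div_le_iff₀ (by linarith)]
  calc C * ((N - 1 : ℕ) : ℝ) ≤ C * N := by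
        rw [hc]
        gcongr
        linarith
    _ ≤ (ε * (Real.log N / 2)) * N := by
        have : C ≤ ε * (Real.log N / 2) := by linarith
        gcongr
    _ = ε * N * (Real.log N / 2) := by ring
    _ ≤ ε * N * Real.log ((N - 1 : ℕ) : ℝ) := by gcongr

theorem cnt (W : ℕ) (hW : 1 ≤ W) (δ : ℝ) (hδ : 0 < δ) : ∃ N0 : ℕ, ∀ N : ℕ, N0 ≤ N → ∀ a i j : ℕ, a ≤ N →
    a.Coprime W → (N - a).Coprime W → ((RP W N a i j).card : ℝ) < δ / 4 * N →
    ∃ s : ℝ, s ^ 2 = 1 ∧ ((EX W N a s).card : ℝ) ≤ δ * N := by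
  obtain ⟨N1, hN1⟩ := cnt_lam W hW (δ / 8) (by positivity)
  refine ⟨max N1 ⌈8 / δ⌉₊, fun N hN a i j haN _ _ hRP => ?_⟩
  have h1 := hN1 N ((le_max_left _ _).trans hN)
  have h2 : 8 / δ ≤ N := (Nat.le_ceil _).trans (by exact_mod_cast (le_max_right _ _).trans hN)
  rw [div_le_iff₀ hδ] at h2
  have hs : ((-1 : ℝ) ^ i = 1 ∨ (-1 : ℝ) ^ i = -1) := neg_one_pow_eq_or ℝ i
  have ht : ((-1 : ℝ) ^ j = 1 ∨ (-1 : ℝ) ^ j = -1) := neg_one_pow_eq_or ℝ j
  refine ⟨-((-1 : ℝ) ^ i * (-1 : ℝ) ^ j), ?_, ?_⟩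
  · rcases hs with h | h <;> rcases ht with h' | h' <;> rw [h, h'] <;> norm_num
  · have h3 := cnt_main (W := W) haN _ _ hs ht rfl rfl
    have h4 := h1 a
    have h5 := h1 (N - a)
    linarith

end Pool.Agent.Lib.PP
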