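import Mathlib
import Pool.Agent.Lib.MP_7b7e48_nt.OW.SPDefs

/-!
# Positive proportion of prescribed Liouville signs in Goldbach representations: definitions

Paper proof: `/team-store/PP_PROOF.md`. `lam` is the (real valued) Liouville function.
-/

set_option autoImplicit false

open Finset
open Pool.Agent.Lib.MP_45349e_nt.LS (lam)
open Pool.Agent.Lib.OWS (gg)

namespace Pool.Agent.Lib.PP

/-- the exceptional numbers of the rule `lam m * lam (N - m) = s` in the class `a` modulo `W` -/
noncomputable def EX (W N a : ℕ) (s : ℝ) : Finset ℕ :=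
  open Classical in (Finset.range N).filter fun m => 0 < m ∧ m % W = a % W ∧ lam m * lam (N - m) ≠ s

/-- the numbers `u` with `k W N < u ≤ A W N`, `u ≡ a` modulo `W`, for which `lam u ≠ lam (u - k W N)` -/
noncomputable def NP (W N a A k : ℕ) : Finset ℕ :=
  open Classical in (Finset.Ioc (k * W * N) (A * W * N)).filter fun u => u % W = a % W ∧
    lam u ≠ lam (u - k * W * N)

/-- `lam` on the units of `ZMod q` in the class `a` modulo `W` -/
noncomputable def FF (W q a : ℕ) (x : ZMod q) : ℝ :=
  open Classical in if IsUnit x ∧ x.val % W = a % W then lam x.val else 0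

/-- `χ n` depends only on `n` modulo `d` (for `n` coprime to `q`) -/
def Per {q : ℕ} (χ : DirichletCharacter ℂ q) (d : ℕ) : Prop :=
  ∀ n n' : ℕ, n.Coprime q → n'.Coprime q → n ≡ n' [MOD d] → χ (n : ZMod q) = χ (n' : ZMod q)

/-- the numbers `n < N` in the class `a` modulo `W` which are coprime to `W N` -/
def CL (W N a : ℕ) : Finset ℕ := (Finset.range N).filter fun n => n % W = a % W ∧ n.Coprime (W * N)

/-- `(-1)^Ω(n) χ n` is nearly constant on the class `a` modulo `W` up to `N` -/
def Apx (W N a : ℕ) (ε : ℝ) (χ : DirichletCharacter ℂ (W * N)) : Prop :=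
  ∃ c : ℂ, ‖c‖ ≤ 1 ∧ ∑ n ∈ CL W N a, ‖gg (-1) χ n - c‖ ^ 2 ≤ ε * N

/-- the representations with prescribed parities -/
noncomputable def RP (W N a i j : ℕ) : Finset ℕ :=
  (Finset.range N).filter fun n => 0 < n ∧ n ≠ N - n ∧ n % W = a % W ∧
    ArithmeticFunction.cardFactors n % 2 = i % 2 ∧ ArithmeticFunction.cardFactors (N - n) % 2 = j % 2

end Pool.Agent.Lib.PP
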