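import Pool.Agent.Lib.MP_7b7e48_nt.PP.Main
import Pool.Agent.Lib.MP_7b7e48_nt.OW.PA7

/-!
# PP: the final form
-/

open Finset
open Pool.Agent.Lib.OW (creps rreps')

namespace Pool.Agent.Lib.PP

theorem RP_sub_creps {W N a i j : ℕ} (hi : i < 2) (hj : j < 2) : RP W N a i j ⊆ creps W N a i j := by
  intro n hn
  unfold RP at hn
  unfold creps
  rw [mem_filter, mem_range] at hn
  rw [mem_filter, mem_Ioo]
  obtain ⟨h1, h2, h3, h4, h5, h6⟩ := hn
  exact ⟨⟨h2, h1⟩, h3, h4, by rw [h5, Nat.mod_eq_of_lt hi], by rw [h6, Nat.mod_eq_of_lt hj]⟩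

theorem fin :
    (∀ q : ℕ, 1 ≤ q → ∀ κ : ℝ, 0 < κ → ∃ c τ : ℝ, 0 < c ∧ 0 < τ ∧ ∀ B : ℕ, ∃ X₀ : ℕ, ∀ X : ℕ, X₀ ≤ X →
      ∃ m : ℕ, (Real.log X) ^ B < m ∧ ∀ N : ℕ, X ≤ N → (N : ℝ) ≤ (X : ℝ) ^ (1 + τ) → κ * N ≤ N.totient → ¬ m ∣ N →
      ∀ a b : ℕ, a.Coprime q → b.Coprime q → a + b ≡ N [MOD q] → ∀ i j : ℕ, i < 2 → j < 2 →
      c * N ≤ ((creps q N a i j).card : ℝ)) ∧
    (∀ w : ℕ, ∀ κ : ℝ, 0 < κ → ∃ c τ : ℝ, 0 < c ∧ 0 < τ ∧ ∀ B : ℕ, ∃ X₀ : ℕ, ∀ X : ℕ, X₀ ≤ X →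
      ∃ m : ℕ, (Real.log X) ^ B < m ∧ ∀ N : ℕ, X ≤ N → (N : ℝ) ≤ (X : ℝ) ^ (1 + τ) → κ * N ≤ N.totient → ¬ m ∣ N →
      Even N → ∀ i j : ℕ, i < 2 → j < 2 → c * N ≤ ((rreps' w N i j).card : ℝ)) := by
  constructor
  · intro q hq κ hκ
    obtain ⟨c, τ, hc, hτ, h⟩ := main q hq κ hκ
    refine ⟨c, τ, hc, hτ, fun B => ?_⟩
    obtain ⟨X0, hX0⟩ := h B
    refine ⟨max X0 q, fun X hX => ?_⟩
    obtain ⟨m, hm, h⟩ := hX0 X ((le_max_left _ _).trans hX)
    refine ⟨m, hm, ?_⟩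
    intro N hXN hNX hκN hmN a b ha hb hab i j hi hj
    have hNq : q ≤ N := ((le_max_right _ _).trans hX).trans hXN
    have h1 : a % q ≡ a [MOD q] := Nat.mod_modEq _ _
    have h2 : a % q < q := Nat.mod_lt _ hq
    have h3 : (a % q).Coprime q := by
      rw [Nat.coprime_iff_gcd_eq_one, h1.gcd_eq]; exact ha
    have h4 : N - a % q ≡ b [MOD q] := by
      have h5 : N - a % q + a % q ≡ b + a % q [MOD q] := by
        rw [Nat.sub_add_cancel (by omega)]
        refine (hab.symm).trans ?_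
        rw [add_comm]
        exact (h1.symm).add_left b
      exact Nat.ModEq.add_right_cancel (Nat.ModEq.refl _) h5
    have h5 : (N - a % q).Coprime q := by
      rw [Nat.coprime_iff_gcd_eq_one, h4.gcd_eq]; exact hb
    have hcr : creps q N (a % q) i j = creps q N a i j := by
      unfold creps
      rw [Nat.mod_mod]
    have h6 := h N hXN hNX hκN hmN (a % q) (by omega) h3 h5 i j
    rw [← hcr]
    refine h6.trans ?_
    exact_mod_cast card_le_card (RP_sub_creps hi hj)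
  · intro w κ hκ
    obtain ⟨W, hW⟩ : ∃ W : ℕ, W = primorial (w + 2) := ⟨_, rfl⟩
    have hsq : Squarefree W := by rw [hW]; exact squarefree_primorial _
    have hW0 : 0 < W := by rw [hW]; exact primorial_pos _
    have hdvd : ∀ p : ℕ, p.Prime → p ≤ w + 2 → p ∣ W := fun p hp hpw => by
      rw [hW]
      exact (Nat.Prime.dvd_primorial_iff hp).mpr hpw
    have hW1 : 1 < W := by
      have := Nat.le_of_dvd hW0 (hdvd 2 Nat.prime_two (by omega))
      omega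
    obtain ⟨c, τ, hc, hτ, h⟩ := main W hW0 κ hκ
    refine ⟨c, τ, hc, hτ, fun B => ?_⟩
    obtain ⟨X0, hX0⟩ := h B
    refine ⟨max X0 W, fun X hX => ?_⟩
    obtain ⟨m, hm, h⟩ := hX0 X ((le_max_left _ _).trans hX)
    refine ⟨m, hm, ?_⟩
    intro N hXN hNX hκN hmN hev i j hi hj
    have hNW : W ≤ N := ((le_max_right _ _).trans hX).trans hXN
    obtain ⟨a, ha1, ha2, ha3⟩ := Pool.Agent.Lib.OW.exists_class hsq hNW hW1 hev
    refine (h N hXN hNX hκN hmN a (by omega) ha2 ha3 i j).trans ?_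
    have hsub : RP W N a i j ⊆ rreps' w N i j := by
      intro n hn
      unfold RP at hn
      unfold rreps'
      rw [mem_filter, mem_range] at hn
      rw [mem_filter, mem_Ioo]
      obtain ⟨h1, h2, h3, h4, h5, h6⟩ := hn
      refine ⟨⟨h2, h1⟩, h3, by rw [h5, Nat.mod_eq_of_lt hi], by rw [h6, Nat.mod_eq_of_lt hj], ?_⟩
      intro p hp
      by_contra hle
      have hpp := Nat.prime_of_mem_primeFactors hp
      have hpW := hdvd p hpp (by omega)
      have hmod : n ≡ a [MOD W] := h4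
      rcases (Nat.Prime.dvd_mul hpp).1 (Nat.dvd_of_mem_primeFactors hp) with h7 | h7
      · have h8 : n.Coprime W := by
          rw [Nat.coprime_iff_gcd_eq_one, hmod.gcd_eq]; exact ha2
        exact Nat.not_coprime_of_dvd_of_dvd hpp.one_lt h7 hpW h8
      · have h9 : N - n ≡ N - a [MOD W] := by
          have e1 : n + (N - n) ≡ a + (N - a) [MOD W] := by
            rw [Nat.add_sub_cancel' h1.le, Nat.add_sub_cancel' (by omega : a ≤ N)]
          exact Nat.ModEq.add_left_cancel hmod e1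
        have h8 : (N - n).Coprime W := by
          rw [Nat.coprime_iff_gcd_eq_one, h9.gcd_eq]; exact ha3
        exact Nat.not_coprime_of_dvd_of_dvd hpp.one_lt h7 hpW h8
    exact_mod_cast card_le_card hsub

end Pool.Agent.Lib.PP
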