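import Pool.Agent.Lib.MP_7b7e48_nt.OW.LEO

/-!
# Bounded links

For every `N` with `φ(N) ≥ κ N` most `u ∈ (k W N, A W N]` in a class modulo `W` have divisors `α ∣ u`, `β ∣ u - k W N`, `α, β ≤ K`,
`β < α < e^δ β`, `α = (1 + k W) β` modulo `k W^2`, with `K` independent of `N`. From theorem LFE with one of several disjoint windows of
primes: in one of them the primes which divide `N` are sparse.
-/

set_option autoImplicit false

open Finset Filter Topology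

namespace Pool.Agent.Lib.PP

open Pool.Agent.Lib.OW

/-- the sum of `1/p` over the prime factors of `N` -/
theorem sum_primeFactors_le {N : ℕ} (hN : 0 < N) {κ : ℝ} (hκ : 0 < κ) (h : κ * N ≤ N.totient) :
    ∑ p ∈ N.primeFactors, 1 / (p : ℝ) ≤ -Real.log κ := by
  have h1 : (N.totient : ℝ) = N * ∏ p ∈ N.primeFactors, (1 - 1 / (p : ℝ)) := by
    have h2 := Nat.totient_eq_mul_prod_factors N
    have h3 : ((N.totient : ℚ) : ℝ) = ((N * ∏ p ∈ N.primeFactors, (1 - (p : ℚ)⁻¹) : ℚ) : ℝ) := by rw [h2]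
    push_cast at h3
    rw [h3]
    simp only [one_div]
  have hN0 : (0 : ℝ) < N := by exact_mod_cast hN
  have h2 : κ ≤ ∏ p ∈ N.primeFactors, (1 - 1 / (p : ℝ)) := by
    rw [h1, mul_comm] at h
    exact le_of_mul_le_mul_left h hN0
  have h3 : ∏ p ∈ N.primeFactors, (1 - 1 / (p : ℝ)) ≤ Real.exp (-∑ p ∈ N.primeFactors, 1 / (p : ℝ)) := by
    rw [← sum_neg_distrib, Real.exp_sum]
    refine prod_le_prod (fun p hp => ?_) fun p _ => ?_
    · have h4 : (1 : ℝ) ≤ p := by exact_mod_cast (Nat.prime_of_mem_primeFactors hp).one_lt.le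
      rw [sub_nonneg, div_le_one (by linarith)]
      exact h4
    · have := Real.add_one_le_exp (-(1 / (p : ℝ)))
      linarith
  have h4 := Real.log_le_log hκ (h2.trans h3)
  rw [Real.log_exp] at h4
  linarith

/-- the windows -/
noncomputable def Kw (K₀ : ℝ) : ℕ → ℝ
  | 0 => K₀
  | i + 1 => Kw K₀ i ^ (16 : ℝ)

theorem Kw_ge {K₀ : ℝ} (h : 1 ≤ K₀) : ∀ i, K₀ ≤ Kw K₀ i
  | 0 => le_rfl
  | i + 1 => by
    have h1 := Kw_ge h i
    have h2 : 1 ≤ Kw K₀ i := h.trans h1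
    show K₀ ≤ Kw K₀ i ^ (16 : ℝ)
    calc K₀ ≤ Kw K₀ i := h1
      _ = Kw K₀ i ^ (1 : ℝ) := (Real.rpow_one _).symm
      _ ≤ _ := Real.rpow_le_rpow_of_exponent_le h2 (by norm_num)

theorem Kw_mono {K₀ : ℝ} (h : 1 ≤ K₀) {i j : ℕ} (hij : i < j) : Kw K₀ i ^ (16 : ℝ) ≤ Kw K₀ j := by
  induction j with
  | zero => omega
  | succ j ih =>
    rcases Nat.lt_succ_iff_lt_or_eq.mp hij with h1 | h1
    · have h2 := ih h1
      have h3 : 1 ≤ Kw K₀ j := h.trans (Kw_ge h j)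
      calc Kw K₀ i ^ (16 : ℝ) ≤ Kw K₀ j := h2
        _ = Kw K₀ j ^ (1 : ℝ) := (Real.rpow_one _).symm
        _ ≤ _ := Real.rpow_le_rpow_of_exponent_le h3 (by norm_num)
    · rw [h1]
      exact le_rfl

/-- one window contains few primes of `N` -/
theorem window {K₀ : ℝ} (h : 1 ≤ K₀) {C : ℝ} {I : ℕ} (hI : 4 * C < I) {N : ℕ} (hN : 0 < N)
    (hC : ∑ p ∈ N.primeFactors, 1 / (p : ℝ) ≤ C) :
    ∃ i < I, ∑ p ∈ (PR (Kw K₀ i) (Kw K₀ i ^ (16 : ℝ))).filter (fun p => p ∣ N), 1 / (p : ℝ) ≤ 1 / 4 := by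
  classical
  by_contra hcon
  push Not at hcon
  have hdis : ∀ i ∈ Finset.range I, ∀ j ∈ Finset.range I, i ≠ j →
      Disjoint ((PR (Kw K₀ i) (Kw K₀ i ^ (16 : ℝ))).filter fun p => p ∣ N)
        ((PR (Kw K₀ j) (Kw K₀ j ^ (16 : ℝ))).filter fun p => p ∣ N) := by
    have key : ∀ i j : ℕ, i < j → ∀ p, p ∈ PR (Kw K₀ i) (Kw K₀ i ^ (16 : ℝ)) →
        p ∈ PR (Kw K₀ j) (Kw K₀ j ^ (16 : ℝ)) → False := by
      intro i j hij p h1 h2
      have h3 := (mem_PR.mp h1).2.2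
      have h4 := (mem_PR.mp h2).2.1
      have h5 := Real.exp_le_exp.mpr (Kw_mono h hij)
      linarith
    intro i _ j _ hij
    rw [disjoint_left]
    intro p h1 h2
    rcases lt_or_gt_of_ne hij with h3 | h3
    · exact key i j h3 p (mem_filter.mp h1).1 (mem_filter.mp h2).1
    · exact key j i h3 p (mem_filter.mp h2).1 (mem_filter.mp h1).1
  have h1 : ∑ i ∈ Finset.range I, (1 / 4 : ℝ) ≤ ∑ i ∈ Finset.range I,
      ∑ p ∈ (PR (Kw K₀ i) (Kw K₀ i ^ (16 : ℝ))).filter (fun p => p ∣ N), 1 / (p : ℝ) :=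
    sum_le_sum fun i hi => (hcon i (mem_range.mp hi)).le
  rw [← sum_biUnion hdis] at h1
  have h2 : ∑ p ∈ (Finset.range I).biUnion (fun i => (PR (Kw K₀ i) (Kw K₀ i ^ (16 : ℝ))).filter fun p => p ∣ N),
      1 / (p : ℝ) ≤ ∑ p ∈ N.primeFactors, 1 / (p : ℝ) := by
    refine sum_le_sum_of_subset_of_nonneg ?_ fun p _ _ => by positivity
    intro p hp
    obtain ⟨i, -, hi⟩ := mem_biUnion.mp hp
    rw [mem_filter] at hi
    exact Nat.mem_primeFactors.mpr ⟨(mem_PR.mp hi.1).1, hi.2, by omega⟩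
  rw [sum_const, card_range, nsmul_eq_mul] at h1
  linarith

open Classical in
/-- **bounded links** -/
theorem LNKW (W A : ℕ) (κ η δ : ℝ) (hW : 1 ≤ W) (hκ : 0 < κ) (hη : 0 < η) (hδ : 0 < δ) :
    ∃ K N0 : ℕ, ∀ N : ℕ, N0 ≤ N → κ * N ≤ N.totient → ∀ a k : ℕ, 1 ≤ k → k < A →
    ((((Finset.Ioc (k * W * N) (A * W * N)).filter fun u => u % W = a % W ∧ ¬ ∃ α β : ℕ, α ∣ u ∧
      β ∣ (u - k * W * N) ∧ α.Coprime β ∧ α.Coprime (k * W) ∧ β.Coprime (k * W) ∧ α.Coprime N ∧ β.Coprime N ∧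
      0 < β ∧ β < α ∧ α ≤ K ∧
      (α : ℝ) < Real.exp δ * β ∧ (α : ZMod (k * W * W)) = (1 + k * W) * (β : ZMod (k * W * W))).card : ℕ) : ℝ) ≤
      η * N := by
  -- the parameters
  obtain ⟨δ', hδ'⟩ : ∃ δ' : ℝ, δ' = min (δ / 2) 1 := ⟨_, rfl⟩
  have hδ'0 : 0 < δ' := by rw [hδ']; positivity
  have hδ'1 : δ' ≤ 1 := by rw [hδ']; exact min_le_right _ _
  have hδ'2 : 2 * δ' ≤ δ := by
    have : δ' ≤ δ / 2 := by rw [hδ']; exact min_le_left _ _
    linarith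
  obtain ⟨K₁, hK₁1, hLFE⟩ := LFE (a := 1) (b := 16) (b' := 17) (d := 1) (θ := 17) (η := η / (A + 1)) (Bx := 0)
    (by norm_num) (by norm_num) (by norm_num) (by norm_num) (by norm_num) (by positivity) le_rfl
  obtain ⟨K₀, hK₀⟩ : ∃ K₀ : ℝ, K₀ = K₁ + (A * W * W + A * W + W + 1 : ℕ) / δ' + (A * W * W + A * W + W + 1 : ℕ) := ⟨_, rfl⟩
  have hq0 : (0 : ℝ) ≤ (A * W * W + A * W + W + 1 : ℕ) := Nat.cast_nonneg _
  have hqδ : (0 : ℝ) ≤ (A * W * W + A * W + W + 1 : ℕ) / δ' := div_nonneg hq0 hδ'0.le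
  have hK₀1 : 1 ≤ K₀ := by rw [hK₀]; linarith
  have hK₀K : K₁ ≤ K₀ := by rw [hK₀]; linarith
  have hK₀q : ((A * W * W + A * W + W + 1 : ℕ) : ℝ) / δ' ≤ K₀ := by rw [hK₀]; linarith
  have hK₀q' : ((A * W * W + A * W + W + 1 : ℕ) : ℝ) ≤ K₀ := by rw [hK₀]; linarith
  obtain ⟨I, hI⟩ : ∃ I : ℕ, 4 * (-Real.log κ) < I := exists_nat_gt _
  obtain ⟨M, hM⟩ : ∃ M : ℝ, M = ∑ i ∈ Finset.range I, Real.exp (Kw K₀ i ^ (17 : ℝ)) := ⟨_, rfl⟩
  have hMi : ∀ i < I, Real.exp (Kw K₀ i ^ (17 : ℝ)) ≤ M := by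
    intro i hi
    rw [hM]
    exact single_le_sum (f := fun i => Real.exp (Kw K₀ i ^ (17 : ℝ))) (fun _ _ => (Real.exp_pos _).le)
      (mem_range.mpr hi)
  have hM0 : 0 ≤ M := by
    rw [hM]
    exact sum_nonneg fun _ _ => (Real.exp_pos _).le
  refine ⟨⌊M⌋₊, ⌈M⌉₊ + 1, ?_⟩
  intro N hN hphi a k hk1 hkA
  have hN0 : 0 < N := by omega
  have hNr : (0 : ℝ) < N := by exact_mod_cast hN0
  have hNM : M ≤ N := (Nat.le_ceil M).trans (by exact_mod_cast (by omega : ⌈M⌉₊ ≤ N))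
  obtain ⟨i, hi, hwin⟩ := window hK₀1 hI hN0 (sum_primeFactors_le hN0 hκ hphi)
  obtain ⟨K, hK⟩ : ∃ K : ℝ, K = Kw K₀ i := ⟨_, rfl⟩
  have hKK₀ : K₀ ≤ K := by rw [hK]; exact Kw_ge hK₀1 i
  have hK1 : 1 ≤ K := hK₀1.trans hKK₀
  have hMK : Real.exp (K ^ (17 : ℝ)) ≤ M := by rw [hK]; exact hMi i hi
  rw [← hK] at hwin
  have hQpos : 1 ≤ k * W * W := Nat.mul_pos (Nat.mul_pos hk1 hW) hW
  haveI : NeZero (k * W * W) := ⟨by omega⟩
  have hkq : k * W * W ≤ A * W * W + A * W + W + 1 := by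
    have h1 : k * W * W ≤ A * W * W := Nat.mul_le_mul_right _ (Nat.mul_le_mul_right _ hkA.le)
    have h2 : 0 ≤ A * W := Nat.zero_le _
    linarith [Nat.zero_le (A * W)]
  have hkW : k * W ≤ A * W * W + A * W + W + 1 := by
    have h1 : k * W ≤ A * W := Nat.mul_le_mul_right _ hkA.le
    linarith [Nat.zero_le (A * W * W)]
  have hWq : W ≤ A * W * W + A * W + W + 1 := by
    linarith [Nat.zero_le (A * W * W), Nat.zero_le (A * W)]
  obtain ⟨Pr, hPr⟩ : ∃ Pr : Finset ℕ, Pr = (PR K (K ^ (16 : ℝ))).filter fun p => ¬ p ∣ N := ⟨_, rfl⟩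
  have hPrsub : Pr ⊆ PR (K ^ (1 : ℝ)) (K ^ (16 : ℝ)) := by
    rw [Real.rpow_one, hPr]
    exact filter_subset _ _
  have hexc : ∑ p ∈ PR (K ^ (1 : ℝ)) (K ^ (16 : ℝ)) \ Pr, 1 / (p : ℝ) ≤ 1 / 4 := by
    refine le_trans (le_of_eq ?_) hwin
    refine sum_congr ?_ fun _ _ => rfl
    rw [Real.rpow_one, hPr]
    ext p
    rw [Finset.mem_sdiff, mem_filter, mem_filter]
    tauto
  have hbig : ∀ p ∈ Pr, p.Prime ∧ ¬ p ∣ N ∧ ¬ p ∣ k * W := by
    intro p hp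
    rw [hPr, mem_filter] at hp
    obtain ⟨h1, h2⟩ := hp
    obtain ⟨h3, h4, -⟩ := mem_PR.mp h1
    refine ⟨h3, h2, fun h5 => ?_⟩
    have h6 : p ≤ k * W := Nat.le_of_dvd (Nat.mul_pos hk1 hW) h5
    have h7 : (p : ℝ) ≤ K := by
      calc (p : ℝ) ≤ (A * W * W + A * W + W + 1 : ℕ) := by exact_mod_cast h6.trans hkW
        _ ≤ K₀ := hK₀q'
        _ ≤ K := hKK₀
    have h8 := Real.add_one_le_exp K
    linarith
  have hunit : (1 + k * W).Coprime (k * W * W) := by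
    have h1 : (1 + k * W).Coprime (k * W) := by
      rw [Nat.coprime_add_self_left]
      exact Nat.coprime_one_left _
    exact Nat.Coprime.mul_right h1 (Nat.Coprime.coprime_mul_left_right h1)
  obtain ⟨ρ, hρ⟩ : ∃ ρ : (ZMod (k * W * W))ˣ, ρ = ZMod.unitOfCoprime (1 + k * W) hunit := ⟨_, rfl⟩
  have hρ' : ((ρ : (ZMod (k * W * W))ˣ) : ZMod (k * W * W)) = 1 + k * W := by
    rw [hρ, ZMod.coe_unitOfCoprime]
    push_cast
    ring
  obtain ⟨G, hG⟩ : ∃ G : Bool → ℕ → ℕ, G = fun e n => if e then n - k * W * N else n := ⟨_, rfl⟩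
  have hGf : ∀ n, G false n = n := by intro n; rw [hG]; simp
  have hGt : ∀ n, G true n = n - k * W * N := by intro n; rw [hG]; simp
  obtain ⟨Bc, hBc⟩ : ∃ Bc : Bool → ℤ, Bc = fun e => if e then ((k * W * N : ℕ) : ℤ) else 0 := ⟨_, rfl⟩
  have hBf : Bc false = 0 := by rw [hBc]; simp
  have hBt : Bc true = ((k * W * N : ℕ) : ℤ) := by rw [hBc]; simp
  have huv : k * W * N ≤ A * W * N := Nat.mul_le_mul_right _ (Nat.mul_le_mul_right _ hkA.le)
  have hlen : (N : ℝ) ≤ ((A * W * N : ℕ) : ℝ) - ((k * W * N : ℕ) : ℝ) := by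
    have h1 : k * W * N + N ≤ A * W * N := by
      have h2 : (k + 1) * W * N ≤ A * W * N := Nat.mul_le_mul_right _ (Nat.mul_le_mul_right _ hkA)
      have h3 : (k + 1) * W * N = k * W * N + W * N := by ring
      have h4 : 1 * N ≤ W * N := Nat.mul_le_mul_right _ hW
      omega
    have h2 : ((k * W * N + N : ℕ) : ℝ) ≤ ((A * W * N : ℕ) : ℝ) := by exact_mod_cast h1
    push_cast at h2 ⊢
    linarith
  have hmain := hLFE K (hK₀K.trans hKK₀) (k * W * W) W δ' hQpos hδ'0 hδ'1 (by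
      rw [Real.rpow_one]
      calc ((k * W * W : ℕ) : ℝ) / δ' ≤ ((A * W * W + A * W + W + 1 : ℕ) : ℝ) / δ' :=
            div_le_div_of_nonneg_right (by exact_mod_cast hkq) hδ'0.le
        _ ≤ K₀ := hK₀q
        _ ≤ K := hKK₀) hW (by
      calc (W : ℝ) ≤ (A * W * W + A * W + W + 1 : ℕ) := by exact_mod_cast hWq
        _ ≤ K₀ := hK₀q'
        _ ≤ K := hKK₀) Pr hPrsub hexc ∅ (fun _ => 0) (fun p hp => absurd hp (notMem_empty p)) ρ
    (fun _ => 1) Bc (fun e p hp h => by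
      have h1 := (hbig p hp).1
      have h2 : (p : ℤ) ∣ (1 : ℕ) := by exact_mod_cast h
      rw [Int.natCast_dvd_natCast] at h2
      exact h1.one_lt.ne' (Nat.dvd_one.mp h2)) (fun p hp h => by
      rw [hBf, hBt] at h
      have h1 : (p : ℤ) ∣ ((k * W * N : ℕ) : ℤ) := by
        have : (1 : ℤ) * ((k * W * N : ℕ) : ℤ) - 1 * 0 = ((k * W * N : ℕ) : ℤ) := by ring
        rw [this] at h
        exact h
      rw [Int.natCast_dvd_natCast] at h1
      obtain ⟨h2, h3, h4⟩ := hbig p hp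
      rcases h2.dvd_mul.mp h1 with h5 | h5
      · exact h4 h5
      · exact h3 h5) (k * W * N) (A * W * N) huv (hMK.trans (hNM.trans hlen)) G (fun e n hn => by
      rw [mem_Ioc] at hn
      cases e
      · rw [hGf, hBf]
        ring
      · rw [hGt, hBt, Nat.cast_sub hn.1.le]
        ring) a
  rw [prod_empty, mul_one] at hmain
  have hcard : ((((Finset.Ioc (k * W * N) (A * W * N)).filter fun u => u % W = a % W ∧ ¬ ∃ α β : ℕ, α ∣ u ∧
      β ∣ (u - k * W * N) ∧ α.Coprime β ∧ α.Coprime (k * W) ∧ β.Coprime (k * W) ∧ α.Coprime N ∧ β.Coprime N ∧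
      0 < β ∧ β < α ∧ α ≤ ⌊M⌋₊ ∧
      (α : ℝ) < Real.exp δ * β ∧ (α : ZMod (k * W * W)) = (1 + k * W) * (β : ZMod (k * W * W))).card : ℕ) : ℝ) ≤
      ((((Finset.Ioc (k * W * N) (A * W * N)).filter fun n => n ≡ a [MOD W] ∧ (∀ p ∈ (∅ : Finset ℕ), n % p ≠ 0) ∧
        ¬ TLnk (k * W * W) δ' ρ Pr (Real.exp (K ^ (17 : ℝ))) (G false n) (G true n)).card : ℕ) : ℝ) := by
    refine Nat.cast_le.mpr (card_le_card ?_)
    intro u hu
    rw [mem_filter] at hu ⊢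
    obtain ⟨h1, h2, h3⟩ := hu
    refine ⟨h1, h2, fun p hp => absurd hp (notMem_empty p), fun hT => h3 ?_⟩
    obtain ⟨α, β, q1, q2, q3, q4, q5, q6, q7, q8, q9, q10, q11⟩ := hT
    rw [hGf] at q1
    rw [hGt] at q2
    have hcop : ∀ m : ℕ, (∀ p ∈ Pr, ¬ p ∣ m) → ∀ g : ℕ, g ∣ α * β → g.Coprime m := by
      intro m hm g hg
      rw [Nat.coprime_iff_gcd_eq_one]
      by_contra hne
      obtain ⟨p, hp, hpd⟩ := Nat.exists_prime_and_dvd hne
      have h4 := q6 p hp (hpd.trans ((Nat.gcd_dvd_left g m).trans hg))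
      exact hm p h4 (hpd.trans (Nat.gcd_dvd_right g m))
    have hkWc : ∀ p ∈ Pr, ¬ p ∣ k * W := fun p hp => (hbig p hp).2.2
    have hNc : ∀ p ∈ Pr, ¬ p ∣ N := fun p hp => (hbig p hp).2.1
    refine ⟨α, β, q1, q2, q3, hcop _ hkWc α (dvd_mul_right _ _), hcop _ hkWc β (dvd_mul_left _ _),
      hcop _ hNc α (dvd_mul_right _ _), hcop _ hNc β (dvd_mul_left _ _), q7, q8, ?_, ?_, ?_⟩
    · exact Nat.le_floor (q11.trans hMK)
    · refine q9.trans_le ?_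
      refine mul_le_mul_of_nonneg_right ?_ (Nat.cast_nonneg β)
      exact Real.exp_le_exp.mpr hδ'2
    · rw [q10, hρ']
  refine hcard.trans (hmain.trans ?_)
  have hA0 : (0 : ℝ) < (A : ℝ) + 1 := by positivity
  have hW0 : (0 : ℝ) < W := by exact_mod_cast hW
  have h1 : (((A * W * N : ℕ) : ℝ) - ((k * W * N : ℕ) : ℝ)) / W ≤ (A + 1) * N := by
    rw [div_le_iff₀ hW0]
    push_cast
    have h2 : (0 : ℝ) ≤ (k : ℝ) * W * N := by positivity
    have h3 : (0 : ℝ) ≤ (W : ℝ) * N := by positivity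
    nlinarith
  calc η / (A + 1) * ((((A * W * N : ℕ) : ℝ) - ((k * W * N : ℕ) : ℝ)) / W) ≤ η / (A + 1) * ((A + 1) * N) :=
        mul_le_mul_of_nonneg_left h1 (by positivity)
    _ = η * N := by field_simp

end Pool.Agent.Lib.PP
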