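import Pool.Agent.Lib.MP_7b7e48_nt.PP.Defs

/-!
# PP part IV: periods of a character

PROOF.
(lift_cop) ZMod.unitsMap_surjective (or Nat.exists... ). (per_gcd) n = n' mod gcd(d1,d2), both coprime to q. Choose m = n mod d1, m = n' mod d2 (compatible, CRT for
non coprime moduli: Nat.chineseRemainder' or: Mathlib DirichletCharacter.FactorsThrough ... gcd (Basic.lean line 175) after factorsThrough_iff_ker_unitsMap),
lifted to a number coprime to q (m is coprime to lcm(d1,d2), lift_cop). chi n = chi m = chi n'. It may be easier to show Per chi d <-> chi.FactorsThrough d and use the Mathlib lemma.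
(per_rel) q = W (N1 N2), chi1' = changeLevel chi1: Per chi1' (W N1), Per chi1' (W N2) by h (psi n, chi2 n depend only on n mod W N2), per_gcd: Per chi1' (W gcd(N1,N2))
(Nat.gcd_mul_left). For n, n' coprime to W N1, n = n' mod W gcd: lift both modulo W N1 to numbers coprime to q.
(per_fam) induction on S with per_gcd on level W N1; S empty: gcd(N1, 0) = N1.
-/

open Finset

namespace Pool.Agent.Lib.PP

/-- lifting of residues to numbers coprime to a larger modulus -/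
theorem lift_cop {d q : ℕ} (hd : d ∣ q) (hq : 0 < q) {n : ℕ} (hn : n.Coprime d) :
    ∃ n' : ℕ, n'.Coprime q ∧ n' ≡ n [MOD d] := by
  haveI : NeZero q := ⟨hq.ne'⟩
  obtain ⟨v, hv⟩ := ZMod.unitsMap_surjective hd (ZMod.unitOfCoprime n hn)
  refine ⟨(v : ZMod q).val, ZMod.val_coe_unit_coprime v, ?_⟩
  rw [← ZMod.natCast_eq_natCast_iff]
  have h1 := congrArg (fun u : (ZMod d)ˣ => (u : ZMod d)) hv
  simp only [ZMod.unitsMap_val, ZMod.coe_unitOfCoprime] at h1
  rw [ZMod.natCast_val]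
  exact h1

private theorem perg_mid {q d1 d2 : ℕ} (hq : 0 < q) (h1 : d1 ∣ q) (h2 : d2 ∣ q) {n n' : ℕ}
    (hn : n.Coprime d1) (hn' : n'.Coprime d2) (h : n ≡ n' [MOD d1.gcd d2]) :
    ∃ l : ℕ, l.Coprime q ∧ l ≡ n [MOD d1] ∧ l ≡ n' [MOD d2] := by
  obtain ⟨k, hk1, hk2⟩ := Nat.chineseRemainder' h
  have c1 : k.Coprime d1 := by
    rw [Nat.coprime_iff_gcd_eq_one, hk1.gcd_eq, ← Nat.coprime_iff_gcd_eq_one]
    exact hn
  have c2 : k.Coprime d2 := by
    rw [Nat.coprime_iff_gcd_eq_one, hk2.gcd_eq, ← Nat.coprime_iff_gcd_eq_one]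
    exact hn'
  have c3 : k.Coprime (d1.lcm d2) :=
    Nat.Coprime.coprime_dvd_right (Nat.lcm_dvd_mul d1 d2) (Nat.Coprime.mul_right c1 c2)
  obtain ⟨l, hl1, hl2⟩ := lift_cop (Nat.lcm_dvd h1 h2) hq c3
  exact ⟨l, hl1, (hl2.of_dvd (Nat.dvd_lcm_left d1 d2)).trans hk1,
    (hl2.of_dvd (Nat.dvd_lcm_right d1 d2)).trans hk2⟩

theorem per_gcd {q : ℕ} (hq : 0 < q) (χ : DirichletCharacter ℂ q) {d1 d2 : ℕ} (h1 : d1 ∣ q) (h2 : d2 ∣ q)
    (H1 : Per χ d1) (H2 : Per χ d2) : Per χ (d1.gcd d2) := by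
  intro n n' hn hn' h
  obtain ⟨l, hl, hl1, hl2⟩ := perg_mid hq h1 h2 (Nat.Coprime.coprime_dvd_right h1 hn)
    (Nat.Coprime.coprime_dvd_right h2 hn') h
  exact (H1 n l hn hl hl1.symm).trans (H2 l n' hl hn' hl2)

private theorem perg_cast {q : ℕ} (χ : DirichletCharacter ℂ q) {n n' : ℕ} (h : n ≡ n' [MOD q]) :
    χ (n : ZMod q) = χ (n' : ZMod q) := by
  rw [(ZMod.natCast_eq_natCast_iff _ _ _).2 h]

/-- a relation as in `rel2` gives a smaller period -/
theorem per_rel {W N1 N2 : ℕ} (hW : 1 ≤ W) (hN1 : 1 ≤ N1) (hN2 : 1 ≤ N2) (χ1 : DirichletCharacter ℂ (W * N1))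
    (χ2 : DirichletCharacter ℂ (W * N2)) (ψ : DirichletCharacter ℂ W)
    (h : ∀ n : ℕ, n.Coprime (W * (N1 * N2)) →
      χ1 (n : ZMod (W * N1)) = ψ (n : ZMod W) * χ2 (n : ZMod (W * N2))) :
    Per χ1 (W * N1.gcd N2) := by
  intro n n' hn hn' hnn
  have hq : 0 < W * (N1 * N2) := by positivity
  have d1 : W * N1 ∣ W * (N1 * N2) := mul_dvd_mul_left W (dvd_mul_right N1 N2)
  have d2 : W * N2 ∣ W * (N1 * N2) := mul_dvd_mul_left W (dvd_mul_left N2 N1)
  obtain ⟨m, hm, hmn⟩ := lift_cop d1 hq hn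
  obtain ⟨m', hm', hmn'⟩ := lift_cop d1 hq hn'
  have hg : W * N1.gcd N2 = (W * N1).gcd (W * N2) := (Nat.gcd_mul_left W N1 N2).symm
  have e1 : m ≡ m' [MOD (W * N1).gcd (W * N2)] := by
    have f1 := hmn.of_dvd (Nat.gcd_dvd_left (W * N1) (W * N2))
    have f2 := hmn'.of_dvd (Nat.gcd_dvd_left (W * N1) (W * N2))
    rw [hg] at hnn
    exact f1.trans (hnn.trans f2.symm)
  obtain ⟨l, hl, hl1, hl2⟩ := perg_mid hq d1 d2 (Nat.Coprime.coprime_dvd_right d1 hm)
    (Nat.Coprime.coprime_dvd_right d2 hm') e1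
  rw [← perg_cast χ1 hmn, ← perg_cast χ1 hmn', ← perg_cast χ1 hl1, h l hl, h m' hm',
    perg_cast χ2 hl2, perg_cast ψ (hl2.of_dvd (dvd_mul_right W N2))]

/-- the period from a family of numbers -/
theorem per_fam {W N1 : ℕ} (hW : 1 ≤ W) (hN1 : 1 ≤ N1) (χ1 : DirichletCharacter ℂ (W * N1)) (S : Finset ℕ)
    (h : ∀ N ∈ S, Per χ1 (W * N1.gcd N)) : Per χ1 (W * N1.gcd (S.gcd id)) := by
  classical
  induction S using Finset.induction_on with
  | empty =>
    rw [Finset.gcd_empty, Nat.gcd_zero_right]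
    intro n n' _ _ hnn
    exact perg_cast χ1 hnn
  | insert a S _ ih =>
    have h1 := ih fun N hN => h N (mem_insert_of_mem hN)
    have h2 := h a (mem_insert_self a S)
    have hq : 0 < W * N1 := by positivity
    have h3 := per_gcd hq χ1 (mul_dvd_mul_left W (Nat.gcd_dvd_left N1 a))
      (mul_dvd_mul_left W (Nat.gcd_dvd_left N1 (S.gcd id))) h2 h1
    rw [Nat.gcd_mul_left] at h3
    have h4 : (N1.gcd a).gcd (N1.gcd (S.gcd id)) = N1.gcd ((insert a S).gcd id) := by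
      rw [Finset.gcd_insert, gcd_eq_nat_gcd]
      apply Nat.dvd_antisymm
      · refine Nat.dvd_gcd ?_ (Nat.dvd_gcd ?_ ?_)
        · exact (Nat.gcd_dvd_left _ _).trans (Nat.gcd_dvd_left _ _)
        · exact (Nat.gcd_dvd_left _ _).trans (Nat.gcd_dvd_right _ _)
        · exact (Nat.gcd_dvd_right _ _).trans (Nat.gcd_dvd_right _ _)
      · refine Nat.dvd_gcd (Nat.dvd_gcd ?_ ?_) (Nat.dvd_gcd ?_ ?_)
        · exact Nat.gcd_dvd_left _ _
        · exact (Nat.gcd_dvd_right _ _).trans (Nat.gcd_dvd_left _ _)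
        · exact Nat.gcd_dvd_left _ _
        · exact (Nat.gcd_dvd_right _ _).trans (Nat.gcd_dvd_right _ _)
    rw [← h4]
    exact h3

end Pool.Agent.Lib.PP
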