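import Mathlib
import Pool.Agent.Lib.MP_7b7e48_nt.OW.S1
import Pool.Agent.Lib.MP_7b7e48_nt.OW.SPRd
import Pool.Agent.Lib.MP_7b7e48_nt.PP.Defs

/-!
# PP part IV: the two point inequality of one approximated number on a higher level

PROOF.
(class_low) b coprime to W. N' = product of the primes p | N, p not | W; n = b mod W is coprime to W N iff coprime to N'. Legendre sieve:
sum_{d | N'} mu(d) #{n <= y : d | n, n = b (W)} >= (y/W) prod_{p | N'} (1-1/p) - tau(N) >= (y/W) phi(N)/N - tau(N) >= kappa y/W - tau(N),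
tau(N) <= C N^(k/2) (RG.PB_le) <= kappa/(2W) N^k for N large.
(one_apx) z = floor(M^c), B = floor(M^(1/2-k)) <= N^(1-k). EE(A) := sum over n in [1, (N-1)/A], A n = a mod W, (n, W N) = 1 of
|gg (A n) - const|^2, e(A) := (16 W/kappa) A EE(A)/N. For A <= A' in RN, A = A' mod W (both coprime to W N because N | M): for the n <= (N-1)/A' with
n = a A^(-1) mod W, (n, W N) = 1: gg(A n) = gg A gg n, |gg n| = 1, so |gg A - gg A'|^2 <= 2|gg(A n) - c|^2 + 2|gg(A' n) - c|^2 (A' n = a mod W too);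
number of these n >= kappa/(2W) (N-1)/A' >= kappa N/(4 W A').
Mass: sum_A e(A)/A = (16W/(kappa N)) sum_A EE(A) <= (16 W/(kappa N)) R sum_{m in CL} |gg m - c|^2 because m = A n in CL and the number of z-rough divisors
of m <= M is <= R (OWS.rough_div). C = 16 W R/kappa.
-/

open Finset
open Pool.Agent.Lib.RG (Rough RN)
open Pool.Agent.Lib.OWS

namespace Pool.Agent.Lib.PP

open Pool.Agent.Lib.OW (del dd S1_ind S1_del)

private theorem One_del_eq {m n : ℕ} (hm : m ≠ 0) (hn : n ≠ 0) (h : m.primeFactors = n.primeFactors) :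
    del m = del n := by
  have key : ∀ k : ℕ, k ≠ 0 → del k = ∏ p ∈ k.primeFactors, (1 - (p : ℝ)⁻¹) := by
    intro k hk
    have h1 := congrArg (fun x : ℚ => (x : ℝ)) (Nat.totient_eq_mul_prod_factors k)
    push_cast at h1
    unfold del
    rw [h1]
    have hk' : (k : ℝ) ≠ 0 := by exact_mod_cast hk
    rw [mul_div_cancel_left₀ _ hk']
  rw [key m hm, key n hn, h]

/-- the part of the radical of `N` coprime to `W` -/
private theorem One_density {N W : ℕ} (hN : N ≠ 0) (hW : W ≠ 0) : ∃ N' : ℕ, N' ≠ 0 ∧ N'.Coprime W ∧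
    N' ∣ N ∧ (∀ e : ℕ, e.Coprime W → (e.Coprime N ↔ e.Coprime N')) ∧ dd N W = del N' / W := by
  classical
  set S := N.primeFactors.filter fun p => ¬ p ∣ W with hS
  have hSp : ∀ p ∈ S, p.Prime := fun p hp => Nat.prime_of_mem_primeFactors (mem_of_mem_filter p hp)
  set N' := ∏ p ∈ S, p with hN'
  have hN'0 : N' ≠ 0 := prod_ne_zero_iff.2 fun p hp => (hSp p hp).ne_zero
  have hpf : N'.primeFactors = S := Nat.primeFactors_prod hSp
  have hco : N'.Coprime W := by
    rw [hN', Nat.coprime_prod_left_iff]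
    intro p hp
    rw [Nat.Prime.coprime_iff_not_dvd (hSp p hp)]
    exact (mem_filter.1 hp).2
  have hdvd : N' ∣ N := by
    refine dvd_trans ?_ (Nat.prod_primeFactors_dvd N)
    exact prod_dvd_prod_of_subset _ _ _ (filter_subset _ _)
  refine ⟨N', hN'0, hco, hdvd, ?_, ?_⟩
  · intro e he
    constructor
    · intro h
      exact Nat.Coprime.coprime_dvd_right hdvd h
    · intro h
      by_contra hc
      obtain ⟨p, hp, h1, h2⟩ := Nat.Prime.not_coprime_iff_dvd.1 hc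
      by_cases hpW : p ∣ W
      · exact Nat.Prime.not_coprime_iff_dvd.2 ⟨p, hp, h1, hpW⟩ he
      · have hpS : p ∈ S := by
          rw [hS, mem_filter]
          exact ⟨Nat.mem_primeFactors.2 ⟨hp, h2, hN⟩, hpW⟩
        exact Nat.Prime.not_coprime_iff_dvd.2 ⟨p, hp, h1, dvd_prod_of_mem _ hpS⟩ h
  · have e1 : del (W * N) = del (W * N') := by
      refine One_del_eq (mul_ne_zero hW hN) (mul_ne_zero hW hN'0) ?_
      rw [Nat.primeFactors_mul hW hN, Nat.primeFactors_mul hW hN'0, hpf, hS]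
      ext p
      rw [mem_union, mem_union, mem_filter]
      constructor
      · rintro (h | h)
        · exact Or.inl h
        · by_cases hpW : p ∣ W
          · exact Or.inl (Nat.mem_primeFactors.2 ⟨Nat.prime_of_mem_primeFactors h, hpW, hW⟩)
          · exact Or.inr ⟨h, hpW⟩
      · rintro (h | h)
        · exact Or.inl h
        · exact Or.inr h.1
    unfold dd
    rw [e1]
    unfold del
    rw [Nat.totient_mul hco.symm]
    have h1 : (W.totient : ℝ) ≠ 0 := by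
      have : 0 < W.totient := Nat.totient_pos.2 (Nat.pos_of_ne_zero hW)
      exact_mod_cast this.ne'
    have h2 : (W : ℝ) ≠ 0 := by exact_mod_cast hW
    have h3 : (N' : ℝ) ≠ 0 := by exact_mod_cast hN'0
    push_cast
    field_simp

private theorem One_ap (r u v : ℕ) (hr : 0 < r) :
    |(((Finset.Icc 1 u).filter fun x => x ≡ v [MOD r]).card : ℝ) - (u : ℝ) / r| ≤ 1 := by
  have h := Nat.Ioc_filter_modEq_card 0 u hr v
  have e : Finset.Icc 1 u = Finset.Ioc 0 u := by ext x; simp [Finset.mem_Icc, Finset.mem_Ioc]; omega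
  rw [e]
  have hr' : (0 : ℚ) < r := by exact_mod_cast hr
  set x : ℚ := ((u : ℚ) - v) / r with hx
  set y : ℚ := (((0 : ℕ) : ℚ) - v) / r with hy
  have hxy : x - y = (u : ℚ) / r := by
    rw [hx, hy]; push_cast; ring
  have hxy0 : 0 ≤ x - y := by rw [hxy]; positivity
  have hfl : ⌊y⌋ ≤ ⌊x⌋ := Int.floor_le_floor (by linarith)
  rw [max_eq_left (by linarith)] at h
  have h1 := Int.floor_le x
  have h2 := Int.lt_floor_add_one x
  have h3 := Int.floor_le y
  have h4 := Int.lt_floor_add_one y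
  have h5 : |((⌊x⌋ - ⌊y⌋ : ℤ) : ℚ) - (u : ℚ) / r| ≤ 1 := by
    rw [← hxy, abs_le]
    push_cast
    constructor <;> linarith
  rw [← h] at h5
  have h6 : ((|(((((Finset.Ioc 0 u).filter fun x => x ≡ v [MOD r]).card : ℤ)) : ℚ) - (u : ℚ) / r| : ℚ) : ℝ) ≤
      ((1 : ℚ) : ℝ) := by exact_mod_cast h5
  push_cast at h6
  exact h6

open Classical in
private theorem One_cnt {N W : ℕ} (hN : N ≠ 0) (hW : W ≠ 0) {b : ℕ} (hb : b.Coprime W) (u : ℕ) :
    |(((Finset.Icc 1 u).filter fun e => e ≡ b [MOD W] ∧ e.Coprime N).card : ℝ) - dd N W * u| ≤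
      (N.divisors.card : ℝ) := by
  obtain ⟨N', hN'0, hco, hdvd, hiff, hdd⟩ := One_density hN hW
  have hWr : (W : ℝ) ≠ 0 := by exact_mod_cast hW
  have e1 : (((Finset.Icc 1 u).filter fun e => e ≡ b [MOD W] ∧ e.Coprime N).card : ℝ) =
      ∑ g ∈ N'.divisors, ((ArithmeticFunction.moebius g : ℤ) : ℝ) *
        (((Finset.Icc 1 u).filter fun e => e ≡ b [MOD W] ∧ g ∣ e).card : ℝ) := by
    have h1 : (((Finset.Icc 1 u).filter fun e => e ≡ b [MOD W] ∧ e.Coprime N).card : ℝ) =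
        ∑ e ∈ (Finset.Icc 1 u).filter (fun e => e ≡ b [MOD W]), if e.Coprime N' then (1 : ℝ) else 0 := by
      rw [← sum_filter, sum_const, nsmul_eq_mul, mul_one, filter_filter]
      congr 2
      refine filter_congr fun e _ => ?_
      constructor
      · rintro ⟨h2, h3⟩
        have hc : e.Coprime W := by
          rw [Nat.Coprime, h2.gcd_eq]; exact hb
        exact ⟨h2, (hiff e hc).1 h3⟩
      · rintro ⟨h2, h3⟩
        have hc : e.Coprime W := by
          rw [Nat.Coprime, h2.gcd_eq]; exact hb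
        exact ⟨h2, (hiff e hc).2 h3⟩
    rw [h1, sum_congr rfl (fun e _ => S1_ind hN'0 e), sum_comm]
    refine sum_congr rfl fun g _ => ?_
    rw [← sum_filter, sum_const, nsmul_eq_mul, mul_comm, filter_filter]
  have e2 : dd N W * u = ∑ g ∈ N'.divisors, ((ArithmeticFunction.moebius g : ℤ) : ℝ) *
      ((u : ℝ) / (W * g : ℕ)) := by
    rw [hdd, S1_del hN'0, sum_div, sum_mul]
    refine sum_congr rfl fun g hg => ?_
    have hg0 : (g : ℝ) ≠ 0 := by
      have := Nat.pos_of_mem_divisors hg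
      exact_mod_cast this.ne'
    push_cast
    field_simp
  rw [e1, e2, ← sum_sub_distrib]
  refine (abs_sum_le_sum_abs _ _).trans ?_
  have h3 : ∀ g ∈ N'.divisors, |((ArithmeticFunction.moebius g : ℤ) : ℝ) *
        (((Finset.Icc 1 u).filter fun e => e ≡ b [MOD W] ∧ g ∣ e).card : ℝ) -
        ((ArithmeticFunction.moebius g : ℤ) : ℝ) * ((u : ℝ) / (W * g : ℕ))| ≤ 1 := by
    intro g hg
    have hg0 := Nat.pos_of_mem_divisors hg
    have hgW : W.Coprime g := (Nat.Coprime.coprime_dvd_left (Nat.dvd_of_mem_divisors hg) hco).symm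
    have hmu : |((ArithmeticFunction.moebius g : ℤ) : ℝ)| ≤ 1 := by
      have h := ArithmeticFunction.abs_moebius_le_one (n := g)
      exact_mod_cast h
    have e3 : ((Finset.Icc 1 u).filter fun e => e ≡ b [MOD W] ∧ g ∣ e) =
        (Finset.Icc 1 u).filter fun e => e ≡ (Nat.chineseRemainder hgW b 0 : ℕ) [MOD W * g] := by
      refine filter_congr fun e _ => ?_
      have hr := (Nat.chineseRemainder hgW b 0).2
      rw [← Nat.modEq_and_modEq_iff_modEq_mul hgW]
      constructor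
      · rintro ⟨h4, h5⟩
        exact ⟨h4.trans hr.1.symm, ((Nat.modEq_zero_iff_dvd.2 h5).trans hr.2.symm)⟩
      · rintro ⟨h4, h5⟩
        exact ⟨h4.trans hr.1, Nat.modEq_zero_iff_dvd.1 (h5.trans hr.2)⟩
    rw [← mul_sub, abs_mul, e3]
    have h6 := One_ap (W * g) u (Nat.chineseRemainder hgW b 0 : ℕ)
      (Nat.mul_pos (Nat.pos_of_ne_zero hW) hg0)
    calc |((ArithmeticFunction.moebius g : ℤ) : ℝ)| * _ ≤ 1 * 1 :=
          mul_le_mul hmu h6 (abs_nonneg _) zero_le_one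
      _ = 1 := one_mul 1
  refine (sum_le_sum h3).trans ?_
  rw [sum_const, nsmul_eq_mul, mul_one]
  exact_mod_cast card_le_card (Nat.divisors_subset_of_dvd hN hdvd)

/-- the members of the class which are coprime to `W N` and lie below `y` -/
theorem class_low (W : ℕ) (hW : 1 ≤ W) (κ k : ℝ) (hκ : 0 < κ) (hk : 0 < k) : ∃ N0 : ℕ, ∀ N : ℕ, N0 ≤ N →
    κ * N ≤ N.totient → ∀ b y : ℕ, b.Coprime W → (N : ℝ) ^ k ≤ y →
    κ / (2 * W) * y ≤ ((Finset.Icc 1 y).filter (fun n => n % W = b % W ∧ n.Coprime (W * N))).card := by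
  have hW0 : (0 : ℝ) < W := by exact_mod_cast hW
  obtain ⟨C, hC, hPB⟩ := Pool.Agent.Lib.RG.PB_le (k / 2) (by positivity)
  have h1 : Filter.Tendsto (fun N : ℕ => (N : ℝ) ^ (k / 2)) Filter.atTop Filter.atTop :=
    (tendsto_rpow_atTop (by positivity)).comp tendsto_natCast_atTop_atTop
  obtain ⟨N1, hN1⟩ := (h1.eventually_ge_atTop (C * (2 * W) / κ)).exists_forall_of_atTop
  refine ⟨max N1 2, ?_⟩
  intro N hN htot b y hb hy
  have n1 : N1 ≤ N := (le_max_left _ _).trans hN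
  have n2 : 2 ≤ N := (le_max_right _ _).trans hN
  have hNR : (0 : ℝ) < N := by exact_mod_cast (by omega : 0 < N)
  have hτ : (N.divisors.card : ℝ) ≤ κ / (2 * W) * y := by
    have h2 := (hPB N n2).2
    have h3 := hN1 N n1
    have h4 : (N : ℝ) ^ k = (N : ℝ) ^ (k / 2) * (N : ℝ) ^ (k / 2) := by
      rw [← Real.rpow_add hNR]
      congr 1
      ring
    have h5 : (0 : ℝ) < (N : ℝ) ^ (k / 2) := by positivity
    have h6 : C ≤ κ / (2 * W) * (N : ℝ) ^ (k / 2) := by
      calc C = κ / (2 * W) * (C * (2 * W) / κ) := by field_simp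
        _ ≤ κ / (2 * W) * (N : ℝ) ^ (k / 2) := mul_le_mul_of_nonneg_left h3 (by positivity)
    calc (N.divisors.card : ℝ) ≤ C * (N : ℝ) ^ (k / 2) := h2
      _ ≤ κ / (2 * W) * (N : ℝ) ^ (k / 2) * (N : ℝ) ^ (k / 2) := mul_le_mul_of_nonneg_right h6 h5.le
      _ = κ / (2 * W) * (N : ℝ) ^ k := by rw [h4, mul_assoc]
      _ ≤ κ / (2 * W) * y := mul_le_mul_of_nonneg_left hy (by positivity)
  have hcnt := One_cnt (N := N) (W := W) (by omega) (by omega) hb y
  have hdd : κ / W ≤ dd N W := by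
    unfold dd del
    have hφW : (0 : ℝ) < W.totient := by exact_mod_cast Nat.totient_pos.2 hW
    have h2 : ((W.totient * N.totient : ℕ) : ℝ) ≤ ((W * N).totient : ℝ) := by
      exact_mod_cast Nat.totient_super_multiplicative W N
    push_cast at h2
    rw [div_div, div_le_div_iff₀ hW0 (by push_cast; positivity)]
    push_cast
    nlinarith [mul_le_mul_of_nonneg_left htot (mul_pos hφW hW0).le]
  have hset : ((Finset.Icc 1 y).filter (fun n => n % W = b % W ∧ n.Coprime (W * N))) =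
      ((Finset.Icc 1 y).filter fun e => e ≡ b [MOD W] ∧ e.Coprime N) := by
    refine filter_congr fun n _ => ?_
    constructor
    · rintro ⟨h2, h3⟩
      exact ⟨h2, Nat.Coprime.coprime_mul_left_right h3⟩
    · rintro ⟨h2, h3⟩
      refine ⟨h2, Nat.Coprime.mul_right ?_ h3⟩
      rw [Nat.Coprime, h2.gcd_eq]
      exact hb
  rw [hset]
  have h3 := (abs_le.1 hcnt).1
  have h4 : κ / W * y ≤ dd N W * y := mul_le_mul_of_nonneg_right hdd (Nat.cast_nonneg _)
  have h5 : κ / W * y = κ / (2 * W) * y + κ / (2 * W) * y := by field_simp; ring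
  have h6 : (((Finset.Icc 1 y).filter fun e => e ≡ b [MOD W] ∧ e.Coprime N).card : ℝ) =
      (@Finset.card ℕ (@Finset.filter ℕ (fun e => e ≡ b [MOD W] ∧ e.Coprime N)
        (fun a => Classical.propDecidable _) (Finset.Icc 1 y)) : ℝ) := by
    congr 2
    ext n
    simp only [mem_filter]
  linarith

/-- the sum over the multiples of `A` -/
private noncomputable def One_E (W N a : ℕ) (f : ℕ → ℝ) (A : ℕ) : ℝ :=
  ∑ n ∈ (Finset.Icc 1 ((N - 1) / A)).filter (fun n => (A * n) % W = a % W ∧ n.Coprime (W * N)), f (A * n)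

private theorem One_sum {W N M a z B R : ℕ} (hNM : N ∣ M) (f : ℕ → ℝ) (hf : ∀ n, 0 ≤ f n)
    (hR : ∀ n : ℕ, 1 ≤ n → n ≤ N → rdv z n ≤ R) :
    ∑ A ∈ RN (W * M) z B, One_E W N a f A ≤ R * ∑ m ∈ CL W N a, f m := by
  classical
  have h1 : ∑ A ∈ RN (W * M) z B, One_E W N a f A ≤ ∑ m ∈ CL W N a, (rdv z m : ℝ) * f m := by
    unfold One_E
    rw [sum_sigma']
    have hmaps : ∀ x ∈ (RN (W * M) z B).sigma (fun A => (Finset.Icc 1 ((N - 1) / A)).filter
        (fun n => (A * n) % W = a % W ∧ n.Coprime (W * N))), x.1 * x.2 ∈ CL W N a := by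
      intro x hx
      rw [mem_sigma, mem_RN', mem_filter, mem_Icc] at hx
      unfold CL
      rw [mem_filter, mem_range]
      have h4 := (Nat.le_div_iff_mul_le hx.1.1.1).mp hx.2.1.2
      rw [mul_comm] at h4
      have h5 := Nat.mul_pos hx.1.1.1 hx.2.1.1
      refine ⟨by omega, hx.2.2.1, Nat.Coprime.mul_left ?_ hx.2.2.2⟩
      exact Nat.Coprime.coprime_dvd_right (Nat.mul_dvd_mul_left W hNM) hx.1.2.2
    rw [← sum_fiberwise_of_maps_to hmaps]
    refine sum_le_sum fun m hm => ?_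
    have h2 : ∀ x ∈ ((RN (W * M) z B).sigma (fun A => (Finset.Icc 1 ((N - 1) / A)).filter
        (fun n => (A * n) % W = a % W ∧ n.Coprime (W * N)))).filter (fun x => x.1 * x.2 = m),
        f (x.1 * x.2) = f m := by
      intro x hx
      rw [mem_filter] at hx
      rw [hx.2]
    rw [sum_congr rfl h2, sum_const, nsmul_eq_mul]
    refine mul_le_mul_of_nonneg_right ?_ (hf _)
    have : (((RN (W * M) z B).sigma (fun A => (Finset.Icc 1 ((N - 1) / A)).filter
        (fun n => (A * n) % W = a % W ∧ n.Coprime (W * N)))).filter (fun x => x.1 * x.2 = m)).card ≤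
        rdv z m := by
      unfold rdv
      refine card_le_card_of_injOn (fun x => x.1) ?_ ?_
      · intro x hx
        rw [mem_coe, mem_filter, mem_sigma, mem_RN', mem_filter, mem_Icc] at hx
        rw [mem_coe, mem_filter, Nat.mem_divisors]
        have h5 := Nat.mul_pos hx.1.1.1.1 hx.1.2.1.1
        exact ⟨⟨⟨x.2, hx.2.symm⟩, by omega⟩, hx.1.1.2.1⟩
      · intro x hx x' hx' h
        rw [mem_coe, mem_filter, mem_sigma, mem_RN'] at hx hx'
        obtain ⟨b, k⟩ := x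
        obtain ⟨b', k'⟩ := x'
        simp only at h hx hx'
        subst h
        have : b * k = b * k' := hx.2.trans hx'.2.symm
        have := Nat.eq_of_mul_eq_mul_left hx.1.1.1.1 this
        subst this
        rfl
    exact_mod_cast this
  refine h1.trans ?_
  rw [mul_sum]
  refine sum_le_sum fun m hm => ?_
  rcases Nat.eq_zero_or_pos m with h0 | h0
  · have h5 : (rdv z m : ℝ) ≤ R := by
      rw [h0]
      unfold rdv
      simp
    exact mul_le_mul_of_nonneg_right h5 (hf _)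
  · unfold CL at hm
    rw [mem_filter, mem_range] at hm
    refine mul_le_mul_of_nonneg_right ?_ (hf _)
    exact_mod_cast hR m h0 hm.1.le

/-- the inequality for one pair -/
private theorem One_pair {W N a A A' b : ℕ} {κ : ℝ} (hW : 1 ≤ W) (hκ : 0 < κ) (hN : 0 < N)
    (χ : DirichletCharacter ℂ (W * N)) (c0 : ℂ) (hA1 : 1 ≤ A) (hle : A ≤ A') (hAA : A % W = A' % W)
    (hb : (A * b) % W = a % W)
    (hcard : κ * N / (4 * W * A') ≤ ((Finset.Icc 1 ((N - 1) / A')).filter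
      (fun n => n % W = b % W ∧ n.Coprime (W * N))).card) :
    ‖gg (-1) χ A - gg (-1) χ A'‖ ^ 2 ≤ 8 * W * A' / (κ * N) *
      (One_E W N a (fun m => ‖gg (-1) χ m - c0‖ ^ 2) A + One_E W N a (fun m => ‖gg (-1) χ m - c0‖ ^ 2) A') := by
  have hne : NeZero (W * N) := ⟨(Nat.mul_pos hW hN).ne'⟩
  have hA1' : 1 ≤ A' := hA1.trans hle
  have hWR : (0 : ℝ) < W := by exact_mod_cast hW
  have hNR : (0 : ℝ) < N := by exact_mod_cast hN
  have hAR' : (0 : ℝ) < A' := by exact_mod_cast hA1'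
  obtain ⟨T, hT⟩ : ∃ T, T = (Finset.Icc 1 ((N - 1) / A')).filter
      (fun n => n % W = b % W ∧ n.Coprime (W * N)) := ⟨_, rfl⟩
  rw [← hT] at hcard
  obtain ⟨f, hf⟩ : ∃ f : ℕ → ℝ, f = fun m => ‖gg (-1) χ m - c0‖ ^ 2 := ⟨_, rfl⟩
  rw [← hf]
  have hf0 : ∀ m, 0 ≤ f m := fun m => by rw [hf]; exact sq_nonneg _
  have hTA : ∀ n ∈ T, (A * n) % W = a % W ∧ (A' * n) % W = a % W ∧ n.Coprime (W * N) ∧
      1 ≤ n ∧ n ≤ (N - 1) / A' ∧ n ≤ (N - 1) / A := by
    intro n hn
    rw [hT, mem_filter, mem_Icc] at hn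
    have h1 : (A * n) % W = a % W := by
      rw [← hb]
      exact Nat.ModEq.mul_left A hn.2.1
    have h2 : (A' * n) % W = a % W := by
      rw [← h1]
      exact (Nat.ModEq.mul_right n hAA).symm
    exact ⟨h1, h2, hn.2.2, hn.1.1, hn.1.2, hn.1.2.trans (Nat.div_le_div_left hle hA1)⟩
  have hE : ∑ n ∈ T, f (A * n) ≤ One_E W N a f A := by
    unfold One_E
    refine sum_le_sum_of_subset_of_nonneg ?_ fun n _ _ => hf0 _
    intro n hn
    obtain ⟨h1, h2, h3, h4, h5, h6⟩ := hTA n hn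
    rw [mem_filter, mem_Icc]
    exact ⟨⟨h4, h6⟩, h1, h3⟩
  have hE' : ∑ n ∈ T, f (A' * n) ≤ One_E W N a f A' := by
    unfold One_E
    refine sum_le_sum_of_subset_of_nonneg ?_ fun n _ _ => hf0 _
    intro n hn
    obtain ⟨h1, h2, h3, h4, h5, h6⟩ := hTA n hn
    rw [mem_filter, mem_Icc]
    exact ⟨⟨h4, h5⟩, h2, h3⟩
  have hpt : ∀ n ∈ T, ‖gg (-1) χ A - gg (-1) χ A'‖ ^ 2 ≤ 2 * f (A * n) + 2 * f (A' * n) := by
    intro n hn
    obtain ⟨h1, h2, h3, h4, h5, h6⟩ := hTA n hn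
    have g1 : ‖gg (-1) χ n‖ = 1 := gg_norm (by norm_num) χ h3
    have g2 : gg (-1) χ (A * n) - gg (-1) χ (A' * n) = (gg (-1) χ A - gg (-1) χ A') * gg (-1) χ n := by
      rw [gg_mul _ _ hA1 h4, gg_mul _ _ hA1' h4, sub_mul]
    have g3 : ‖gg (-1) χ A - gg (-1) χ A'‖ = ‖gg (-1) χ (A * n) - gg (-1) χ (A' * n)‖ := by
      rw [g2, norm_mul, g1, mul_one]
    rw [g3, hf]
    simp only
    have g4 : gg (-1) χ (A * n) - gg (-1) χ (A' * n) =
        (gg (-1) χ (A * n) - c0) - (gg (-1) χ (A' * n) - c0) := by ring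
    have g5 : ‖gg (-1) χ (A * n) - gg (-1) χ (A' * n)‖ ≤
        ‖gg (-1) χ (A * n) - c0‖ + ‖gg (-1) χ (A' * n) - c0‖ := by
      rw [g4]
      exact norm_sub_le _ _
    nlinarith [norm_nonneg (gg (-1) χ (A * n) - gg (-1) χ (A' * n)), norm_nonneg (gg (-1) χ (A * n) - c0),
      norm_nonneg (gg (-1) χ (A' * n) - c0), sq_nonneg (‖gg (-1) χ (A * n) - c0‖ - ‖gg (-1) χ (A' * n) - c0‖),
      mul_self_le_mul_self (norm_nonneg _) g5]
  have hsum : (T.card : ℝ) * ‖gg (-1) χ A - gg (-1) χ A'‖ ^ 2 ≤ 2 * (One_E W N a f A + One_E W N a f A') := by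
    calc (T.card : ℝ) * ‖gg (-1) χ A - gg (-1) χ A'‖ ^ 2 = ∑ n ∈ T, ‖gg (-1) χ A - gg (-1) χ A'‖ ^ 2 := by
          rw [sum_const, nsmul_eq_mul]
      _ ≤ ∑ n ∈ T, (2 * f (A * n) + 2 * f (A' * n)) := sum_le_sum hpt
      _ = 2 * ∑ n ∈ T, f (A * n) + 2 * ∑ n ∈ T, f (A' * n) := by rw [sum_add_distrib, mul_sum, mul_sum]
      _ ≤ _ := by linarith
  have h1 : κ * N / (4 * W * A') * ‖gg (-1) χ A - gg (-1) χ A'‖ ^ 2 ≤ 2 * (One_E W N a f A + One_E W N a f A') :=
    (mul_le_mul_of_nonneg_right hcard (sq_nonneg _)).trans hsum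
  have hpos : 0 < κ * N / (4 * W * A') := by positivity
  calc ‖gg (-1) χ A - gg (-1) χ A'‖ ^ 2 =
        (κ * N / (4 * W * A'))⁻¹ * (κ * N / (4 * W * A') * ‖gg (-1) χ A - gg (-1) χ A'‖ ^ 2) := by
          rw [← mul_assoc, inv_mul_cancel₀ hpos.ne', one_mul]
    _ ≤ (κ * N / (4 * W * A'))⁻¹ * (2 * (One_E W N a f A + One_E W N a f A')) :=
          mul_le_mul_of_nonneg_left h1 (by positivity)
    _ = 8 * W * A' / (κ * N) * (One_E W N a f A + One_E W N a f A') := by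
          field_simp
          ring

theorem one_apx (W : ℕ) (hW : 1 ≤ W) (κ k : ℝ) (hκ : 0 < κ) (hk : 0 < k) (hk1 : k ≤ 1 / 100) (c : ℝ)
    (hc : 0 < c) : ∃ C : ℝ, 0 < C ∧ ∃ N0 : ℕ, ∀ N M : ℕ, N0 ≤ N → N ∣ M → 0 < M →
    (M : ℝ) ^ (1 / 2 - k) ≤ (N : ℝ) ^ (1 - k) → κ * N ≤ N.totient →
    ∀ (a : ℕ) (ε : ℝ) (χ : DirichletCharacter ℂ (W * N)), a.Coprime W → Apx W N a ε χ →
    ∃ e : ℕ → ℝ, (∀ n, 0 ≤ e n) ∧
      ∑ A ∈ RN (W * M) ⌊(M : ℝ) ^ c⌋₊ ⌊(M : ℝ) ^ (1 / 2 - k)⌋₊, e A / A ≤ C * ε ∧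
      ∀ A ∈ RN (W * M) ⌊(M : ℝ) ^ c⌋₊ ⌊(M : ℝ) ^ (1 / 2 - k)⌋₊,
      ∀ A' ∈ RN (W * M) ⌊(M : ℝ) ^ c⌋₊ ⌊(M : ℝ) ^ (1 / 2 - k)⌋₊, A % W = A' % W →
        ‖gg (-1) χ A - gg (-1) χ A'‖ ^ 2 ≤ ((A : ℝ) / A' + (A' : ℝ) / A) * (e A + e A') := by
  have hWR : (0 : ℝ) < W := by exact_mod_cast hW
  have hneW : NeZero W := ⟨by omega⟩
  obtain ⟨R, hR1, N1, hR⟩ := rough_div c hc
  obtain ⟨N2, hlow⟩ := class_low W hW κ (k / 2) hκ (by positivity)
  have h1 : Filter.Tendsto (fun N : ℕ => (N : ℝ) ^ (k / 2)) Filter.atTop Filter.atTop :=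
    (tendsto_rpow_atTop (by positivity)).comp tendsto_natCast_atTop_atTop
  obtain ⟨N3, hN3⟩ := (h1.eventually_ge_atTop 4).exists_forall_of_atTop
  have hR0 : (0 : ℝ) < R := by exact_mod_cast hR1
  refine ⟨16 * W * R / κ, by positivity, max N1 (max N2 (max N3 2)), ?_⟩
  intro N M hN hNM hM hMN htot a ε χ ha hApx
  have n1 : N1 ≤ N := (le_max_left _ _).trans hN
  have n2 : N2 ≤ N := (le_max_left _ _).trans ((le_max_right _ _).trans hN)
  have n3 : N3 ≤ N := (le_max_left _ _).trans ((le_max_right _ _).trans ((le_max_right _ _).trans hN))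
  have n4 : 2 ≤ N := (le_max_right _ _).trans ((le_max_right _ _).trans ((le_max_right _ _).trans hN))
  have hN0 : 0 < N := by omega
  have hNR : (0 : ℝ) < N := by exact_mod_cast hN0
  have hNR1 : (1 : ℝ) ≤ N := by exact_mod_cast hN0
  have hNM' : N ≤ M := Nat.le_of_dvd hM hNM
  obtain ⟨c0, hc0, hsum⟩ := hApx
  obtain ⟨f, hf⟩ : ∃ f : ℕ → ℝ, f = fun m => ‖gg (-1) χ m - c0‖ ^ 2 := ⟨_, rfl⟩
  have hf0 : ∀ m, 0 ≤ f m := fun m => by rw [hf]; exact sq_nonneg _
  have hsum' : ∑ m ∈ CL W N a, f m ≤ ε * N := by rw [hf]; exact hsum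
  have hE0 : ∀ A, 0 ≤ One_E W N a f A := fun A => sum_nonneg fun n _ => hf0 _
  refine ⟨fun A => 16 * W / κ * A * One_E W N a f A / N, ?_, ?_, ?_⟩
  · intro n
    have := hE0 n
    positivity
  · have h2 := One_sum (W := W) (N := N) (M := M) (a := a) (z := ⌊(M : ℝ) ^ c⌋₊)
      (B := ⌊(M : ℝ) ^ (1 / 2 - k)⌋₊) (R := R) hNM f hf0
      (fun n hn1 hn2 => hR M (n1.trans hNM') _ rfl n hn1 (hn2.trans hNM'))
    have h3 : ∑ A ∈ RN (W * M) ⌊(M : ℝ) ^ c⌋₊ ⌊(M : ℝ) ^ (1 / 2 - k)⌋₊,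
        (16 * W / κ * A * One_E W N a f A / N) / A =
        16 * W / (κ * N) * ∑ A ∈ RN (W * M) ⌊(M : ℝ) ^ c⌋₊ ⌊(M : ℝ) ^ (1 / 2 - k)⌋₊, One_E W N a f A := by
      rw [mul_sum]
      refine sum_congr rfl fun A hA => ?_
      rw [mem_RN'] at hA
      have hAR : (0 : ℝ) < A := by exact_mod_cast hA.1.1
      field_simp
    rw [h3]
    calc 16 * W / (κ * N) * ∑ A ∈ RN (W * M) ⌊(M : ℝ) ^ c⌋₊ ⌊(M : ℝ) ^ (1 / 2 - k)⌋₊, One_E W N a f A
        ≤ 16 * W / (κ * N) * (R * (ε * N)) := by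
          refine mul_le_mul_of_nonneg_left (h2.trans ?_) (by positivity)
          exact mul_le_mul_of_nonneg_left hsum' hR0.le
      _ = 16 * W * R / κ * ε := by field_simp
  · -- the two point inequality for `A ≤ A'`
    have key : ∀ A ∈ RN (W * M) ⌊(M : ℝ) ^ c⌋₊ ⌊(M : ℝ) ^ (1 / 2 - k)⌋₊,
      ∀ A' ∈ RN (W * M) ⌊(M : ℝ) ^ c⌋₊ ⌊(M : ℝ) ^ (1 / 2 - k)⌋₊, A ≤ A' → A % W = A' % W →
        ‖gg (-1) χ A - gg (-1) χ A'‖ ^ 2 ≤ ((A : ℝ) / A' + (A' : ℝ) / A) *
          (16 * W / κ * A * One_E W N a f A / N + 16 * W / κ * A' * One_E W N a f A' / N) := by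
      intro A hA A' hA' hle hAA
      rw [mem_RN'] at hA hA'
      have hA1 : 1 ≤ A := hA.1.1
      have hA1' : 1 ≤ A' := hA'.1.1
      have hAR : (0 : ℝ) < A := by exact_mod_cast hA1
      have hAR' : (0 : ℝ) < A' := by exact_mod_cast hA1'
      have hAW : A.Coprime W := Nat.Coprime.coprime_mul_right_right hA.2.2
      obtain ⟨b, hb⟩ : ∃ b : ℕ, (A * b) % W = a % W := by
        refine ⟨(((A : ZMod W))⁻¹ * (a : ZMod W)).val, ?_⟩
        have e1 : A * (((A : ZMod W))⁻¹ * (a : ZMod W)).val ≡ a [MOD W] := by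
          rw [← ZMod.natCast_eq_natCast_iff]
          push_cast
          rw [ZMod.natCast_val, ZMod.cast_id', id, ← mul_assoc, ZMod.coe_mul_inv_eq_one A hAW, one_mul]
        exact e1
      have hbW : b.Coprime W := by
        have e2 : (A * b).Coprime W := by
          have : (A * b).gcd W = a.gcd W := Nat.ModEq.gcd_eq hb
          rw [Nat.Coprime, this]
          exact ha
        exact Nat.Coprime.coprime_mul_left e2
      -- the size of `A'`
      have hA'B : (A' : ℝ) ≤ (N : ℝ) ^ (1 - k) := by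
        have h2 : (A' : ℝ) ≤ (⌊(M : ℝ) ^ (1 / 2 - k)⌋₊ : ℝ) := by exact_mod_cast hA'.1.2
        exact h2.trans ((Nat.floor_le (by positivity)).trans hMN)
      have hk2 : (4 : ℝ) ≤ (N : ℝ) ^ (k / 2) := hN3 N n3
      have hkk : (N : ℝ) ^ k = (N : ℝ) ^ (k / 2) * (N : ℝ) ^ (k / 2) := by
        rw [← Real.rpow_add hNR]
        congr 1
        ring
      have hNA : (N : ℝ) ^ k ≤ N / A' := by
        rw [le_div_iff₀ hAR']
        calc (N : ℝ) ^ k * A' ≤ (N : ℝ) ^ k * (N : ℝ) ^ (1 - k) := mul_le_mul_of_nonneg_left hA'B (by positivity)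
          _ = N := by
              rw [← Real.rpow_add hNR]
              rw [show k + (1 - k) = 1 by ring, Real.rpow_one]
      have hy : (N : ℝ) / A' - 2 ≤ (((N - 1) / A' : ℕ) : ℝ) := by
        have h2 : (N - 1) < A' * ((N - 1) / A' + 1) := Nat.lt_mul_div_succ (N - 1) (by omega)
        have h3 : N ≤ A' * ((N - 1) / A' + 1) := by omega
        have h4 : (N : ℝ) ≤ A' * ((((N - 1) / A' : ℕ) : ℝ) + 1) := by exact_mod_cast h3
        have h5 : (N : ℝ) / A' ≤ (((N - 1) / A' : ℕ) : ℝ) + 1 := by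
          rw [div_le_iff₀ hAR']
          linarith
        linarith
      have hy1 : (N : ℝ) ^ (k / 2) ≤ (((N - 1) / A' : ℕ) : ℝ) := by
        nlinarith
      have hy2 : (N : ℝ) / (2 * A') ≤ (((N - 1) / A' : ℕ) : ℝ) := by
        have h2 : (N : ℝ) / (2 * A') = N / A' / 2 := by field_simp
        rw [h2]
        nlinarith
      have hcard : κ * N / (4 * W * A') ≤ ((Finset.Icc 1 ((N - 1) / A')).filter
          (fun n => n % W = b % W ∧ n.Coprime (W * N))).card := by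
        refine le_trans ?_ (hlow N n2 htot b ((N - 1) / A') hbW hy1)
        calc κ * N / (4 * W * A') = κ / (2 * W) * (N / (2 * A')) := by field_simp; ring
          _ ≤ _ := mul_le_mul_of_nonneg_left hy2 (by positivity)
      have h6 := One_pair (a := a) hW hκ hN0 χ c0 hA1 hle hAA hb hcard
      rw [← hf] at h6
      refine h6.trans ?_
      have hEA := hE0 A
      have hEA' := hE0 A'
      have hle' : (A : ℝ) ≤ A' := by exact_mod_cast hle
      have h7 : 8 * W * A' / (κ * N) * (One_E W N a f A + One_E W N a f A') =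
          1 / 2 * ((A' : ℝ) / A * (16 * W / κ * A * One_E W N a f A / N)) +
          1 / 2 * (16 * W / κ * A' * One_E W N a f A' / N) := by
        field_simp
        ring
      rw [h7]
      have g1 : 0 ≤ 16 * W / κ * A * One_E W N a f A / N := by positivity
      have g2 : 0 ≤ 16 * W / κ * A' * One_E W N a f A' / N := by positivity
      have g3 : 1 ≤ (A' : ℝ) / A := by rwa [one_le_div hAR]
      have g4 : 0 ≤ (A : ℝ) / A' := by positivity
      nlinarith [mul_nonneg g4 g1, mul_nonneg g4 g2, mul_nonneg (by linarith : 0 ≤ (A' : ℝ) / A) g1,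
        mul_nonneg (by linarith : 0 ≤ (A' : ℝ) / A) g2, mul_nonneg (by linarith : 0 ≤ (A' : ℝ) / A - 1) g2]
    intro A hA A' hA' hAA
    rcases le_total A A' with hle | hle
    · exact key A hA A' hA' hle hAA
    · have h8 := key A' hA' A hA hle hAA.symm
      rw [norm_sub_rev] at h8
      refine h8.trans (le_of_eq ?_)
      ring

end Pool.Agent.Lib.PP
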