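import Mathlib
import Pool.Agent.Lib.MP_7b7e48_nt.OW.SPFin
import Pool.Agent.Lib.MP_7b7e48_nt.PP.One

/-!
# PP part IV: two approximated numbers

PROOF.
chain W hW (c3/8) (c3 of OWS.low_pair): kap', then low_pair kap' : c0, then chain with c1 = c0 : c, eta2, N0. tau := kap'. M = N1 N2, q = W M:
M^(1/2-kap') <= X^((1+tau)(1-2kap')) <= X^(1-kap') <= N_i^(1-kap'). one_apx (k = kap', c) for N = N1 and N = N2: e1, e2; eps := eta2/C.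
Family: iota = Bool, X = univ, w = 1/2, g b = gg (-1) (level q lift of chi1 or chi2) (DirichletCharacter.changeLevel; OWS.changeLevel_nat for n coprime to q; gg on
level q and gg on level W N_i agree on n coprime to q). Fam: gg_mul, gg_norm. Two: e = (e1+e2)/2, E = C eps <= eta2, Dst = (1/2)(...)+(1/2)(...).
chain: nst with sum_{n in RN} Dst n (nst (n % W)) <= (c3/8) Y. cmp_nst (SPFin) with gamma r = gg chi1 (nst r) conj gg chi2 (nst r):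
sum |chi1 n - gamma(n%W) chi2 n|^2 <= 2 * 2 * sum Dst <= (c3/2) Y < c3 Y (Y > 0, as in OWS.spec), so low_pair gives psi with
lift chi1 = changeLevel psi * lift chi2. Evaluate at n coprime to W (N1 N2).
-/

open Finset
open Pool.Agent.Lib.RG (Rough RN)
open Pool.Agent.Lib.OWS

namespace Pool.Agent.Lib.PP

/-- the function on a higher level -/
private theorem Rel2_gg {a b : ℕ} [NeZero b] (h : a ∣ b) (χ : DirichletCharacter ℂ a) {n : ℕ} (hn : n.Coprime b) :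
    gg (-1) (DirichletCharacter.changeLevel h χ) n = gg (-1) χ n := by
  unfold gg
  rw [changeLevel_nat h χ hn]

/-- the two distances -/
private theorem Rel2_Dst (g1 g2 : ℕ → ℂ) (m n : ℕ) :
    Dst (univ : Finset Bool) (fun _ => 1 / 2) (fun b => if b then g1 else g2) m n =
      (‖g1 m - g1 n‖ ^ 2 + ‖g2 m - g2 n‖ ^ 2) / 2 := by
  unfold Dst
  rw [Fintype.sum_bool]
  simp only [if_true, Bool.false_eq_true, if_false]
  ring

/-- the exponents -/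
private theorem Rel2_pow {X N1 N2 : ℕ} {τ : ℝ} (hτ : 0 < τ) (hτ1 : τ ≤ 1 / 100) (hX : 1 ≤ X)
    (h1 : (N1 : ℝ) ≤ (X : ℝ) ^ (1 + τ)) (h2 : (N2 : ℝ) ≤ (X : ℝ) ^ (1 + τ)) {N : ℕ} (hN : X ≤ N) :
    (((N1 * N2 : ℕ) : ℝ)) ^ (1 / 2 - τ) ≤ (N : ℝ) ^ (1 - τ) := by
  have hX0 : (0 : ℝ) < X := by exact_mod_cast hX
  have hX1 : (1 : ℝ) ≤ X := by exact_mod_cast hX
  have h3 : (((N1 * N2 : ℕ) : ℝ)) ≤ (X : ℝ) ^ (2 * (1 + τ)) := by
    push_cast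
    calc (N1 : ℝ) * N2 ≤ (X : ℝ) ^ (1 + τ) * (X : ℝ) ^ (1 + τ) :=
          mul_le_mul h1 h2 (Nat.cast_nonneg _) (by positivity)
      _ = _ := by
          rw [← Real.rpow_add hX0]
          congr 1
          ring
  calc (((N1 * N2 : ℕ) : ℝ)) ^ (1 / 2 - τ) ≤ ((X : ℝ) ^ (2 * (1 + τ))) ^ (1 / 2 - τ) :=
        Real.rpow_le_rpow (Nat.cast_nonneg _) h3 (by linarith)
    _ = (X : ℝ) ^ (2 * (1 + τ) * (1 / 2 - τ)) := by rw [← Real.rpow_mul hX0.le]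
    _ ≤ (X : ℝ) ^ (1 - τ) := Real.rpow_le_rpow_of_exponent_le hX1 (by nlinarith)
    _ ≤ (N : ℝ) ^ (1 - τ) := Real.rpow_le_rpow hX0.le (by exact_mod_cast hN) (by linarith)

/-- positivity of the number of rough numbers -/
private theorem Rel2_Y {c κ : ℝ} (hc : 0 < c) (hκ : 0 < κ) {N : ℕ} (hN : 1 ≤ N) (hN5 : ⌈(Real.exp 1 * 4) ^ (1 / c)⌉₊ ≤ N) :
    0 < (⌊(N : ℝ) ^ (1 / 2 + κ)⌋₊ : ℝ) / Real.log ⌊(N : ℝ) ^ c⌋₊ := by
  have hNR : (1 : ℝ) ≤ N := by exact_mod_cast hN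
  have e1 : (1 : ℝ) ≤ (N : ℝ) ^ (1 / 2 + κ) := Real.one_le_rpow hNR (by positivity)
  have e2 : 1 ≤ ⌊(N : ℝ) ^ (1 / 2 + κ)⌋₊ := by
    rw [Nat.one_le_floor_iff]
    exact e1
  have e3 : Real.exp 1 * 4 ≤ (N : ℝ) ^ c := by
    have h1 : (Real.exp 1 * 4) ^ (1 / c) ≤ N := Nat.ceil_le.mp hN5
    have h2 : ((Real.exp 1 * 4) ^ (1 / c)) ^ c ≤ (N : ℝ) ^ c :=
      Real.rpow_le_rpow (by positivity) h1 hc.le
    rwa [← Real.rpow_mul (by positivity), one_div, inv_mul_cancel₀ hc.ne', Real.rpow_one] at h2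
  have e4 : (2 : ℝ) ≤ ⌊(N : ℝ) ^ c⌋₊ := by
    have h1 := Real.add_one_le_exp 1
    have h2 : (2 : ℕ) ≤ ⌊(N : ℝ) ^ c⌋₊ := by
      apply Nat.le_floor
      push_cast
      linarith
    exact_mod_cast h2
  have e5 : 0 < Real.log ⌊(N : ℝ) ^ c⌋₊ := Real.log_pos (by linarith)
  have e6 : (1 : ℝ) ≤ ⌊(N : ℝ) ^ (1 / 2 + κ)⌋₊ := by exact_mod_cast e2
  positivity

/-- the characters of two approximated numbers differ by a character modulo `W` -/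
theorem rel2 (W : ℕ) (hW : 1 ≤ W) (κ : ℝ) (hκ : 0 < κ) : ∃ τ : ℝ, 0 < τ ∧ ∃ ε : ℝ, 0 < ε ∧ ∃ X0 : ℕ,
    ∀ X : ℕ, X0 ≤ X → ∀ N1 N2 : ℕ, X ≤ N1 → (N1 : ℝ) ≤ (X : ℝ) ^ (1 + τ) → X ≤ N2 →
    (N2 : ℝ) ≤ (X : ℝ) ^ (1 + τ) → κ * N1 ≤ N1.totient → κ * N2 ≤ N2.totient →
    ∀ (a1 a2 : ℕ) (χ1 : DirichletCharacter ℂ (W * N1)) (χ2 : DirichletCharacter ℂ (W * N2)),
    a1.Coprime W → a2.Coprime W → Apx W N1 a1 ε χ1 → Apx W N2 a2 ε χ2 →
    ∃ ψ : DirichletCharacter ℂ W, ∀ n : ℕ, n.Coprime (W * (N1 * N2)) →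
      χ1 (n : ZMod (W * N1)) = ψ (n : ZMod W) * χ2 (n : ZMod (W * N2)) := by
  classical
  have : NeZero W := ⟨by omega⟩
  obtain ⟨c3, hc3, hlow⟩ := low_pair W
  obtain ⟨k, hk, hk1, -, hch⟩ := chain W hW (c3 / 8) (by positivity)
  obtain ⟨c0, hc0, hlow2⟩ := hlow k hk hk1
  obtain ⟨c, hc, hcc0, hck, η2, hη2, M1, hch1⟩ := hch c0 hc0
  obtain ⟨M3, hlow3⟩ := hlow2 c hc hcc0
  obtain ⟨C, hC, M4, hone⟩ := one_apx W hW κ k hκ hk hk1 c hc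
  refine ⟨k, hk, η2 / C, by positivity, max (max M1 M3) (max M4 (max 1 ⌈(Real.exp 1 * 4) ^ (1 / c)⌉₊)), ?_⟩
  intro X hX N1 N2 hN1 hN1u hN2 hN2u ht1 ht2 a1 a2 χ1 χ2 ha1 ha2 hA1 hA2
  have m1 : M1 ≤ X := (le_max_left _ _).trans ((le_max_left _ _).trans hX)
  have m3 : M3 ≤ X := (le_max_right _ _).trans ((le_max_left _ _).trans hX)
  have m4 : M4 ≤ X := (le_max_left _ _).trans ((le_max_right _ _).trans hX)
  have m5 : 1 ≤ X := (le_max_left _ _).trans ((le_max_right _ _).trans ((le_max_right _ _).trans hX))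
  have m6 : ⌈(Real.exp 1 * 4) ^ (1 / c)⌉₊ ≤ X :=
    (le_max_right _ _).trans ((le_max_right _ _).trans ((le_max_right _ _).trans hX))
  obtain ⟨M, hM⟩ : ∃ M : ℕ, M = N1 * N2 := ⟨_, rfl⟩
  have hN1p : 0 < N1 := by omega
  have hN2p : 0 < N2 := by omega
  have hMp : 0 < M := by rw [hM]; exact Nat.mul_pos hN1p hN2p
  have hXM : X ≤ M := by
    rw [hM]
    exact hN1.trans (Nat.le_mul_of_pos_right _ hN2p)
  have hd1 : N1 ∣ M := by rw [hM]; exact Dvd.intro _ rfl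
  have hd2 : N2 ∣ M := by rw [hM]; exact Dvd.intro_left _ rfl
  have hq : NeZero (W * M) := ⟨(Nat.mul_pos hW hMp).ne'⟩
  have p1 : ((M : ℕ) : ℝ) ^ (1 / 2 - k) ≤ (N1 : ℝ) ^ (1 - k) := by
    rw [hM]; exact Rel2_pow hk hk1 m5 hN1u hN2u hN1
  have p2 : ((M : ℕ) : ℝ) ^ (1 / 2 - k) ≤ (N2 : ℝ) ^ (1 - k) := by
    rw [hM]; exact Rel2_pow hk hk1 m5 hN1u hN2u hN2
  obtain ⟨e1, e10, e1m, e1t⟩ := hone N1 M (m4.trans hN1) hd1 hMp p1 ht1 a1 (η2 / C) χ1 ha1 hA1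
  obtain ⟨e2, e20, e2m, e2t⟩ := hone N2 M (m4.trans hN2) hd2 hMp p2 ht2 a2 (η2 / C) χ2 ha2 hA2
  have hD1 : W * N1 ∣ W * M := Nat.mul_dvd_mul_left W hd1
  have hD2 : W * N2 ∣ W * M := Nat.mul_dvd_mul_left W hd2
  obtain ⟨L1, hL1⟩ : ∃ L1, L1 = DirichletCharacter.changeLevel hD1 χ1 := ⟨_, rfl⟩
  obtain ⟨L2, hL2⟩ : ∃ L2, L2 = DirichletCharacter.changeLevel hD2 χ2 := ⟨_, rfl⟩
  obtain ⟨g, hg⟩ : ∃ g : Bool → ℕ → ℂ, g = fun b => if b then gg (-1) L1 else gg (-1) L2 := ⟨_, rfl⟩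
  have hθ : ((-1 : ℝ)) ^ 2 = 1 := by norm_num
  have hfam : Fam (W * M) (univ : Finset Bool) (fun _ => (1 / 2 : ℝ)) g := by
    refine ⟨fun _ _ => by norm_num, ?_, ?_, ?_⟩
    · rw [Fintype.sum_bool]
      norm_num
    · intro b _ m n hm hn
      rw [hg]
      cases b
      · simp only [Bool.false_eq_true, if_false]
        exact gg_mul (-1) L2 hm hn
      · simp only [if_true]
        exact gg_mul (-1) L1 hm hn
    · intro b _ n _ hnq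
      rw [hg]
      cases b
      · simp only [Bool.false_eq_true, if_false]
        exact gg_norm hθ L2 hnq
      · simp only [if_true]
        exact gg_norm hθ L1 hnq
  have htwo : Two W (W * M) ⌊(M : ℝ) ^ c⌋₊ ⌊(M : ℝ) ^ (1 / 2 - k)⌋₊ η2 (univ : Finset Bool)
      (fun _ => (1 / 2 : ℝ)) g (fun n => (e1 n + e2 n) / 2) := by
    refine ⟨fun n => ?_, ?_, ?_⟩
    · have := e10 n
      have := e20 n
      positivity
    · have h1 : ∀ A ∈ RN (W * M) ⌊(M : ℝ) ^ c⌋₊ ⌊(M : ℝ) ^ (1 / 2 - k)⌋₊, (e1 A + e2 A) / 2 / (A : ℝ) =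
          (e1 A / A + e2 A / A) / 2 := by
        intro A _
        ring
      rw [sum_congr rfl h1, ← sum_div, sum_add_distrib]
      have h2 : C * (η2 / C) = η2 := by field_simp
      rw [h2] at e1m e2m
      linarith
    · intro A hA A' hA' hmod
      have c1 : A.Coprime (W * M) := (mem_RN'.mp hA).2.2
      have c2 : A'.Coprime (W * M) := (mem_RN'.mp hA').2.2
      rw [hg, Rel2_Dst, hL1, hL2, Rel2_gg hD1 χ1 c1, Rel2_gg hD1 χ1 c2, Rel2_gg hD2 χ2 c1, Rel2_gg hD2 χ2 c2]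
      have h1 := e1t A hA A' hA' hmod
      have h2 := e2t A hA A' hA' hmod
      have h3 : ((A : ℝ) / A' + (A' : ℝ) / A) * ((e1 A + e2 A) / 2 + (e1 A' + e2 A') / 2) =
          (((A : ℝ) / A' + (A' : ℝ) / A) * (e1 A + e1 A') + ((A : ℝ) / A' + (A' : ℝ) / A) * (e2 A + e2 A')) / 2 := by
        ring
      rw [h3]
      linarith
  obtain ⟨nst, hns, hnd⟩ := hch1 M (W * M) (m1.trans hXM) rfl Bool univ (fun _ => (1 / 2 : ℝ)) g _ hfam htwo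
  obtain ⟨Y, hY⟩ : ∃ Y : ℝ, Y = (⌊(M : ℝ) ^ (1 / 2 + k)⌋₊ : ℝ) / Real.log ⌊(M : ℝ) ^ c⌋₊ := ⟨_, rfl⟩
  have hY0 : 0 < Y := by
    rw [hY]
    exact Rel2_Y hc hk (m5.trans hXM) (m6.trans hXM)
  rw [← hY] at hnd
  have hex : ∃ ψ : DirichletCharacter ℂ W, L1 = DirichletCharacter.changeLevel (dvd_mul_right W M) ψ * L2 := by
    by_contra hcon
    push Not at hcon
    have h1 := hlow3 M (W * M) (dvd_mul_right W M) (m3.trans hXM) rfl L1 L2 hcon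
      (fun r => gg (-1) L1 (nst r) * (starRingEnd ℂ) (gg (-1) L2 (nst r)))
    rw [← hY] at h1
    have h2 : ∑ n ∈ RN (W * M) ⌊(M : ℝ) ^ c⌋₊ ⌊(M : ℝ) ^ (1 / 2 + k)⌋₊,
        ‖L1 (n : ZMod (W * M)) - (gg (-1) L1 (nst (n % W)) * (starRingEnd ℂ) (gg (-1) L2 (nst (n % W)))) *
          L2 (n : ZMod (W * M))‖ ^ 2 ≤ 4 * ∑ n ∈ RN (W * M) ⌊(M : ℝ) ^ c⌋₊ ⌊(M : ℝ) ^ (1 / 2 + k)⌋₊,
        Dst (univ : Finset Bool) (fun _ => (1 / 2 : ℝ)) g n (nst (n % W)) := by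
      rw [mul_sum]
      refine sum_le_sum fun n _ => ?_
      refine (cmp_nst hθ L1 L2 (hns (n % W)).2).trans (le_of_eq ?_)
      rw [hg, Rel2_Dst]
      ring
    have h3 : c3 * Y ≤ 4 * (c3 / 8 * Y) := h1.trans (h2.trans (mul_le_mul_of_nonneg_left hnd (by norm_num)))
    have h4 : 0 < c3 * Y := mul_pos hc3 hY0
    linarith
  obtain ⟨ψ, hψ⟩ := hex
  refine ⟨ψ, ?_⟩
  intro n hn
  rw [← hM] at hn
  have h1 : L1 (n : ZMod (W * M)) = χ1 (n : ZMod (W * N1)) := by rw [hL1, changeLevel_nat hD1 χ1 hn]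
  have h2 : L2 (n : ZMod (W * M)) = χ2 (n : ZMod (W * N2)) := by rw [hL2, changeLevel_nat hD2 χ2 hn]
  rw [← h1, ← h2, hψ, MulChar.mul_apply, changeLevel_nat (dvd_mul_right W M) ψ hn]

end Pool.Agent.Lib.PP
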