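import Mathlib
import Pool.Agent.Lib.MP_7b7e48_nt.GT.ClassUniform
import Pool.Agent.Lib.MP_7b7e48_nt.OW.T0
import Pool.Agent.Lib.MP_7b7e48_nt.PP.One

/-!
# PP part IV: the period is not small (Siegel-Walfisz)

PROOF.
(lam_cop) sum_{e | N} mu(e) sum_{m : e m < N, e m = r (d)} lam(e) lam(m). If gcd(e,d) > 1 the inner sum is empty (r coprime to d); otherwise m = r e^(-1) mod d
and lam_class (T1) with its constant, which does not depend on the modulus (it comes from LA1 A; restate it with the quantifiers exchanged: exists C, forall W ...):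
|inner| <= C (N/e)/(log (N/e))^A' for e <= sqrt N, trivially <= 2 sqrt N for e > sqrt N; sum_{e | N} 1/e <= 1 + log N, tau(N) <= C N^(1/10). A' = A + 2.
See OW/T2 lam_dom: the same proof for fixed W.
(swc) eps = kappa/(8W). A = 2B+1 in lam_cop. For r < d, r = a mod W, r coprime to d: {n in CL : n % d = r} = {n < N : n % d = r, n coprime to N}
(W | d, d | W N) and chi n = x_r there, |x_r| = 1 (if the set is nonempty), |gg - c|^2 = 1 - 2 Re(conj c lam(n) x_r) + |c|^2 >= 1 - 2 Re(...), so the sum over the set is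
>= card - 2 |sum lam|; sum over r: eps N >= |CL| - 2 d (d N/(log N)^(2B+1)) >= kappa/(2W) (N-1) - 2N/log N (class_low with y = N - 1), contradiction.
-/

open Finset
open Pool.Agent.Lib.MP_45349e_nt.LS (lam)
open Pool.Agent.Lib.OWS

open Pool.Agent.Lib.OW (Dom sqf_sum sqf_tail)

namespace Pool.Agent.Lib.PP

open Classical in
private theorem swc_cop (N : ℕ) (hN : N ≠ 0) (f : ℕ → ℝ) (R : Finset ℕ) :
    ∑ n ∈ R.filter (fun n => n.Coprime N), f n =
      ∑ d ∈ N.divisors.filter (fun d => Squarefree d), ((ArithmeticFunction.moebius d : ℤ) : ℝ) *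
        ∑ n ∈ R.filter (fun n => d ∣ n), f n := by
  have h1 : ∀ n ∈ R, (if n.Coprime N then f n else 0) =
      ∑ d ∈ N.divisors, (if d ∣ n then ((ArithmeticFunction.moebius d : ℤ) : ℝ) * f n else 0) := by
    intro n hn
    have h2 : ∑ d ∈ (Nat.gcd n N).divisors, (ArithmeticFunction.moebius d : ℤ) =
        if Nat.gcd n N = 1 then 1 else 0 := by
      have h := ArithmeticFunction.coe_mul_zeta_apply (f := ArithmeticFunction.moebius)
        (x := Nat.gcd n N)
      rw [ArithmeticFunction.moebius_mul_coe_zeta] at h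
      rw [← h, ArithmeticFunction.one_apply]
    have h3 : ∑ d ∈ N.divisors, (if d ∣ n then ((ArithmeticFunction.moebius d : ℤ) : ℝ) * f n else 0) =
        ((∑ d ∈ (Nat.gcd n N).divisors, (ArithmeticFunction.moebius d : ℤ) : ℤ) : ℝ) * f n := by
      rw [← sum_filter, Int.cast_sum, sum_mul]
      refine sum_congr ?_ fun _ _ => rfl
      ext d
      simp only [mem_filter, Nat.mem_divisors]
      constructor
      · rintro ⟨⟨h4, _⟩, h5⟩
        exact ⟨Nat.dvd_gcd h5 h4, Nat.gcd_ne_zero_right hN⟩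
      · rintro ⟨h4, _⟩
        exact ⟨⟨h4.trans (Nat.gcd_dvd_right _ _), hN⟩, h4.trans (Nat.gcd_dvd_left _ _)⟩
    rw [h3, h2]
    by_cases hc : n.Coprime N
    · have hc' : Nat.gcd n N = 1 := hc
      rw [if_pos hc, if_pos hc']; simp
    · have hc' : ¬ Nat.gcd n N = 1 := hc
      rw [if_neg hc, if_neg hc']; simp
  rw [sum_filter, sum_congr rfl h1, sum_comm, sum_filter]
  refine sum_congr rfl fun d _ => ?_
  by_cases hd : Squarefree d
  · rw [if_pos hd, mul_sum, sum_filter]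
  · rw [if_neg hd]
    refine sum_eq_zero fun n _ => ?_
    rw [ArithmeticFunction.moebius_eq_zero_of_not_squarefree hd]
    simp

open Classical in
private theorem swc_tail (θ : ℝ) (h0 : 0 < θ) (h1 : θ ≤ 1) (A : ℕ) : ∃ N0 : ℕ, ∀ N : ℕ, N0 ≤ N → ∀ y : ℝ,
    Real.exp ((Real.log N) ^ θ) ≤ y →
    ∑ d ∈ N.divisors.filter (fun d : ℕ => Squarefree d ∧ Real.sqrt y < (d : ℝ)), 1 / (d : ℝ) ≤
      1 / (Real.log N) ^ A := by
  obtain ⟨N1, hN1⟩ := sqf_tail θ h0 h1 A
  refine ⟨N1, fun N hN y hy => ?_⟩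
  have h := hN1 N hN y hy
  first
  | exact h
  | (refine le_trans ?_ h
     have hinj : Set.InjOn (fun d : ℕ => (d : ℝ))
         (N.divisors.filter (fun d : ℕ => Squarefree d ∧ Real.sqrt y < (d : ℝ)) : Set ℕ) :=
       fun a _ b _ hab => Nat.cast_injective hab
     have e1 : ∑ d ∈ N.divisors.filter (fun d : ℕ => Squarefree d ∧ Real.sqrt y < (d : ℝ)),
         1 / (d : ℝ) = ∑ r ∈ (N.divisors.filter (fun d : ℕ => Squarefree d ∧
         Real.sqrt y < (d : ℝ))).image (fun d : ℕ => (d : ℝ)), 1 / r := (sum_image hinj).symm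
     rw [e1]
     refine sum_le_sum_of_subset_of_nonneg ?_ ?_
     · intro r hr
       obtain ⟨d, hd, rfl⟩ := mem_image.mp hr
       have h2 := mem_filter.mp hd
       have h3 : (d : ℝ) ≠ 0 := by
         exact_mod_cast (Nat.pos_of_mem_divisors h2.1).ne'
       refine mem_filter.mpr ⟨?_, ?_, h2.2.2⟩
       · simp only [Finset.bind_def, Finset.mem_sup]
         exact ⟨d, h2.1, by simp⟩
       · exact (IsUnit.mk0 _ h3).squarefree
     · intro r hr _
       have h2 := (mem_filter.mp hr).2.2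
       have h3 : 0 ≤ r := (Real.sqrt_nonneg y).trans h2.le
       positivity)

open Classical in
private theorem swc_sum (θ : ℝ) (h0 : 0 < θ) (h1 : θ ≤ 1) (A A' : ℕ) (hA' : (A : ℝ) + 3 ≤ A' * θ)
    (C0 C1 : ℝ) (hC0 : 0 ≤ C0) (hC1 : 0 ≤ C1) : ∃ N0 : ℕ, ∀ N : ℕ, N0 ≤ N → ∀ y : ℝ,
    Real.exp ((Real.log N) ^ θ) ≤ y → ∀ g : ℕ → ℝ,
    (∀ d ∈ N.divisors, √y < d → g d ≤ C0 / d) →
    (∀ d ∈ N.divisors, (d : ℝ) ≤ √y → g d ≤ C1 / (d * ((Real.log N) ^ θ) ^ A')) →
    ∑ d ∈ N.divisors.filter (fun d => Squarefree d), g d ≤ 1 / (Real.log N) ^ A := by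
  obtain ⟨N1, hN1⟩ := swc_tail θ h0 h1 (A + 3)
  obtain ⟨N2, hN2⟩ := sqf_sum
  obtain ⟨N3, hN3⟩ := (((Real.tendsto_log_atTop.comp tendsto_natCast_atTop_atTop).eventually
    (Filter.eventually_ge_atTop (C0 + C1 + 1)))).exists_forall_of_atTop
  refine ⟨max N1 (max N2 N3), fun N hN y hy g hg0 hg1 => ?_⟩
  have hK : C0 + C1 + 1 ≤ Real.log N := hN3 N ((le_max_right _ _).trans ((le_max_right _ _).trans hN))
  set K : ℝ := Real.log N with hKdef
  have hK1 : 1 ≤ K := by linarith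
  have hK0 : 0 < K := by linarith
  have htail := hN1 N ((le_max_left _ _).trans hN) y hy
  have hsum := hN2 N ((le_max_left _ _).trans ((le_max_right _ _).trans hN))
  have hpow : K ^ (A + 3) ≤ (K ^ θ) ^ A' := by
    rw [← Real.rpow_natCast, ← Real.rpow_natCast, ← Real.rpow_mul hK0.le]
    refine Real.rpow_le_rpow_of_exponent_le hK1 ?_
    push_cast
    linarith
  have hsplit : ∑ d ∈ N.divisors.filter (fun d => Squarefree d), g d =
      ∑ d ∈ N.divisors.filter (fun d : ℕ => Squarefree d ∧ √y < (d : ℝ)), g d +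
      ∑ d ∈ N.divisors.filter (fun d : ℕ => Squarefree d ∧ ¬ √y < (d : ℝ)), g d := by
    rw [← sum_filter_add_sum_filter_not (N.divisors.filter (fun d => Squarefree d))
      (fun d : ℕ => √y < (d : ℝ)), filter_filter, filter_filter]
  have hA : ∑ d ∈ N.divisors.filter (fun d : ℕ => Squarefree d ∧ √y < (d : ℝ)), g d ≤ C0 / K ^ (A + 3) := by
    calc ∑ d ∈ N.divisors.filter (fun d : ℕ => Squarefree d ∧ √y < (d : ℝ)), g d
        ≤ ∑ d ∈ N.divisors.filter (fun d : ℕ => Squarefree d ∧ √y < (d : ℝ)), C0 * (1 / (d : ℝ)) := by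
          refine sum_le_sum fun d hd => ?_
          have h3 := mem_filter.mp hd
          have h4 := hg0 d h3.1 h3.2.2
          rw [mul_one_div]
          exact h4
      _ = C0 * ∑ d ∈ N.divisors.filter (fun d : ℕ => Squarefree d ∧ √y < (d : ℝ)), 1 / (d : ℝ) := by
          rw [mul_sum]
      _ ≤ C0 * (1 / K ^ (A + 3)) := mul_le_mul_of_nonneg_left htail hC0
      _ = C0 / K ^ (A + 3) := by rw [mul_one_div]
  have hB : ∑ d ∈ N.divisors.filter (fun d : ℕ => Squarefree d ∧ ¬ √y < (d : ℝ)), g d ≤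
      C1 / K ^ (A + 3) * K := by
    calc ∑ d ∈ N.divisors.filter (fun d : ℕ => Squarefree d ∧ ¬ √y < (d : ℝ)), g d
        ≤ ∑ d ∈ N.divisors.filter (fun d : ℕ => Squarefree d ∧ ¬ √y < (d : ℝ)), C1 / K ^ (A + 3) *
          (1 / (d : ℝ)) := by
          refine sum_le_sum fun d hd => ?_
          have h3 := mem_filter.mp hd
          have h4 := hg1 d h3.1 (not_lt.mp h3.2.2)
          refine h4.trans ?_
          have hd0 : (0 : ℝ) < d := by
            exact_mod_cast Nat.pos_of_mem_divisors h3.1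
          rw [div_mul_div_comm, mul_one, mul_comm (K ^ (A + 3))]
          exact div_le_div_of_nonneg_left hC1 (by positivity)
            (mul_le_mul_of_nonneg_left hpow hd0.le)
      _ = C1 / K ^ (A + 3) * ∑ d ∈ N.divisors.filter (fun d : ℕ => Squarefree d ∧ ¬ √y < (d : ℝ)), 1 / (d : ℝ) := by
          rw [mul_sum]
      _ ≤ C1 / K ^ (A + 3) * K := by
          refine mul_le_mul_of_nonneg_left ?_ (by positivity)
          refine le_trans (sum_le_sum_of_subset_of_nonneg ?_ ?_) hsum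
          · intro d hd
            have h3 := mem_filter.mp hd
            exact mem_filter.mpr ⟨h3.1, h3.2.1⟩
          · intro d _ _
            positivity
  rw [hsplit]
  have e1 : C0 / K ^ (A + 3) ≤ C0 / K ^ (A + 2) :=
    div_le_div_of_nonneg_left hC0 (by positivity) (pow_le_pow_right₀ hK1 (by omega))
  have e2 : C1 / K ^ (A + 3) * K = C1 / K ^ (A + 2) := by
    rw [show A + 3 = (A + 2) + 1 from rfl, pow_succ K (A + 2)]
    field_simp
  have e3 : C0 / K ^ (A + 2) + C1 / K ^ (A + 2) ≤ 1 / K ^ A := by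
    rw [← add_div, pow_add, div_le_div_iff₀ (by positivity) (by positivity), one_mul]
    have e4 : C0 + C1 ≤ K ^ 2 := by nlinarith
    have e5 : 0 < K ^ A := by positivity
    nlinarith
  linarith

private theorem swc_quot {y d : ℕ} (hd : 1 ≤ d) (hy : 16 ≤ y) (hdy : (d : ℝ) ≤ √(y : ℝ)) :
    2 ≤ (y - 1) / d ∧ Real.log y / 4 ≤ Real.log (((y - 1) / d : ℕ) : ℝ) := by
  have hyR : (16 : ℝ) ≤ y := by exact_mod_cast hy
  have hd0 : (0 : ℝ) < d := by exact_mod_cast hd
  set t : ℝ := √(y : ℝ) with ht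
  have ht4 : 4 ≤ t := by
    rw [ht]
    exact Real.le_sqrt_of_sq_le (by norm_num; exact_mod_cast hyR)
  have htt : t * t = y := Real.mul_self_sqrt (by linarith)
  have h1 : y - 1 < d * ((y - 1) / d + 1) := Nat.lt_mul_div_succ _ (by omega)
  have h2 : ((y : ℝ) - 1) < d * ((((y - 1) / d : ℕ) : ℝ) + 1) := by
    have h3 : ((y - 1 : ℕ) : ℝ) < ((d * ((y - 1) / d + 1) : ℕ) : ℝ) := by exact_mod_cast h1
    rw [Nat.cast_sub (by omega)] at h3
    push_cast at h3
    exact h3
  set Q : ℝ := (((y - 1) / d : ℕ) : ℝ) with hQ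
  have hQ0 : 0 ≤ Q := Nat.cast_nonneg _
  have h3 : t - 2 ≤ Q := by
    have h4 : (d : ℝ) * (Q + 1) ≤ t * (Q + 1) := mul_le_mul_of_nonneg_right hdy (by linarith)
    have h5 : t * t - 1 < t * (Q + 1) := by rw [htt]; linarith
    nlinarith
  have h6 : t / 2 ≤ Q := by linarith
  constructor
  · have : (2 : ℝ) ≤ Q := by linarith
    rw [hQ] at this
    exact_mod_cast this
  · have h7 : √t ≤ Q := by
      refine le_trans ?_ h6
      rw [Real.sqrt_le_left (by linarith)]
      nlinarith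
    have ht0 : 0 < t := by linarith
    have h8 : Real.log √t = Real.log y / 4 := by
      rw [Real.log_sqrt ht0.le, ht, Real.log_sqrt (by linarith)]
      ring
    rw [← h8]
    exact Real.log_le_log (Real.sqrt_pos.mpr ht0) h7

open Classical in
/-- multiples of `d` -/
private theorem swc_mult (W a y d : ℕ) (hd : 1 ≤ d) (f : ℕ → ℝ) :
    ∑ n ∈ ((Finset.Icc 1 (y - 1)).filter (fun n => n ≡ a [MOD W])).filter (fun n => d ∣ n), f n =
      ∑ m ∈ (Finset.Icc 1 ((y - 1) / d)).filter (fun m => d * m ≡ a [MOD W]), f (d * m) := by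
  symm
  refine sum_nbij (fun m => d * m) ?_ ?_ ?_ fun _ _ => rfl
  · intro m hm
    have h1 := mem_filter.mp hm
    have h2 := mem_Icc.mp h1.1
    refine mem_filter.mpr ⟨mem_filter.mpr ⟨mem_Icc.mpr ⟨?_, ?_⟩, h1.2⟩, Dvd.intro _ rfl⟩
    · exact Nat.mul_pos (by omega) (by omega)
    · exact (Nat.mul_le_mul_left d h2.2).trans (Nat.mul_div_le _ _)
  · intro m _ m' _ h
    exact Nat.eq_of_mul_eq_mul_left (by omega) h
  · intro n hn
    have h1 := mem_filter.mp hn
    have h2 := mem_filter.mp h1.1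
    have h3 := mem_Icc.mp h2.1
    obtain ⟨m, hm⟩ := h1.2
    have hm' : d * m = n := hm.symm
    refine ⟨m, ?_, hm'⟩
    refine mem_coe.mpr (mem_filter.mpr ⟨mem_Icc.mpr ⟨?_, ?_⟩, ?_⟩)
    · rcases Nat.eq_zero_or_pos m with h | h
      · rw [h, mul_zero] at hm'
        omega
      · exact h
    · rw [Nat.le_div_iff_mul_le (by omega), mul_comm, hm']
      exact h3.2
    · rw [hm']
      exact h2.2

open Classical in
private theorem swc_lc (A : ℕ) : ∃ C : ℝ, 0 < C ∧ ∀ W : ℕ, 1 ≤ W → ∀ a Y : ℕ, 2 ≤ Y →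
    |∑ n ∈ (Finset.Icc 1 Y).filter (fun n => n ≡ a [MOD W]), lam n| ≤ C * Y / (Real.log Y) ^ A := by
  obtain ⟨C, hC, h⟩ := Pool.Agent.Lib.MP_7b7e48_nt.LG.LA1 A
  refine ⟨C, hC, fun W hW a Y hY => ?_⟩
  have hWR : (0 : ℝ) < W := by exact_mod_cast hW
  have hWC : (W : ℂ) ≠ 0 := by exact_mod_cast (Nat.pos_iff_ne_zero.mp hW)
  have key : (W : ℂ) * ((∑ n ∈ (Finset.Icc 1 Y).filter (fun n => n ≡ a [MOD W]), lam n : ℝ) : ℂ) =
      ∑ k ∈ Finset.range W, Pool.Agent.Lib.GT.e (-((k : ℝ) * a / W)) *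
        ∑ n ∈ Finset.Icc 1 Y, ((lam n : ℝ) : ℂ) *
          Pool.Agent.Lib.GT.e ((n : ℝ) * ((k : ℝ) / W)) := by
    have h1 : ∀ n ∈ Finset.Icc 1 Y, (W : ℂ) * (if n ≡ a [MOD W] then ((lam n : ℝ) : ℂ) else 0) =
        ∑ k ∈ Finset.range W, Pool.Agent.Lib.GT.e (-((k : ℝ) * a / W)) *
          (((lam n : ℝ) : ℂ) * Pool.Agent.Lib.GT.e ((n : ℝ) * ((k : ℝ) / W))) := by
      intro n _
      have h2 := Pool.Agent.Lib.GT.sum_e_mod (W := W) hW ((n : ℤ) - (a : ℤ))
      have h3 : ∀ k ∈ Finset.range W, Pool.Agent.Lib.GT.e (-((k : ℝ) * a / W)) *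
          (((lam n : ℝ) : ℂ) * Pool.Agent.Lib.GT.e ((n : ℝ) * ((k : ℝ) / W))) =
          ((lam n : ℝ) : ℂ) *
            Pool.Agent.Lib.GT.e ((k : ℝ) * (((n : ℤ) - (a : ℤ) : ℤ) : ℝ) / W) := by
        intro k _
        have h4 : Pool.Agent.Lib.GT.e ((k : ℝ) * (((n : ℤ) - (a : ℤ) : ℤ) : ℝ) / W) =
            Pool.Agent.Lib.GT.e (-((k : ℝ) * a / W)) *
              Pool.Agent.Lib.GT.e ((n : ℝ) * ((k : ℝ) / W)) := by
          rw [← Pool.Agent.Lib.GT.e_add]
          congr 1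
          push_cast
          ring
        rw [h4]
        ring
      rw [Finset.sum_congr rfl h3, ← Finset.mul_sum, h2]
      have h5 : (n ≡ a [MOD W]) ↔ ((W : ℤ) ∣ ((n : ℤ) - (a : ℤ))) := by
        rw [Nat.ModEq.comm]
        exact Nat.modEq_iff_dvd
      by_cases h6 : n ≡ a [MOD W]
      · rw [if_pos h6, if_pos (h5.mp h6), mul_comm]
      · rw [if_neg h6, if_neg (fun h7 => h6 (h5.mpr h7)), mul_zero, mul_zero]
    rw [Complex.ofReal_sum, Finset.sum_filter, Finset.mul_sum, Finset.sum_congr rfl h1,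
      Finset.sum_comm]
    refine Finset.sum_congr rfl fun k _ => ?_
    rw [Finset.mul_sum]
  have h8 : ‖(W : ℂ) * ((∑ n ∈ (Finset.Icc 1 Y).filter (fun n => n ≡ a [MOD W]), lam n : ℝ) : ℂ)‖ ≤
      W * (C * Y / (Real.log Y) ^ A) := by
    rw [key]
    refine (norm_sum_le _ _).trans ?_
    calc ∑ k ∈ Finset.range W, ‖Pool.Agent.Lib.GT.e (-((k : ℝ) * a / W)) *
        ∑ n ∈ Finset.Icc 1 Y, ((lam n : ℝ) : ℂ) *
          Pool.Agent.Lib.GT.e ((n : ℝ) * ((k : ℝ) / W))‖
        ≤ ∑ k ∈ Finset.range W, C * Y / (Real.log Y) ^ A := by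
          refine Finset.sum_le_sum fun k _ => ?_
          rw [norm_mul, Pool.Agent.Lib.MP_7b7e48_nt.LG.LA1_norm_e, one_mul]
          exact h Y hY _
      _ = W * (C * Y / (Real.log Y) ^ A) := by
          rw [Finset.sum_const, Finset.card_range, nsmul_eq_mul]
  rw [norm_mul, Complex.norm_natCast, Complex.norm_real, Real.norm_eq_abs] at h8
  exact le_of_mul_le_mul_left h8 hWR

open Classical in
private theorem swc_class (A' : ℕ) : ∃ C : ℝ, 0 < C ∧ ∀ W : ℕ, 1 ≤ W → ∀ a d Y : ℕ, a.Coprime W →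
    2 ≤ Y → |∑ m ∈ (Finset.Icc 1 Y).filter (fun m => d * m ≡ a [MOD W]), lam m| ≤
      C * Y / (Real.log Y) ^ A' := by
  obtain ⟨C, hC, h⟩ := swc_lc A'
  refine ⟨C, hC, fun W hW a d Y ha hY => ?_⟩
  have hYR : (2 : ℝ) ≤ Y := by exact_mod_cast hY
  have hlog : 0 < Real.log Y := Real.log_pos (by linarith)
  have hb0 : 0 ≤ C * Y / (Real.log Y) ^ A' := by positivity
  have : NeZero W := ⟨by omega⟩
  by_cases hdW : d.Coprime W
  · set u : (ZMod W)ˣ := ZMod.unitOfCoprime d hdW with hu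
    set b : ℕ := (((u⁻¹ : (ZMod W)ˣ) : ZMod W) * (a : ZMod W)).val with hb
    have h1 : ∀ m : ℕ, (d * m ≡ a [MOD W]) ↔ (m ≡ b [MOD W]) := by
      intro m
      rw [← ZMod.natCast_eq_natCast_iff, ← ZMod.natCast_eq_natCast_iff, hb, ZMod.natCast_val,
        ZMod.cast_id, Nat.cast_mul]
      have h2 : ((d : ℕ) : ZMod W) = (u : ZMod W) := by rw [hu, ZMod.coe_unitOfCoprime]
      rw [h2]
      constructor
      · intro h3
        rw [← h3, Units.inv_mul_cancel_left]
      · intro h3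
        rw [h3, Units.mul_inv_cancel_left]
    have h2 : (Finset.Icc 1 Y).filter (fun m => d * m ≡ a [MOD W]) =
        (Finset.Icc 1 Y).filter (fun m => m ≡ b [MOD W]) := by
      ext m
      rw [mem_filter, mem_filter, h1 m]
    rw [h2]
    exact h W hW b Y hY
  · have h2 : (Finset.Icc 1 Y).filter (fun m => d * m ≡ a [MOD W]) = ∅ := by
      rw [filter_eq_empty_iff]
      intro m _ hm
      apply hdW
      have h3 : Nat.gcd d W ∣ a := by
        have h4 : Nat.gcd d W ∣ W := Nat.gcd_dvd_right _ _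
        have h5 : d * m ≡ a [MOD Nat.gcd d W] := hm.of_dvd h4
        have h6 : Nat.gcd d W ∣ d * m := Dvd.dvd.mul_right (Nat.gcd_dvd_left _ _) _
        exact (h5.dvd_iff dvd_rfl).mp h6
      have h7 : Nat.gcd d W ∣ Nat.gcd a W := Nat.dvd_gcd h3 (Nat.gcd_dvd_right _ _)
      rw [ha] at h7
      exact Nat.dvd_one.mp h7
    rw [h2, sum_empty, abs_zero]
    exact hb0

private theorem lam_dom_u (θ : ℝ) (h0 : 0 < θ) (h1 : θ ≤ 1) (A : ℕ) : ∃ N0 : ℕ, ∀ N : ℕ, N0 ≤ N →
    ∀ W : ℕ, 1 ≤ W → ∀ a y : ℕ, a.Coprime W → Real.exp ((Real.log N) ^ θ) ≤ y →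
    |∑ n ∈ Dom N W a y, lam n| ≤ y / (Real.log N) ^ A := by
  classical
  obtain ⟨A', hA'⟩ : ∃ A' : ℕ, (A : ℝ) + 3 ≤ A' * θ := by
    obtain ⟨k, hk⟩ := exists_nat_ge (((A : ℝ) + 3) / θ)
    refine ⟨k, ?_⟩
    rwa [div_le_iff₀ h0] at hk
  obtain ⟨C, hC, hcl⟩ := swc_class A'
  obtain ⟨N1, hN1⟩ := swc_sum θ h0 h1 A A' hA' 1 (C * 4 ^ A') zero_le_one (by positivity)
  obtain ⟨N2, hN2⟩ := ((((tendsto_rpow_atTop h0).comp
    (Real.tendsto_log_atTop.comp tendsto_natCast_atTop_atTop)).eventually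
    (Filter.eventually_ge_atTop (16 : ℝ)))).exists_forall_of_atTop
  obtain ⟨N3, hN3⟩ := (((Real.tendsto_log_atTop.comp tendsto_natCast_atTop_atTop).eventually
    (Filter.eventually_ge_atTop (1 : ℝ)))).exists_forall_of_atTop
  refine ⟨max (max N1 2) (max N2 N3), fun N hN W hW a y ha hy => ?_⟩
  have hNN1 : N1 ≤ N := (le_max_left _ _).trans ((le_max_left _ _).trans hN)
  have hN2' : 2 ≤ N := (le_max_right _ _).trans ((le_max_left _ _).trans hN)
  have hK16 : (16 : ℝ) ≤ (Real.log N) ^ θ := hN2 N ((le_max_left _ _).trans ((le_max_right _ _).trans hN))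
  have hK1 : (1 : ℝ) ≤ Real.log N := hN3 N ((le_max_right _ _).trans ((le_max_right _ _).trans hN))
  have hN0 : N ≠ 0 := by omega
  have hy16 : (16 : ℝ) ≤ y := by
    have h2 := Real.add_one_le_exp ((Real.log N) ^ θ)
    linarith
  have hy16' : 16 ≤ y := by exact_mod_cast hy16
  have hlogy : (Real.log N) ^ θ ≤ Real.log y := by
    have h2 := Real.log_le_log (Real.exp_pos _) hy
    rwa [Real.log_exp] at h2
  have hy0 : (0 : ℝ) < y := by linarith
  set K : ℝ := Real.log N with hKdef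
  -- the domain
  have hdom : Dom N W a y =
      ((Finset.Icc 1 (y - 1)).filter (fun n => n ≡ a [MOD W])).filter (fun n => n.Coprime N) := by
    ext n
    unfold Dom
    rw [filter_filter, mem_filter, mem_filter, mem_range, mem_Icc]
    constructor
    · rintro ⟨h2, h3, h4⟩
      refine ⟨⟨?_, by omega⟩, h3, h4⟩
      rcases Nat.eq_zero_or_pos n with h5 | h5
      · rw [h5, Nat.coprime_zero_left] at h4
        omega
      · exact h5
    · rintro ⟨⟨h2, h3⟩, h4, h5⟩
      exact ⟨by omega, h4, h5⟩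
  rw [hdom, swc_cop N hN0 lam _]
  set T : ℕ → ℝ := fun d => ∑ n ∈ ((Finset.Icc 1 (y - 1)).filter (fun n => n ≡ a [MOD W])).filter
    (fun n => d ∣ n), lam n with hT
  have hTle : ∀ d ∈ N.divisors, |T d| / y ≤ 1 / d := by
    intro d hd
    have hdpos : 1 ≤ d := Nat.pos_of_mem_divisors hd
    have hd0 : (0 : ℝ) < d := by exact_mod_cast hdpos
    have h2 : |T d| ≤ (((y - 1) / d : ℕ) : ℝ) := by
      rw [hT]
      simp only
      rw [swc_mult W a y d hdpos]
      refine (abs_sum_le_sum_abs _ _).trans ?_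
      rw [sum_congr rfl fun m _ => Pool.Agent.Lib.MP_45349e_nt.LS.abs_lam (d * m)]
      rw [sum_const, nsmul_eq_mul, mul_one]
      have h3 : ((Finset.Icc 1 ((y - 1) / d)).filter (fun m => d * m ≡ a [MOD W])).card ≤
          (y - 1) / d := by
        refine (card_filter_le _ _).trans ?_
        rw [Nat.card_Icc, Nat.add_sub_cancel]
      exact_mod_cast h3
    have h3 : (((y - 1) / d : ℕ) : ℝ) ≤ y / d := by
      refine Nat.cast_div_le.trans ?_
      refine div_le_div_of_nonneg_right ?_ hd0.le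
      exact_mod_cast Nat.sub_le _ _
    rw [div_le_div_iff₀ hy0 hd0, one_mul]
    have h4 := h2.trans h3
    rwa [le_div_iff₀ hd0] at h4
  have hTsm : ∀ d ∈ N.divisors, (d : ℝ) ≤ √(y : ℝ) → |T d| / y ≤ C * 4 ^ A' / (d * (K ^ θ) ^ A') := by
    intro d hd hdy
    have hdpos : 1 ≤ d := Nat.pos_of_mem_divisors hd
    have hd0 : (0 : ℝ) < d := by exact_mod_cast hdpos
    obtain ⟨hq2, hqlog⟩ := swc_quot hdpos hy16' hdy
    have h2 : T d = lam d * ∑ m ∈ (Finset.Icc 1 ((y - 1) / d)).filter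
        (fun m => d * m ≡ a [MOD W]), lam m := by
      rw [hT]
      simp only
      rw [swc_mult W a y d hdpos, mul_sum]
      refine sum_congr rfl fun m hm => ?_
      have h3 := mem_Icc.mp (mem_filter.mp hm).1
      exact Pool.Agent.Lib.MP_45349e_nt.LS.lam_mul d m (by omega) (by omega)
    have h3 := hcl W hW a d ((y - 1) / d) ha hq2
    rw [h2, abs_mul, Pool.Agent.Lib.MP_45349e_nt.LS.abs_lam, one_mul]
    set Q : ℝ := (((y - 1) / d : ℕ) : ℝ) with hQ
    have hQ0 : (0 : ℝ) ≤ Q := Nat.cast_nonneg _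
    have hQy : Q ≤ y / d := by
      refine Nat.cast_div_le.trans ?_
      refine div_le_div_of_nonneg_right ?_ hd0.le
      exact_mod_cast Nat.sub_le _ _
    have hKt : 0 < K ^ θ := by linarith
    have h4 : K ^ θ / 4 ≤ Real.log Q := by linarith
    have h5 : (K ^ θ / 4) ^ A' ≤ Real.log Q ^ A' := pow_le_pow_left₀ (by positivity) h4 _
    have h6 : C * Q / Real.log Q ^ A' ≤ C * (y / d) / (K ^ θ / 4) ^ A' :=
      div_le_div₀ (by positivity) (mul_le_mul_of_nonneg_left hQy hC.le) (by positivity) h5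
    have h7 : C * (y / d) / (K ^ θ / 4) ^ A' = (C * 4 ^ A' / (d * (K ^ θ) ^ A')) * y := by
      rw [div_pow]
      field_simp
    rw [div_le_iff₀ hy0, ← h7]
    exact h3.trans h6
  have hfin := hN1 N hNN1 (y : ℝ) hy (fun d => |T d| / y) (fun d hd _ => hTle d hd) hTsm
  have h2 : |∑ d ∈ N.divisors.filter (fun d => Squarefree d), ((ArithmeticFunction.moebius d : ℤ) : ℝ) *
      T d| ≤ ∑ d ∈ N.divisors.filter (fun d => Squarefree d), |T d| := by
    refine (abs_sum_le_sum_abs _ _).trans (sum_le_sum fun d _ => ?_)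
    rw [abs_mul]
    have h3 : |((ArithmeticFunction.moebius d : ℤ) : ℝ)| ≤ 1 := by
      have h4 := ArithmeticFunction.abs_moebius_le_one (n := d)
      exact_mod_cast h4
    calc |((ArithmeticFunction.moebius d : ℤ) : ℝ)| * |T d| ≤ 1 * |T d| :=
          mul_le_mul_of_nonneg_right h3 (abs_nonneg _)
      _ = |T d| := one_mul _
  refine h2.trans ?_
  rw [← sum_div, div_le_div_iff₀ hy0 (by positivity), one_mul] at hfin
  rw [le_div_iff₀ (by positivity)]
  exact hfin

/-- `lam` in the classes modulo `d`, coprime to `N`, uniformly in `d` -/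
private theorem swc_cpu (A : ℕ) : ∃ N0 : ℕ, ∀ N : ℕ, N0 ≤ N → ∀ d r : ℕ, 1 ≤ d → r.Coprime d →
    |∑ n ∈ (Finset.range N).filter (fun n => n % d = r % d ∧ n.Coprime N), lam n| ≤
      N / (Real.log N) ^ A := by
  classical
  obtain ⟨N1, hN1⟩ := lam_dom_u 1 one_pos le_rfl A
  refine ⟨max N1 1, fun N hN d r hd hr => ?_⟩
  have h1 : N1 ≤ N := (le_max_left _ _).trans hN
  have h2 : 1 ≤ N := (le_max_right _ _).trans hN
  have hNR : (0 : ℝ) < N := by exact_mod_cast h2
  have h3 := hN1 N h1 d hd r N hr (by rw [Real.rpow_one, Real.exp_log hNR])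
  have h4 : Dom N d r N = (Finset.range N).filter (fun n => n % d = r % d ∧ n.Coprime N) := by
    unfold Dom
    ext n
    simp only [mem_filter, mem_range, Nat.ModEq]
  rwa [h4] at h3

/-- `lam` in the classes modulo `d`, coprime to `N`, uniformly for `d ≤ (log N)^B` -/
theorem lam_cop (A : ℕ) : ∃ N0 : ℕ, ∀ N : ℕ, N0 ≤ N → ∀ d r : ℕ, 1 ≤ d → r.Coprime d →
    |∑ n ∈ (Finset.range N).filter (fun n => n % d = r % d ∧ n.Coprime N), lam n| ≤
      d * N / (Real.log N) ^ A := by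
  obtain ⟨N1, hN1⟩ := swc_cpu A
  refine ⟨max N1 1, fun N hN d r hd hr => ?_⟩
  have h1 : N1 ≤ N := (le_max_left _ _).trans hN
  have h2 : 1 ≤ N := (le_max_right _ _).trans hN
  refine (hN1 N h1 d r hd hr).trans ?_
  have hlog : 0 ≤ Real.log N := Real.log_nonneg (by exact_mod_cast h2)
  refine div_le_div_of_nonneg_right ?_ (by positivity)
  have hdR : (1 : ℝ) ≤ d := by exact_mod_cast hd
  nlinarith [(Nat.cast_nonneg N : (0 : ℝ) ≤ N)]

private theorem swc_gg {q : ℕ} (χ : DirichletCharacter ℂ q) (n : ℕ) :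
    gg (-1) χ n = ((lam n : ℝ) : ℂ) * χ (n : ZMod q) := by
  unfold gg lam Pool.Agent.Lib.OWS.om
  rw [ArithmeticFunction.cardFactors_apply]
  push_cast
  rfl

private theorem swc_pt {q : ℕ} [NeZero q] (χ : DirichletCharacter ℂ q) (c : ℂ) {n : ℕ}
    (hn : n.Coprime q) :
    1 - 2 * (lam n * (χ (n : ZMod q) * (starRingEnd ℂ) c).re) ≤ ‖gg (-1) χ n - c‖ ^ 2 := by
  have h1 : ‖gg (-1) χ n‖ = 1 := Pool.Agent.Lib.OWS.gg_norm (by norm_num) χ hn
  have h2 : ‖gg (-1) χ n - c‖ ^ 2 = ‖gg (-1) χ n‖ ^ 2 + ‖c‖ ^ 2 -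
      2 * (gg (-1) χ n * (starRingEnd ℂ) c).re := by
    rw [← Complex.normSq_eq_norm_sq, ← Complex.normSq_eq_norm_sq, ← Complex.normSq_eq_norm_sq,
      Complex.normSq_sub]
  have h3 : (gg (-1) χ n * (starRingEnd ℂ) c).re =
      lam n * (χ (n : ZMod q) * (starRingEnd ℂ) c).re := by
    rw [swc_gg, mul_assoc, Complex.re_ofReal_mul]
  rw [h2, h1, h3]
  nlinarith [sq_nonneg ‖c‖]

theorem swc (W : ℕ) (hW : 1 ≤ W) (κ : ℝ) (hκ : 0 < κ) : ∃ ε : ℝ, 0 < ε ∧ ∀ B : ℕ, ∃ N0 : ℕ,
    ∀ N : ℕ, N0 ≤ N → κ * N ≤ N.totient → ∀ (a : ℕ) (χ : DirichletCharacter ℂ (W * N)), a.Coprime W →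
    Apx W N a ε χ → ∀ d : ℕ, d ∣ W * N → W ∣ d → (d : ℝ) ≤ (Real.log N) ^ B → Per χ d → False := by
  have hWR : (0 : ℝ) < W := by exact_mod_cast hW
  refine ⟨κ / (8 * W), by positivity, fun B => ?_⟩
  obtain ⟨N1, hN1⟩ := swc_cpu (B + 1)
  obtain ⟨N2, hN2⟩ := class_low W hW κ (1 / 2) hκ (by norm_num)
  obtain ⟨N3, hN3⟩ := (((Real.tendsto_log_atTop.comp tendsto_natCast_atTop_atTop).eventually
    (Filter.eventually_ge_atTop (16 * W / κ + 1)))).exists_forall_of_atTop
  refine ⟨max (max N1 N2) (max N3 4), fun N hN htot a χ ha hapx d hdWN hWd hdB hper => ?_⟩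
  have n1 : N1 ≤ N := (le_max_left _ _).trans ((le_max_left _ _).trans hN)
  have n2 : N2 ≤ N := (le_max_right _ _).trans ((le_max_left _ _).trans hN)
  have n3 : N3 ≤ N := (le_max_left _ _).trans ((le_max_right _ _).trans hN)
  have n4 : 4 ≤ N := (le_max_right _ _).trans ((le_max_right _ _).trans hN)
  have hlog : 16 * W / κ + 1 ≤ Real.log N := hN3 N n3
  have hN0 : (0 : ℝ) < N := by exact_mod_cast (by omega : 0 < N)
  have hN4 : (4 : ℝ) ≤ N := by exact_mod_cast n4
  have hq0 : W * N ≠ 0 := Nat.mul_ne_zero (by omega) (by omega)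
  have : NeZero (W * N) := ⟨hq0⟩
  have hd1 : 1 ≤ d := Nat.pos_of_dvd_of_pos hdWN (Nat.pos_of_ne_zero hq0)
  have hL1 : (1 : ℝ) ≤ Real.log N := by
    have : 0 ≤ 16 * (W : ℝ) / κ := by positivity
    linarith
  have hL0 : (0 : ℝ) < Real.log N := by linarith
  obtain ⟨c, hc, hsum⟩ := hapx
  -- lower bound for the class
  have hcl : κ / (2 * W) * ((N - 1 : ℕ) : ℝ) ≤ ((CL W N a).card : ℝ) := by
    have h1 := hN2 N n2 htot a (N - 1) ha (by
      rw [Nat.cast_sub (by omega), Nat.cast_one, ← Real.sqrt_eq_rpow]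
      rw [Real.sqrt_le_left (by linarith)]
      nlinarith)
    refine h1.trans ?_
    have h2 : (Finset.Icc 1 (N - 1)).filter (fun n => n % W = a % W ∧ n.Coprime (W * N)) ⊆
        CL W N a := by
      intro n hn
      unfold CL
      rw [mem_filter] at hn ⊢
      refine ⟨?_, hn.2⟩
      have := mem_Icc.mp hn.1
      rw [mem_range]
      omega
    exact_mod_cast card_le_card h2
  -- the classes modulo `d`
  have hmap : ∀ n ∈ CL W N a, n % d ∈ Finset.range d := fun n _ =>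
    mem_range.mpr (Nat.mod_lt _ (by omega))
  have hr : ∀ r ∈ Finset.range d,
      (((CL W N a).filter (fun n => n % d = r)).card : ℝ) - 2 * (N / (Real.log N) ^ (B + 1)) ≤
      ∑ n ∈ (CL W N a).filter (fun n => n % d = r), ‖gg (-1) χ n - c‖ ^ 2 := by
    intro r hr
    have hrd : r < d := mem_range.mp hr
    rcases ((CL W N a).filter (fun n => n % d = r)).eq_empty_or_nonempty with h0 | ⟨n0, hn0⟩
    · rw [h0, card_empty, sum_empty, Nat.cast_zero]
      have : 0 ≤ (N : ℝ) / (Real.log N) ^ (B + 1) := by positivity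
      linarith
    · have hn0' := mem_filter.mp hn0
      have hn0c : n0 % W = a % W ∧ n0.Coprime (W * N) := (mem_filter.mp hn0'.1).2
      have hrcop : r.Coprime d := by
        have h1 : n0.Coprime d := Nat.Coprime.coprime_dvd_right hdWN hn0c.2
        have h2 : (n0 % d).Coprime d := by
          rw [Nat.Coprime, ← Nat.gcd_rec, Nat.gcd_comm]
          exact h1
        rwa [hn0'.2] at h2
      have hrW : r % W = a % W := by
        rw [← hn0'.2, Nat.mod_mod_of_dvd _ hWd]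
        exact hn0c.1
      have hset : (CL W N a).filter (fun n => n % d = r) =
          (Finset.range N).filter (fun n => n % d = r % d ∧ n.Coprime N) := by
        ext n
        unfold CL
        rw [mem_filter, mem_filter, mem_filter, Nat.mod_eq_of_lt hrd]
        constructor
        · rintro ⟨⟨h1, _, h3⟩, h4⟩
          exact ⟨h1, h4, Nat.Coprime.coprime_mul_left_right h3⟩
        · rintro ⟨h1, h2, h3⟩
          have h4 : n % W = a % W := by
            rw [← hrW, ← h2, Nat.mod_mod_of_dvd _ hWd]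
          refine ⟨⟨h1, h4, ?_⟩, h2⟩
          refine Nat.Coprime.mul_right ?_ h3
          have h5 : Nat.gcd W n = Nat.gcd W a := by
            rw [Nat.gcd_rec W n, h4, ← Nat.gcd_rec]
          rw [Nat.Coprime, Nat.gcd_comm, h5, Nat.gcd_comm]
          exact ha
      set S := (CL W N a).filter (fun n => n % d = r) with hS
      have hlamS : |∑ n ∈ S, lam n| ≤ N / (Real.log N) ^ (B + 1) := by
        rw [hset]
        exact hN1 N n1 d r hd1 hrcop
      have hconst : ∀ n ∈ S, χ (n : ZMod (W * N)) = χ (n0 : ZMod (W * N)) := by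
        intro n hn
        have hn' := mem_filter.mp hn
        have hnc : n % W = a % W ∧ n.Coprime (W * N) := (mem_filter.mp hn'.1).2
        refine hper n n0 hnc.2 hn0c.2 ?_
        unfold Nat.ModEq
        rw [hn'.2, hn0'.2]
      set t : ℝ := (χ (n0 : ZMod (W * N)) * (starRingEnd ℂ) c).re with ht
      have ht1 : |t| ≤ 1 := by
        refine (Complex.abs_re_le_norm _).trans ?_
        rw [norm_mul, RCLike.norm_conj]
        have h1 := DirichletCharacter.norm_le_one χ (n0 : ZMod (W * N))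
        calc ‖χ (n0 : ZMod (W * N))‖ * ‖c‖ ≤ 1 * 1 :=
              mul_le_mul h1 hc (norm_nonneg _) zero_le_one
          _ = 1 := one_mul _
      have h5 : ∑ n ∈ S, (1 - 2 * (lam n * t)) ≤ ∑ n ∈ S, ‖gg (-1) χ n - c‖ ^ 2 := by
        refine sum_le_sum fun n hn => ?_
        have hn' := mem_filter.mp hn
        have hnc : n % W = a % W ∧ n.Coprime (W * N) := (mem_filter.mp hn'.1).2
        have h6 := swc_pt χ c hnc.2
        rw [hconst n hn] at h6
        exact h6
      refine le_trans ?_ h5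
      rw [sum_sub_distrib, sum_const, nsmul_eq_mul, mul_one, ← mul_sum, ← sum_mul]
      have h7 : (∑ n ∈ S, lam n) * t ≤ N / (Real.log N) ^ (B + 1) := by
        calc (∑ n ∈ S, lam n) * t ≤ |(∑ n ∈ S, lam n) * t| := le_abs_self _
          _ = |∑ n ∈ S, lam n| * |t| := abs_mul _ _
          _ ≤ |∑ n ∈ S, lam n| * 1 := mul_le_mul_of_nonneg_left ht1 (abs_nonneg _)
          _ ≤ N / (Real.log N) ^ (B + 1) := by rw [mul_one]; exact hlamS
      linarith
  have htotal : ((CL W N a).card : ℝ) - d * (2 * (N / (Real.log N) ^ (B + 1))) ≤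
      ∑ n ∈ CL W N a, ‖gg (-1) χ n - c‖ ^ 2 := by
    rw [← sum_fiberwise_of_maps_to hmap (fun n => ‖gg (-1) χ n - c‖ ^ 2)]
    have h1 : ((CL W N a).card : ℝ) =
        ∑ r ∈ Finset.range d, (((CL W N a).filter (fun n => n % d = r)).card : ℝ) := by
      rw [card_eq_sum_card_fiberwise hmap]
      push_cast
      rfl
    have h2 : (d : ℝ) * (2 * (N / (Real.log N) ^ (B + 1))) =
        ∑ r ∈ Finset.range d, 2 * ((N : ℝ) / (Real.log N) ^ (B + 1)) := by
      rw [sum_const, card_range, nsmul_eq_mul]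
    rw [h1, h2, ← sum_sub_distrib]
    exact sum_le_sum hr
  have hdN : (d : ℝ) * (2 * (N / (Real.log N) ^ (B + 1))) ≤ 2 * (N / Real.log N) := by
    have h1 : (d : ℝ) * (2 * (N / (Real.log N) ^ (B + 1))) ≤
        (Real.log N) ^ B * (2 * (N / (Real.log N) ^ (B + 1))) :=
      mul_le_mul_of_nonneg_right hdB (by positivity)
    refine h1.trans (le_of_eq ?_)
    rw [pow_succ]
    field_simp
  have hfin : 2 * ((N : ℝ) / Real.log N) < κ / (8 * W) * N := by
    have h1 : 16 * (W : ℝ) / κ < Real.log N := by linarith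
    rw [div_lt_iff₀ hκ] at h1
    have h3 : κ / (8 * W) * N = κ * N / (8 * W) := by ring
    rw [h3, ← mul_div_assoc, div_lt_div_iff₀ hL0 (by positivity)]
    nlinarith
  have hN1' : ((N - 1 : ℕ) : ℝ) = N - 1 := by
    rw [Nat.cast_sub (by omega), Nat.cast_one]
  rw [hN1'] at hcl
  have h8 : κ / (2 * W) * ((N : ℝ) - 1) ≥ κ / (4 * W) * N := by
    have h9 : κ / (2 * W) = 2 * (κ / (4 * W)) := by field_simp; norm_num
    rw [h9]
    have h10 : 0 < κ / (4 * W) := by positivity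
    nlinarith
  have h11 : κ / (4 * W) * N = 2 * (κ / (8 * W) * N) := by field_simp; norm_num
  linarith

end Pool.Agent.Lib.PP
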