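import Pool.Agent.Lib.MP_7b7e48_nt.PP.ApxC
import Pool.Agent.Lib.MP_7b7e48_nt.PP.Rel2
import Pool.Agent.Lib.MP_7b7e48_nt.PP.PerG
import Pool.Agent.Lib.MP_7b7e48_nt.PP.Swc
import Pool.Agent.Lib.MP_7b7e48_nt.PP.Cnt

/-!
# PP: the theorem for classes
-/

open Finset

namespace Pool.Agent.Lib.PP

theorem main (W : ℕ) (hW : 1 ≤ W) (κ : ℝ) (hκ : 0 < κ) : ∃ c τ : ℝ, 0 < c ∧ 0 < τ ∧ ∀ B : ℕ, ∃ X0 : ℕ,
    ∀ X : ℕ, X0 ≤ X → ∃ q : ℕ, (Real.log X) ^ B < q ∧ ∀ N : ℕ, X ≤ N → (N : ℝ) ≤ (X : ℝ) ^ (1 + τ) →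
    κ * N ≤ N.totient → ¬ q ∣ N → ∀ a : ℕ, a ≤ N → a.Coprime W → (N - a).Coprime W → ∀ i j : ℕ,
    c * N ≤ (RP W N a i j).card := by
  classical
  obtain ⟨τ, hτ, ε1, hε1, X1, hrel⟩ := rel2 W hW κ hκ
  obtain ⟨ε2, hε2, hswc⟩ := swc W hW κ hκ
  obtain ⟨δ, hδ, N1, hapx⟩ := apx W hW κ (min ε1 ε2) hκ (lt_min hε1 hε2)
  obtain ⟨N2, hcnt⟩ := cnt W hW δ hδ
  refine ⟨δ / 4, τ, by positivity, hτ, ?_⟩
  intro B
  obtain ⟨N3, hsw⟩ := hswc (B + 1)
  obtain ⟨X4, hX4⟩ := (Real.tendsto_log_atTop.comp tendsto_natCast_atTop_atTop |>.eventually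
    (Filter.eventually_ge_atTop (W : ℝ))).exists_forall_of_atTop
  refine ⟨max (max (max X1 N1) (max N2 N3)) (max X4 3), ?_⟩
  intro X hX
  have hX1 : X1 ≤ X := (le_max_left _ _).trans ((le_max_left _ _).trans ((le_max_left _ _).trans hX))
  have hN1 : N1 ≤ X := (le_max_right _ _).trans ((le_max_left _ _).trans ((le_max_left _ _).trans hX))
  have hN2 : N2 ≤ X := (le_max_left _ _).trans ((le_max_right _ _).trans ((le_max_left _ _).trans hX))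
  have hN3 : N3 ≤ X := (le_max_right _ _).trans ((le_max_right _ _).trans ((le_max_left _ _).trans hX))
  have hX4' : X4 ≤ X := (le_max_left _ _).trans ((le_max_right _ _).trans hX)
  have hX3 : 3 ≤ X := (le_max_right _ _).trans ((le_max_right _ _).trans hX)
  obtain ⟨Bad, hBad⟩ : ∃ Bad : ℕ → Prop, Bad = fun N => X ≤ N ∧ (N : ℝ) ≤ (X : ℝ) ^ (1 + τ) ∧
      κ * N ≤ N.totient ∧ ∃ a : ℕ, a ≤ N ∧ a.Coprime W ∧ (N - a).Coprime W ∧ ∃ i j : ℕ,
      ((RP W N a i j).card : ℝ) < δ / 4 * N := ⟨_, rfl⟩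
  obtain ⟨S, hS⟩ : ∃ S : Finset ℕ, S = (Finset.range (⌊(X : ℝ) ^ (1 + τ)⌋₊ + 1)).filter Bad := ⟨_, rfl⟩
  have hmem : ∀ N, N ∈ S ↔ Bad N := by
    intro N
    rw [hS, mem_filter, mem_range]
    refine ⟨fun h => h.2, fun h => ⟨?_, h⟩⟩
    rw [hBad] at h
    have := Nat.le_floor h.2.1
    omega
  -- the approximation for a bad number
  have happ : ∀ N ∈ S, ∃ a : ℕ, a.Coprime W ∧ ∃ χ : DirichletCharacter ℂ (W * N), Apx W N a (min ε1 ε2) χ := by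
    intro N hN
    rw [hmem, hBad] at hN
    obtain ⟨h1, h2, h3, a, h4, h5, h6, i, j, h7⟩ := hN
    obtain ⟨s, hs, hE⟩ := hcnt N (hN2.trans h1) a i j h4 h5 h6 h7
    obtain ⟨χ, hχ⟩ := hapx N (hN1.trans h1) h3 a s h5 hs hE
    exact ⟨a, h5, χ, hχ⟩
  have hmono : ∀ (N a : ℕ) (χ : DirichletCharacter ℂ (W * N)) (e e' : ℝ), e ≤ e' → Apx W N a e χ → Apx W N a e' χ := by
    intro N a χ e e' he h
    obtain ⟨c, hc, h⟩ := h
    exact ⟨c, hc, h.trans (mul_le_mul_of_nonneg_right he (Nat.cast_nonneg _))⟩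
  rcases S.eq_empty_or_nonempty with h0 | ⟨M, hM⟩
  · refine ⟨⌊(Real.log X) ^ B⌋₊ + 1, by exact_mod_cast Nat.lt_floor_add_one _, ?_⟩
    intro N hXN hNX hκN _ a haN haW hNaW i j
    by_contra hcon
    push Not at hcon
    have : N ∈ S := by
      rw [hmem, hBad]
      exact ⟨hXN, hNX, hκN, a, haN, haW, hNaW, i, j, hcon⟩
    rw [h0] at this
    exact absurd this (notMem_empty _)
  · refine ⟨S.gcd id, ?_, ?_⟩
    · by_contra hcon
      push Not at hcon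
      have hMB := (hmem M).mp hM
      rw [hBad] at hMB
      obtain ⟨b1, b2, b3, -⟩ := hMB
      obtain ⟨a1, ha1, χ1, hχ1⟩ := happ M hM
      have hM1 : 1 ≤ M := by omega
      have hper : ∀ N ∈ S, Per χ1 (W * M.gcd N) := by
        intro N hN
        have hNB := (hmem N).mp hN
        rw [hBad] at hNB
        obtain ⟨d1, d2, d3, -⟩ := hNB
        obtain ⟨a2, ha2, χ2, hχ2⟩ := happ N hN
        obtain ⟨ψ, hψ⟩ := hrel X hX1 M N b1 b2 d1 d2 b3 d3 a1 a2 χ1 χ2 ha1 ha2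
          (hmono _ _ _ _ _ (min_le_left _ _) hχ1) (hmono _ _ _ _ _ (min_le_left _ _) hχ2)
        exact per_rel hW hM1 (by omega) χ1 χ2 ψ hψ
      have hP := per_fam hW hM1 χ1 S hper
      have hdvd : S.gcd id ∣ M := Finset.gcd_dvd hM
      have hgcd : M.gcd (S.gcd id) = S.gcd id := Nat.gcd_eq_right hdvd
      rw [hgcd] at hP
      refine hsw M (hN3.trans b1) b3 a1 χ1 ha1 (hmono _ _ _ _ _ (min_le_right _ _) hχ1) (W * S.gcd id)
        (Nat.mul_dvd_mul_left W hdvd) (Nat.dvd_mul_right _ _) ?_ hP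
      have hXM : (X : ℝ) ≤ M := by exact_mod_cast b1
      have hX0 : (0 : ℝ) < X := by exact_mod_cast (by omega : 0 < X)
      have hlog1 : Real.log X ≤ Real.log M := Real.log_le_log hX0 hXM
      have hlog0 : (W : ℝ) ≤ Real.log X := hX4 X hX4'
      have hW0 : (0 : ℝ) ≤ W := Nat.cast_nonneg _
      push_cast
      rw [pow_succ']
      refine mul_le_mul (hlog0.trans hlog1) (hcon.trans (pow_le_pow_left₀ (hW0.trans hlog0) hlog1 B))
        (Nat.cast_nonneg _) (hW0.trans (hlog0.trans hlog1))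
    · intro N hXN hNX hκN hdiv a haN haW hNaW i j
      by_contra hcon
      push Not at hcon
      have : N ∈ S := by
        rw [hmem, hBad]
        exact ⟨hXN, hNX, hκN, a, haN, haW, hNaW, i, j, hcon⟩
      exact hdiv (Finset.gcd_dvd this)

end Pool.Agent.Lib.PP
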