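import Pool.Agent.Lib.MP_7b7e48_nt.PP.Defs
import Pool.Agent.Lib.MP_7b7e48_nt.PP.Lnkw
import Pool.Agent.Lib.MP_45349e_nt.LS.LamB

/-!
# PP part I: `lam` is nearly periodic modulo `W N` on `[1, A W N]`

PROOF.
(link_one) D = k W, v = u - D N, e = (al - be)/D (an integer, al = (1+D) be mod D W, so e = be mod W and al = be + D e), x = u/al,
y = v/be, al x - be y = D N, so al (x - y) + (al - be) y = D N; al is coprime to D, so D | x - y, t = (x-y)/D and
N = e x + be t = e y + al t. e x = (al - be) u/(D al) < u/(2 A D) <= N/(2k) < N because al < (1 + 1/(2A)) be; hence t > 0 and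
0 < e y < N too. e x = be x = al x = u = a mod W and e y = be y = v = u = a mod W. If neither e x nor e y is in EX then
lam(e x) lam(be t) = s = lam(e y) lam(al t); multiply: lam x lam be lam y lam al = s^2 = 1, i.e. lam u = lam v.
(`lam` is completely multiplicative with values 1 and -1: see LS.Defs and OW files for `lam_mul`; N - e x = be t.)
(link_cnt) u |-> e (u/al) is injective on the multiples of al; u |-> e ((u - k W N)/be) is injective on the u > k W N with be | u - k W N.
(prd) LNKW with eta/2 and del = log (1 + 1/(2A)); NP is contained in the set of LNKW union over al, be <= K of the sets of link_cnt: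
eta/2 N + K^2 * 2 * delta N <= eta N for delta = eta/(4 (K+1)^2).
-/

open Finset
open Pool.Agent.Lib.MP_45349e_nt.LS (lam lam_mul)

namespace Pool.Agent.Lib.PP

private theorem lk_pm (a : ℕ) : lam a = 1 ∨ lam a = -1 := by
  unfold Pool.Agent.Lib.MP_45349e_nt.LS.lam
  exact neg_one_pow_eq_or ℝ _

private theorem lk_sq (a : ℕ) : lam a * lam a = 1 := by
  rcases lk_pm a with h | h <;> rw [h] <;> norm_num

/-- one link -/
theorem link_one {W N a k A : ℕ} {s del : ℝ} (hW : 1 ≤ W) (hk : 1 ≤ k) (hkA : k < A) (hs : s ^ 2 = 1)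
    (hdel : Real.exp del ≤ 1 + 1 / (2 * A)) {u al be : ℕ} (hu1 : k * W * N < u) (hu2 : u ≤ A * W * N)
    (hua : u % W = a % W) (h1 : al ∣ u) (h2 : be ∣ (u - k * W * N))
    (h4 : al.Coprime (k * W)) (h5 : 0 < be) (h6 : be < al) (h7 : (al : ℝ) < Real.exp del * be)
    (h8 : (al : ZMod (k * W * W)) = (1 + k * W) * (be : ZMod (k * W * W)))
    (hne : lam u ≠ lam (u - k * W * N)) :
    (al - be) / (k * W) * (u / al) ∈ EX W N a s ∨ (al - be) / (k * W) * ((u - k * W * N) / be) ∈ EX W N a s := by
  have hD0 : 0 < k * W := Nat.mul_pos hk hW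
  have hal0 : 0 < al := by omega
  -- the congruence
  have h8' : al ≡ (1 + k * W) * be [MOD k * W * W] := by
    rw [← ZMod.natCast_eq_natCast_iff]
    push_cast
    exact h8
  have h9 : al ≡ be [MOD k * W] := by
    have g1 : al ≡ (1 + k * W) * be [MOD k * W] := h8'.of_dvd (dvd_mul_right _ _)
    refine g1.trans ?_
    have g2 : (1 + k * W) * be = be + k * W * be := by ring
    rw [g2]
    exact Nat.add_mul_mod_self_left be (k * W) be
  have h10 : k * W ∣ al - be := (Nat.modEq_iff_dvd' h6.le).1 h9.symm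
  obtain ⟨e, he⟩ := h10
  have hab : al = be + k * W * e := by omega
  have he0 : 0 < e := by
    rcases Nat.eq_zero_or_pos e with h | h
    · rw [h, mul_zero] at he
      omega
    · exact h
  have heW : e ≡ be [MOD W] := by
    have g1 : be + k * W * e ≡ be + k * W * be [MOD k * W * W] := by
      rw [← hab]
      refine h8'.trans ?_
      have g2 : (1 + k * W) * be = be + k * W * be := by ring
      rw [g2]
    have g3 : k * W * e ≡ k * W * be [MOD k * W * W] := Nat.ModEq.add_left_cancel' be g1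
    exact Nat.ModEq.mul_left_cancel' hD0.ne' g3
  rw [he, Nat.mul_div_cancel_left e hD0]
  obtain ⟨x, hx⟩ := h1
  obtain ⟨y, hy⟩ := h2
  rw [hx, Nat.mul_div_cancel_left x hal0, ← hx, hy, Nat.mul_div_cancel_left y h5]
  have hv0 : 0 < u - k * W * N := by omega
  have hx0 : 0 < x := by
    rcases Nat.eq_zero_or_pos x with h | h
    · rw [h, mul_zero] at hx
      omega
    · exact h
  have hy0 : 0 < y := by
    rcases Nat.eq_zero_or_pos y with h | h
    · rw [h, mul_zero] at hy
      omega
    · exact h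
  have hxy : al * x = be * y + k * W * N := by
    rw [← hx, ← hy]
    omega
  -- sizes
  have hA : 0 < A := by omega
  have hAr : (0 : ℝ) < A := by exact_mod_cast hA
  have hber : (0 : ℝ) < be := by exact_mod_cast h5
  have hxr : (0 : ℝ) < x := by exact_mod_cast hx0
  have hyr : (0 : ℝ) < y := by exact_mod_cast hy0
  have hkWr : (0 : ℝ) < (k : ℝ) * W := by exact_mod_cast hD0
  have hWr : (1 : ℝ) ≤ W := by exact_mod_cast hW
  have hkr : (1 : ℝ) ≤ k := by exact_mod_cast hk
  have habr : (al : ℝ) = be + k * W * e := by exact_mod_cast hab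
  have hdiff : (k : ℝ) * W * e < be / (2 * A) := by
    have g1 : (al : ℝ) < (1 + 1 / (2 * A)) * be := lt_of_lt_of_le h7 (mul_le_mul_of_nonneg_right hdel hber.le)
    have g2 : (1 + 1 / (2 * (A : ℝ))) * be = be + be / (2 * A) := by ring
    rw [g2, habr] at g1
    linarith
  have hAWN : 0 < A * W * N := by omega
  have hNr : (0 : ℝ) < N := by
    have : 0 < N := Nat.pos_of_mul_pos_left hAWN |> fun _ => by
      rcases Nat.eq_zero_or_pos N with h | h
      · rw [h, mul_zero] at hAWN
        omega
      · exact h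
    exact_mod_cast this
  have hsmall : ∀ z : ℕ, (be : ℝ) * z ≤ A * W * N → e * z < N := by
    intro z hz
    have g1 : (k : ℝ) * W * e * z ≤ be / (2 * A) * z := by
      apply mul_le_mul_of_nonneg_right hdiff.le (Nat.cast_nonneg z)
    have g2 : (be : ℝ) / (2 * A) * z ≤ W * N / 2 := by
      rw [div_mul_eq_mul_div, div_le_iff₀ (by positivity)]
      calc (be : ℝ) * z ≤ A * W * N := hz
        _ = W * N / 2 * (2 * A) := by ring
    have g3 : (k : ℝ) * W * (e * z) < k * W * N := by
      have g4 : (k : ℝ) * W * (e * z) ≤ W * N / 2 := by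
        calc (k : ℝ) * W * (e * z) = k * W * e * z := by ring
          _ ≤ _ := g1.trans g2
      have g5 : (W : ℝ) * N / 2 < W * N := by
        have : (0 : ℝ) < W * N := by positivity
        linarith
      have g6 : (W : ℝ) * N ≤ k * (W * N) := by
        have : (0 : ℝ) < W * N := by positivity
        nlinarith
      have g7 : (k : ℝ) * (W * N) = k * W * N := by ring
      linarith
    have g8 : (e : ℝ) * z < N := lt_of_mul_lt_mul_left g3 hkWr.le
    exact_mod_cast g8
  have hex : e * x < N := by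
    apply hsmall
    have g1 : (u : ℝ) ≤ A * W * N := by exact_mod_cast hu2
    have g2 : (u : ℝ) = al * x := by exact_mod_cast hx
    have g3 : (be : ℝ) ≤ al := by exact_mod_cast h6.le
    calc (be : ℝ) * x ≤ al * x := mul_le_mul_of_nonneg_right g3 hxr.le
      _ = u := g2.symm
      _ ≤ _ := g1
  have hey : e * y < N := by
    apply hsmall
    have g1 : be * y ≤ A * W * N := by
      rw [← hy]
      exact (Nat.sub_le _ _).trans hu2
    exact_mod_cast g1
  -- the integer `t`
  have hxy' : (al : ℤ) * x = be * y + k * W * N := by exact_mod_cast hxy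
  have hab' : (al : ℤ) = be + k * W * e := by exact_mod_cast hab
  have hdvd : ((k * W : ℕ) : ℤ) ∣ (x : ℤ) - y := by
    have g1 : ((k * W : ℕ) : ℤ) ∣ (al : ℤ) * ((x : ℤ) - y) := by
      refine ⟨N - e * y, ?_⟩
      push_cast
      linear_combination hxy' - (y : ℤ) * hab'
    have g2 : IsCoprime ((k * W : ℕ) : ℤ) (al : ℤ) := by
      rw [Nat.isCoprime_iff_coprime]
      exact h4.symm
    exact g2.dvd_of_dvd_mul_left g1
  obtain ⟨t, ht⟩ := hdvd
  push_cast at ht
  have hkWz : ((k : ℤ) * W) ≠ 0 := by exact_mod_cast hD0.ne'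
  have e1 : (N : ℤ) = e * x + be * t := by
    have g1 : (k : ℤ) * W * (N - (e * x + be * t)) = 0 := by
      linear_combination (-1 : ℤ) * hxy' + (x : ℤ) * hab' + (be : ℤ) * ht
    rcases mul_eq_zero.1 g1 with h | h
    · exact absurd h hkWz
    · linarith
  have e2 : (N : ℤ) = e * y + al * t := by
    have g1 : (k : ℤ) * W * (N - (e * y + al * t)) = 0 := by
      linear_combination (-1 : ℤ) * hxy' + (y : ℤ) * hab' + (al : ℤ) * ht
    rcases mul_eq_zero.1 g1 with h | h
    · exact absurd h hkWz
    · linarith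
  have ht0 : 0 < t := by
    have g1 : (0 : ℤ) < be * t := by
      have : ((e * x : ℕ) : ℤ) < N := by exact_mod_cast hex
      push_cast at this
      linarith
    have g2 : (0 : ℤ) < be := by exact_mod_cast h5
    exact (mul_pos_iff_of_pos_left g2).1 g1
  obtain ⟨t', rfl⟩ : ∃ t' : ℕ, t = t' := ⟨t.toNat, (Int.toNat_of_nonneg ht0.le).symm⟩
  have ht0' : 0 < t' := by exact_mod_cast ht0
  have f1 : N = e * x + be * t' := by exact_mod_cast e1
  have f2 : N = e * y + al * t' := by exact_mod_cast e2
  -- classes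
  have hua' : u ≡ a [MOD W] := hua
  have haW : al ≡ be [MOD W] := h9.of_dvd (dvd_mul_left W k)
  have c1 : (e * x) % W = a % W := by
    have g1 : e * x ≡ al * x [MOD W] := (heW.trans haW.symm).mul_right x
    exact g1.trans (hx ▸ hua')
  have c2 : (e * y) % W = a % W := by
    have g1 : e * y ≡ be * y [MOD W] := heW.mul_right y
    have g2 : be * y ≡ u [MOD W] := by
      have g3 : u = be * y + W * (k * N) := by
        have : k * W * N = W * (k * N) := by ring
        rw [← this, ← hxy]
        exact hx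
      rw [g3]
      exact (Nat.add_mul_mod_self_left (be * y) W (k * N)).symm
    exact (g1.trans g2).trans hua'
  by_contra hcon
  push Not at hcon
  obtain ⟨q1, q2⟩ := hcon
  have k1 : lam (e * x) * lam (be * t') = s := by
    by_contra hc
    apply q1
    unfold EX
    rw [mem_filter, mem_range]
    refine ⟨hex, Nat.mul_pos he0 hx0, c1, ?_⟩
    have : N - e * x = be * t' := by omega
    rw [this]
    exact hc
  have k2 : lam (e * y) * lam (al * t') = s := by
    by_contra hc
    apply q2
    unfold EX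
    rw [mem_filter, mem_range]
    refine ⟨hey, Nat.mul_pos he0 hy0, c2, ?_⟩
    have : N - e * y = al * t' := by omega
    rw [this]
    exact hc
  apply hne
  rw [hy, hx, lam_mul al x hal0.ne' hx0.ne', lam_mul be y h5.ne' hy0.ne']
  rw [lam_mul e x he0.ne' hx0.ne', lam_mul be t' h5.ne' ht0'.ne'] at k1
  rw [lam_mul e y he0.ne' hy0.ne', lam_mul al t' hal0.ne' ht0'.ne'] at k2
  have k3 : (lam e * lam x * (lam be * lam t')) * (lam e * lam y * (lam al * lam t')) = 1 := by
    rw [k1, k2, ← sq]
    exact hs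
  have m1 := lk_sq e
  have m2 := lk_sq t'
  have k4 : (lam al * lam x) * (lam be * lam y) = 1 := by
    have : (lam e * lam x * (lam be * lam t')) * (lam e * lam y * (lam al * lam t')) =
        (lam e * lam e) * (lam t' * lam t') * ((lam al * lam x) * (lam be * lam y)) := by ring
    rw [this, m1, m2] at k3
    linarith
  have k5 : (lam be * lam y) * (lam be * lam y) = 1 := by
    have : (lam be * lam y) * (lam be * lam y) = (lam be * lam be) * (lam y * lam y) := by ring
    rw [this, lk_sq, lk_sq, one_mul]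
  calc lam al * lam x = lam al * lam x * ((lam be * lam y) * (lam be * lam y)) := by rw [k5, mul_one]
    _ = (lam al * lam x) * (lam be * lam y) * (lam be * lam y) := by ring
    _ = lam be * lam y := by rw [k4, one_mul]

open Classical in
/-- the number of exceptional `u` of one pair `(al, be)` -/
theorem link_cnt {W N a A k : ℕ} {s : ℝ} (al be e : ℕ) (hal : 0 < al) (hbe : 0 < be) (he : 0 < e) :
    ((Finset.Ioc (k * W * N) (A * W * N)).filter fun u => al ∣ u ∧ be ∣ (u - k * W * N) ∧
      (e * (u / al) ∈ EX W N a s ∨ e * ((u - k * W * N) / be) ∈ EX W N a s)).card ≤ 2 * (EX W N a s).card := by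
  have hsub : ((Finset.Ioc (k * W * N) (A * W * N)).filter fun u => al ∣ u ∧ be ∣ (u - k * W * N) ∧
      (e * (u / al) ∈ EX W N a s ∨ e * ((u - k * W * N) / be) ∈ EX W N a s)) ⊆
      ((Finset.Ioc (k * W * N) (A * W * N)).filter fun u => al ∣ u ∧ e * (u / al) ∈ EX W N a s) ∪
      ((Finset.Ioc (k * W * N) (A * W * N)).filter fun u => be ∣ (u - k * W * N) ∧
        e * ((u - k * W * N) / be) ∈ EX W N a s) := by
    intro u hu
    rw [mem_filter] at hu
    rw [mem_union, mem_filter, mem_filter]
    rcases hu.2.2.2 with h | h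
    · exact Or.inl ⟨hu.1, hu.2.1, h⟩
    · exact Or.inr ⟨hu.1, hu.2.2.1, h⟩
  have c1 : ((Finset.Ioc (k * W * N) (A * W * N)).filter fun u => al ∣ u ∧ e * (u / al) ∈ EX W N a s).card ≤
      (EX W N a s).card := by
    refine card_le_card_of_injOn (fun u => e * (u / al)) ?_ ?_
    · intro u hu
      have hu' := Finset.mem_coe.mp hu
      rw [mem_filter] at hu'
      exact Finset.mem_coe.mpr hu'.2.2
    · intro u hu v hv huv
      have hu' := Finset.mem_coe.mp hu
      have hv' := Finset.mem_coe.mp hv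
      rw [mem_filter] at hu' hv'
      have h1 : u / al = v / al := Nat.eq_of_mul_eq_mul_left he huv
      rw [← Nat.mul_div_cancel' hu'.2.1, ← Nat.mul_div_cancel' hv'.2.1, h1]
  have c2 : ((Finset.Ioc (k * W * N) (A * W * N)).filter fun u => be ∣ (u - k * W * N) ∧
        e * ((u - k * W * N) / be) ∈ EX W N a s).card ≤ (EX W N a s).card := by
    refine card_le_card_of_injOn (fun u => e * ((u - k * W * N) / be)) ?_ ?_
    · intro u hu
      have hu' := Finset.mem_coe.mp hu
      rw [mem_filter] at hu'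
      exact Finset.mem_coe.mpr hu'.2.2
    · intro u hu v hv huv
      have hu' := Finset.mem_coe.mp hu
      have hv' := Finset.mem_coe.mp hv
      rw [mem_filter, mem_Ioc] at hu' hv'
      have h1 : (u - k * W * N) / be = (v - k * W * N) / be := Nat.eq_of_mul_eq_mul_left he huv
      have h2 : u - k * W * N = v - k * W * N := by
        rw [← Nat.mul_div_cancel' hu'.2.1, ← Nat.mul_div_cancel' hv'.2.1, h1]
      omega
  calc _ ≤ _ := card_le_card hsub
    _ ≤ _ := card_union_le _ _
    _ ≤ (EX W N a s).card + (EX W N a s).card := Nat.add_le_add c1 c2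
    _ = 2 * (EX W N a s).card := by ring

theorem prd (W A : ℕ) (κ η : ℝ) (hW : 1 ≤ W) (hκ : 0 < κ) (hη : 0 < η) :
    ∃ δ : ℝ, 0 < δ ∧ ∃ N0 : ℕ, ∀ N : ℕ, N0 ≤ N → κ * N ≤ N.totient → ∀ (a : ℕ) (s : ℝ), s ^ 2 = 1 →
    ((EX W N a s).card : ℝ) ≤ δ * N → ∀ k : ℕ, 1 ≤ k → k < A → ((NP W N a A k).card : ℝ) ≤ η * N := by
  classical
  rcases Nat.eq_zero_or_pos A with hA | hA
  · refine ⟨1, one_pos, 0, fun N _ _ a s _ _ k _ hkA => ?_⟩
    omega
  have hAr : (0 : ℝ) < A := by exact_mod_cast hA
  have hlog : 0 < Real.log (1 + 1 / (2 * (A : ℝ))) := by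
    apply Real.log_pos
    have : 0 < 1 / (2 * (A : ℝ)) := by positivity
    linarith
  have hexp : Real.exp (Real.log (1 + 1 / (2 * (A : ℝ)))) ≤ 1 + 1 / (2 * (A : ℝ)) := by
    rw [Real.exp_log (by positivity)]
  obtain ⟨K, N0, hL⟩ := LNKW W A κ (η / 2) (Real.log (1 + 1 / (2 * (A : ℝ)))) hW hκ (by positivity) hlog
  refine ⟨η / (4 * ((K : ℝ) + 1) ^ 2), by positivity, N0, fun N hN hφ a s hs hE k hk hkA => ?_⟩
  have hD0 : 0 < k * W := Nat.mul_pos hk hW
  set P : Finset (ℕ × ℕ) := ((Finset.range (K + 1)) ×ˢ (Finset.range (K + 1))).filter fun q =>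
    0 < q.1 ∧ 0 < q.2 ∧ 0 < (q.1 - q.2) / (k * W) with hP
  have hPc : P.card ≤ (K + 1) * (K + 1) := by
    refine (card_filter_le _ _).trans ?_
    rw [card_product, card_range]
  set S : ℕ × ℕ → Finset ℕ := fun q => (Finset.Ioc (k * W * N) (A * W * N)).filter fun u => q.1 ∣ u ∧
    q.2 ∣ (u - k * W * N) ∧ ((q.1 - q.2) / (k * W) * (u / q.1) ∈ EX W N a s ∨
      (q.1 - q.2) / (k * W) * ((u - k * W * N) / q.2) ∈ EX W N a s) with hS
  set L : Finset ℕ := (Finset.Ioc (k * W * N) (A * W * N)).filter fun u => u % W = a % W ∧ ¬ ∃ α β : ℕ, α ∣ u ∧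
      β ∣ (u - k * W * N) ∧ α.Coprime β ∧ α.Coprime (k * W) ∧ β.Coprime (k * W) ∧ α.Coprime N ∧ β.Coprime N ∧
      0 < β ∧ β < α ∧ α ≤ K ∧
      (α : ℝ) < Real.exp (Real.log (1 + 1 / (2 * (A : ℝ)))) * β ∧
      (α : ZMod (k * W * W)) = (1 + k * W) * (β : ZMod (k * W * W)) with hLdef
  have hLc : ((L.card : ℕ) : ℝ) ≤ η / 2 * N := by
    have := hL N hN hφ a k hk hkA
    rw [hLdef]
    convert this
  have hsub : NP W N a A k ⊆ L ∪ P.biUnion S := by
    intro u hu
    unfold NP at hu
    rw [mem_filter] at hu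
    obtain ⟨hu1, hu2, hu3⟩ := hu
    rw [mem_union]
    by_cases hl : u ∈ L
    · exact Or.inl hl
    · right
      rw [hLdef, mem_filter] at hl
      push Not at hl
      obtain ⟨α, β, g1, g2, g3, g4, g5, g6, g7, g8, g9, g10, g11, g12⟩ := hl hu1 hu2
      have hI := mem_Ioc.1 hu1
      have g13 := link_one (s := s) (a := a) hW hk hkA hs hexp hI.1 hI.2 hu2 g1 g2 g4 g8 g9 g11 g12 hu3
      rw [mem_biUnion]
      refine ⟨(α, β), ?_, ?_⟩
      · rw [hP, mem_filter, mem_product, mem_range, mem_range]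
        dsimp only
        refine ⟨⟨by omega, by omega⟩, by omega, g8, ?_⟩
        have h8' : α ≡ (1 + k * W) * β [MOD k * W * W] := by
          rw [← ZMod.natCast_eq_natCast_iff]
          push_cast
          exact g12
        have h9 : α ≡ β [MOD k * W] := by
          have q1 : α ≡ (1 + k * W) * β [MOD k * W] := h8'.of_dvd (dvd_mul_right _ _)
          refine q1.trans ?_
          have q2 : (1 + k * W) * β = β + k * W * β := by ring
          rw [q2]
          exact Nat.add_mul_mod_self_left β (k * W) β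
        have h10 : k * W ∣ α - β := (Nat.modEq_iff_dvd' g9.le).1 h9.symm
        exact Nat.div_pos (Nat.le_of_dvd (by omega) h10) hD0
      · rw [hS]
        dsimp only
        rw [mem_filter]
        exact ⟨hu1, g1, g2, g13⟩
  have hScard : ∀ q ∈ P, ((S q).card : ℝ) ≤ 2 * (η / (4 * ((K : ℝ) + 1) ^ 2) * N) := by
    intro q hq
    rw [hP, mem_filter] at hq
    have h1 := link_cnt (W := W) (N := N) (a := a) (A := A) (k := k) (s := s) q.1 q.2 ((q.1 - q.2) / (k * W))
      hq.2.1 hq.2.2.1 hq.2.2.2
    have h2 : ((S q).card : ℝ) ≤ 2 * ((EX W N a s).card : ℝ) := by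
      have : (S q).card ≤ 2 * (EX W N a s).card := by
        rw [hS]
        exact h1
      exact_mod_cast this
    linarith
  calc ((NP W N a A k).card : ℝ) ≤ ((L ∪ P.biUnion S).card : ℝ) := by exact_mod_cast card_le_card hsub
    _ ≤ (L.card : ℝ) + ((P.biUnion S).card : ℝ) := by exact_mod_cast card_union_le _ _
    _ ≤ (L.card : ℝ) + ∑ q ∈ P, ((S q).card : ℝ) := by
        have : ((P.biUnion S).card : ℝ) ≤ ((∑ q ∈ P, (S q).card : ℕ) : ℝ) := by exact_mod_cast card_biUnion_le
        push_cast at this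
        linarith
    _ ≤ η / 2 * N + ∑ q ∈ P, 2 * (η / (4 * ((K : ℝ) + 1) ^ 2) * N) := add_le_add hLc (sum_le_sum hScard)
    _ ≤ η / 2 * N + ((K + 1 : ℝ) * (K + 1)) * (2 * (η / (4 * ((K : ℝ) + 1) ^ 2) * N)) := by
        rw [sum_const, nsmul_eq_mul]
        have : ((P.card : ℕ) : ℝ) ≤ (K + 1 : ℝ) * (K + 1) := by exact_mod_cast hPc
        have h0 : 0 ≤ 2 * (η / (4 * ((K : ℝ) + 1) ^ 2) * N) := by positivity
        linarith [mul_le_mul_of_nonneg_right this h0]
    _ = η * N := by
        field_simp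
        ring

end Pool.Agent.Lib.PP
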