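import Pool.Agent.Lib.MP_7b7e48_nt.PP.SX
import Pool.Agent.Lib.MP_7b7e48_nt.OA.SPIa

/-!
# Part III of theorem PP: if few characters carry the Liouville function on the class `a` modulo `W` then one does

`UU W N a` is the set of the `x < W N`, `x ≡ a` modulo `W`, coprime to `N`.
-/

open Finset
open Pool.Agent.Lib.MP_45349e_nt.LS (lam lam_mul lam_prime)

namespace Pool.Agent.Lib.PP

open Pool.Agent.Lib.OW (UU mr sum_zmod)
open Pool.Agent.Lib.OWS (HH specX)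
open Pool.Agent.Lib.OA (hyp_of ww_ext card_UU_tot)

theorem lam_pm (n : ℕ) : lam n = 1 ∨ lam n = -1 := by
  unfold Pool.Agent.Lib.MP_45349e_nt.LS.lam
  exact neg_one_pow_eq_or ℝ _

/-- two unimodular functions with large correlation are close up to a constant -/
theorem unit_close {ι : Type} (s : Finset ι) (f g : ι → ℂ) (hf : ∀ i ∈ s, ‖f i‖ = 1)
    (hg : ∀ i ∈ s, ‖g i‖ = 1) (ε : ℝ) (hε : 0 ≤ ε)
    (h : (1 - ε) * (s.card : ℝ) ^ 2 ≤ ‖∑ i ∈ s, f i * (starRingEnd ℂ) (g i)‖ ^ 2) :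
    ∃ ω : ℂ, ‖ω‖ = 1 ∧ ∑ i ∈ s, ‖f i - ω * g i‖ ^ 2 ≤ 2 * ε * s.card := by
  obtain ⟨T, hT⟩ : ∃ T : ℂ, T = ∑ i ∈ s, f i * (starRingEnd ℂ) (g i) := ⟨_, rfl⟩
  rw [← hT] at h
  have key : ∀ ω : ℂ, ‖ω‖ = 1 → ((starRingEnd ℂ) ω * T).re = ‖T‖ →
      ∑ i ∈ s, ‖f i - ω * g i‖ ^ 2 = 2 * s.card - 2 * ‖T‖ := by
    intro ω hω hre
    have h1 : ∀ i ∈ s, ‖f i - ω * g i‖ ^ 2 = 2 - 2 * ((starRingEnd ℂ) ω * (f i * (starRingEnd ℂ) (g i))).re := by
      intro i hi
      have h2 : ‖f i - ω * g i‖ ^ 2 = ‖f i‖ ^ 2 + ‖ω * g i‖ ^ 2 - 2 * (f i * (starRingEnd ℂ) (ω * g i)).re := by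
        rw [← Complex.normSq_eq_norm_sq, ← Complex.normSq_eq_norm_sq, ← Complex.normSq_eq_norm_sq,
          Complex.normSq_sub]
      rw [h2, norm_mul, hf i hi, hω, hg i hi, map_mul]
      have h3 : f i * ((starRingEnd ℂ) ω * (starRingEnd ℂ) (g i)) =
          (starRingEnd ℂ) ω * (f i * (starRingEnd ℂ) (g i)) := by ring
      rw [h3]
      ring
    rw [sum_congr rfl h1, sum_sub_distrib, ← mul_sum, ← Complex.re_sum, ← mul_sum, ← hT, hre,
      sum_const, nsmul_eq_mul]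
    ring
  have hex : ∃ ω : ℂ, ‖ω‖ = 1 ∧ ((starRingEnd ℂ) ω * T).re = ‖T‖ := by
    by_cases h0 : T = 0
    · exact ⟨1, norm_one, by rw [h0]; simp⟩
    · have hT0 : 0 < ‖T‖ := norm_pos_iff.mpr h0
      refine ⟨T / (‖T‖ : ℂ), ?_, ?_⟩
      · rw [norm_div, Complex.norm_real, Real.norm_eq_abs, abs_of_pos hT0, div_self hT0.ne']
      · rw [map_div₀, Complex.conj_ofReal, div_mul_eq_mul_div, mul_comm, Complex.mul_conj']
        have : ((‖T‖ : ℂ) ^ 2 / (‖T‖ : ℂ)) = (‖T‖ : ℂ) := by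
          have : (‖T‖ : ℂ) ≠ 0 := by exact_mod_cast hT0.ne'
          field_simp
        rw [this]
        exact Complex.ofReal_re _
  obtain ⟨ω, hω, hre⟩ := hex
  refine ⟨ω, hω, ?_⟩
  rw [key ω hω hre]
  have hc : (0 : ℝ) ≤ s.card := Nat.cast_nonneg _
  have hT0 := norm_nonneg T
  by_cases h1 : ε ≤ 1
  · have h2 : (1 - ε) * s.card ≤ ‖T‖ := by
      refine le_of_sq_le_sq ?_ hT0
      refine le_trans ?_ h
      rw [mul_pow]
      refine mul_le_mul_of_nonneg_right ?_ (sq_nonneg _)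
      nlinarith
    linarith
  · have h2 : (s.card : ℝ) ≤ ε * s.card := by nlinarith
    linarith

theorem sum_lam_sq (W N a : ℕ) : ∑ x ∈ UU W N a, lam x ^ 2 = (UU W N a).card := by
  have h1 : ∀ x ∈ UU W N a, lam x ^ 2 = 1 := by
    intro x _
    rcases lam_pm x with h | h <;> rw [h] <;> norm_num
  rw [sum_congr rfl h1, sum_const, nsmul_eq_mul, mul_one]

theorem sum_ext_sq (W N a : ℕ) [NeZero (W * N)] :
    ∑ x : ZMod (W * N), OW.ext W N a lam x ^ 2 = (UU W N a).card := by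
  rw [← sum_lam_sq, ← sum_zmod W N a (fun x => lam x ^ 2)]
  refine sum_congr rfl fun x _ => ?_
  unfold OW.ext
  split_ifs with h
  · rfl
  · ring

theorem card_UU_pos {W N a : ℕ} (hW : 1 ≤ W) (hN : 0 < N) (haW : a.Coprime W) : 0 < (UU W N a).card := by
  have h1 := card_UU_tot hW hN haW
  have h2 : 0 < (W * N).totient := Nat.totient_pos.mpr (Nat.mul_pos hW hN)
  rcases Nat.eq_zero_or_pos (UU W N a).card with h | h
  · rw [h, zero_mul] at h1
    omega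
  · exact h

/-- **part III, spectral half** -/
theorem spX (W : ℕ) (hW : 1 ≤ W) (ε : ℝ) (hε : 0 < ε) : ∃ δ η : ℝ, 0 < δ ∧ 0 < η ∧ ∃ N0 : ℕ,
    ∀ (N : ℕ) [NeZero (W * N)], N0 ≤ N → ∀ a : ℕ, a.Coprime W → ∀ X : Finset (DirichletCharacter ℂ (W * N)),
    (X.card : ℝ) ≤ (N : ℝ) ^ δ →
    ∑ x : ZMod (W * N), HH (OW.ext W N a lam) X x ≤ η * (UU W N a).card →
    ∃ (χ : DirichletCharacter ℂ (W * N)) (ω : ℂ), ‖ω‖ = 1 ∧
      ∑ x ∈ UU W N a, ‖(lam x : ℂ) - ω * χ (x : ZMod (W * N))‖ ^ 2 ≤ ε * (UU W N a).card := by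
  have : NeZero W := ⟨by omega⟩
  obtain ⟨κ, hκ, hκ1, c, hc, hcκ, η0, hη0, N1, hspec⟩ := specX W (ε / 2) (by positivity)
  refine ⟨κ / 4, η0, by positivity, hη0, max N1 2, ?_⟩
  intro N _ hN a haW X hX hHH
  have hN1 : N1 ≤ N := (le_max_left _ _).trans hN
  have hN2 : 2 ≤ N := (le_max_right _ _).trans hN
  have hyp := hyp_of (W := W) (N := N) (a := a) (c := c) (η := η0) (M := 0) (θ := -1) hW haW (by omega) lam lam ∅ ∅ (Or.inr rfl)
    (fun l hl => absurd hl (notMem_empty l)) (by simp) (fun l hl => absurd hl (notMem_empty l))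
    (fun n _ _ => rfl) (fun l n hl _ _ _ _ hn hln => by
      have hn0 : n ≠ 0 := by
        rintro rfl
        rw [Nat.coprime_zero_left] at hn
        have : N ≤ 1 := by
          rw [← hn]
          exact Nat.le_mul_of_pos_left _ hW
        omega
      rw [lam_mul l n hl.ne_zero hn0, lam_prime l hl]) (by simp; exact hη0.le)
  have hpos := card_UU_pos hW (by omega : 0 < N) haW
  obtain ⟨χ, -, hχ⟩ := hspec N (W * N) hN1 a η0 0 (-1) (OW.ext W N a lam) lam _ ∅ X hyp hX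
    (by rw [sum_ext_sq]; exact hHH) le_rfl (by rw [sum_ext_sq]; exact_mod_cast hpos)
  have h1 := ww_ext hW (by omega : 0 < N) haW lam χ
  rw [sum_lam_sq, if_neg (by exact_mod_cast hpos.ne')] at h1
  obtain ⟨ω, hω, h2⟩ := unit_close (UU W N a) (fun x => (lam x : ℂ)) (fun x => χ (x : ZMod (W * N)))
    (fun x _ => by
      rw [Complex.norm_real, Real.norm_eq_abs]
      rcases lam_pm x with h | h <;> rw [h] <;> norm_num)
    (fun x hx => by
      refine RG.chNorm χ ((ZMod.isUnit_iff_coprime _ _).mpr ?_)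
      unfold UU at hx
      rw [mem_filter] at hx
      exact Nat.Coprime.mul_right (OW.cop_of_class haW hx.2.1) hx.2.2) (ε / 2) (by positivity) (by
      rw [← h1, sq]
      exact mul_le_mul_of_nonneg_right hχ (by positivity))
  exact ⟨χ, ω, hω, h2.trans (le_of_eq (by ring))⟩

end Pool.Agent.Lib.PP
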