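import Pool.Agent.Lib.MP_7b7e48_nt.PP.S3a

/-!
# Part III of theorem PP: characters modulo `W N` and the class `a` modulo `W`

`T f A χ = ∑_{n ≤ A q} f(n) χ(n)`. The sum over the class `a` modulo `W` is a combination of the `T (ψ χ)`, `ψ` modulo `W`.
-/

open Finset
open Pool.Agent.Lib.MP_45349e_nt.LS (lam lam_mul lam_prime)

namespace Pool.Agent.Lib.PP

open Pool.Agent.Lib.OW (UU mr sum_zmod)
open Pool.Agent.Lib.OWS (HH specX)

theorem sum_range_blocks {E : Type} [AddCommMonoid E] (g : ℕ → E) (q A : ℕ) :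
    ∑ n ∈ range (A * q), g n = ∑ k ∈ range A, ∑ x ∈ range q, g (x + k * q) := by
  induction A with
  | zero => simp
  | succ A ih =>
    rw [sum_range_succ, ← ih, Nat.succ_mul, sum_range_add]
    congr 1
    exact sum_congr rfl fun x _ => by rw [add_comm]

/-- the Liouville function, with the value `0` at `0` -/
noncomputable def fl (n : ℕ) : ℂ := if n = 0 then 0 else (lam n : ℂ)

theorem fl_mul (m n : ℕ) : fl (m * n) = fl m * fl n := by
  unfold fl
  by_cases hm : m = 0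
  · simp [hm]
  by_cases hn : n = 0
  · simp [hn]
  rw [if_neg (Nat.mul_ne_zero hm hn), if_neg hm, if_neg hn, lam_mul m n hm hn]
  push_cast
  ring

theorem fl_norm (n : ℕ) : ‖fl n‖ ≤ 1 := by
  unfold fl
  split_ifs with h
  · simp
  · rw [Complex.norm_real, Real.norm_eq_abs]
    rcases lam_pm n with h | h <;> rw [h] <;> norm_num

/-- `∑_{n ≤ A q} f(n) χ(n)` -/
noncomputable def TT {q : ℕ} (A : ℕ) (χ : DirichletCharacter ℂ q) : ℂ :=
  ∑ n ∈ Icc 1 (A * q), fl n * χ (n : ZMod q)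

theorem TT_range {q : ℕ} (hq : 2 ≤ q) (A : ℕ) (χ : DirichletCharacter ℂ q) :
    TT A χ = ∑ n ∈ range (A * q), fl n * χ (n : ZMod q) := by
  unfold TT
  have h1 : χ (((A * q : ℕ) : ZMod q)) = 0 := by
    have h2 : (((A * q : ℕ) : ZMod q)) = 0 := by simp
    rw [h2]
    have : Fact (1 < q) := ⟨hq⟩
    exact MulChar.map_zero χ
  have h3 : ∑ n ∈ range (A * q + 1), fl n * χ (n : ZMod q) =
      ∑ n ∈ Icc 1 (A * q), fl n * χ (n : ZMod q) + fl 0 * χ ((0 : ℕ) : ZMod q) := by
    rw [range_eq_Ico, ← sum_Ioo_add_eq_sum_Ico (by omega)]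
    congr 1
  rw [sum_range_succ, h1] at h3
  have h4 : fl 0 = 0 := by unfold fl; rw [if_pos rfl]
  rw [h4, mul_zero, zero_mul, add_zero, add_zero] at h3
  exact h3.symm

/-- the sum over the class `a` -/
theorem class_sum {W N a : ℕ} [NeZero W] (hq : 2 ≤ W * N) (hWa : a.Coprime W) (A : ℕ)
    (χ : DirichletCharacter ℂ (W * N)) :
    ∑ x ∈ UU W N a, ∑ k ∈ range A, (lam (x + k * (W * N)) : ℂ) * χ (x : ZMod (W * N)) =
      ((W.totient : ℕ) : ℂ)⁻¹ * ∑ ψ : DirichletCharacter ℂ W, ψ ((a : ZMod W)⁻¹) *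
        TT A (DirichletCharacter.changeLevel (dvd_mul_right W N) ψ * χ) := by
  classical
  have ha : IsUnit (a : ZMod W) := (ZMod.isUnit_iff_coprime a W).mpr hWa
  have hφ : ((W.totient : ℕ) : ℂ) ≠ 0 := by
    exact_mod_cast (Nat.totient_pos.mpr (Nat.pos_of_ne_zero (NeZero.ne W))).ne'
  -- the right side as one sum
  have h1 : ∀ n : ℕ, ∑ ψ : DirichletCharacter ℂ W, ψ ((a : ZMod W)⁻¹) *
      (fl n * (DirichletCharacter.changeLevel (dvd_mul_right W N) ψ * χ) (n : ZMod (W * N))) =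
      ((W.totient : ℕ) : ℂ) * (if n % W = a % W ∧ n.Coprime (W * N) then fl n * χ (n : ZMod (W * N)) else 0) := by
    intro n
    by_cases hc : n.Coprime (W * N)
    · have h2 : ∀ ψ : DirichletCharacter ℂ W, ψ ((a : ZMod W)⁻¹) *
          (fl n * (DirichletCharacter.changeLevel (dvd_mul_right W N) ψ * χ) (n : ZMod (W * N))) =
          (ψ ((a : ZMod W)⁻¹) * ψ (n : ZMod W)) * (fl n * χ (n : ZMod (W * N))) := by
        intro ψ
        rw [MulChar.mul_apply, OWS.changeLevel_nat (dvd_mul_right W N) ψ hc]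
        ring
      rw [sum_congr rfl fun ψ _ => h2 ψ, ← sum_mul, DirichletCharacter.sum_char_inv_mul_char_eq ℂ ha]
      by_cases hm : n % W = a % W
      · have h3 : (a : ZMod W) = (n : ZMod W) := (ZMod.natCast_eq_natCast_iff' _ _ _).mpr hm.symm
        rw [if_pos h3, if_pos ⟨hm, hc⟩]
      · have h3 : (a : ZMod W) ≠ (n : ZMod W) := by
          intro h
          exact hm ((ZMod.natCast_eq_natCast_iff' _ _ _).mp h).symm
        rw [if_neg h3, if_neg (fun h => hm h.1)]
        ring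
    · have h2 : ∀ ψ : DirichletCharacter ℂ W,
          (DirichletCharacter.changeLevel (dvd_mul_right W N) ψ * χ) (n : ZMod (W * N)) = 0 := by
        intro ψ
        refine MulChar.map_nonunit _ ?_
        rw [ZMod.isUnit_iff_coprime]
        exact hc
      rw [if_neg (fun h => hc h.2), mul_zero]
      refine sum_eq_zero fun ψ _ => ?_
      rw [h2 ψ]
      ring
  have h2 : ∑ ψ : DirichletCharacter ℂ W, ψ ((a : ZMod W)⁻¹) *
      TT A (DirichletCharacter.changeLevel (dvd_mul_right W N) ψ * χ) =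
      ((W.totient : ℕ) : ℂ) * ∑ n ∈ range (A * (W * N)),
        (if n % W = a % W ∧ n.Coprime (W * N) then fl n * χ (n : ZMod (W * N)) else 0) := by
    have h3 : ∀ ψ : DirichletCharacter ℂ W, ψ ((a : ZMod W)⁻¹) *
        TT A (DirichletCharacter.changeLevel (dvd_mul_right W N) ψ * χ) =
        ∑ n ∈ range (A * (W * N)), ψ ((a : ZMod W)⁻¹) *
          (fl n * (DirichletCharacter.changeLevel (dvd_mul_right W N) ψ * χ) (n : ZMod (W * N))) := by
      intro ψ
      rw [TT_range hq, mul_sum]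
    rw [sum_congr rfl fun ψ _ => h3 ψ, sum_comm, mul_sum]
    exact sum_congr rfl fun n _ => h1 n
  rw [h2, ← mul_assoc, inv_mul_cancel₀ hφ, one_mul, sum_range_blocks, sum_comm]
  refine sum_congr rfl fun k _ => ?_
  unfold UU
  rw [sum_filter]
  refine sum_congr rfl fun x hx => ?_
  rw [mem_range] at hx
  have h3 : (x + k * (W * N)) % W = x % W := by
    rw [← mul_assoc, mul_comm k W, mul_assoc, Nat.add_mul_mod_self_left]
  have h4 : (x + k * (W * N)).Coprime (W * N) ↔ x.Coprime (W * N) := by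
    rw [Nat.coprime_add_mul_right_left]
  have h5 : ((x + k * (W * N) : ℕ) : ZMod (W * N)) = (x : ZMod (W * N)) := by
    push_cast
    have : ((W : ZMod (W * N)) * (N : ZMod (W * N))) = 0 := by exact_mod_cast ZMod.natCast_self (W * N)
    rw [this]
    ring
  rw [h3, h5]
  by_cases hm : x % W = a % W
  · have h6 : x.Coprime W := OW.cop_of_class hWa hm
    by_cases hc : x.Coprime N
    · rw [if_pos ⟨hm, hc⟩, if_pos ⟨hm, h4.mpr (Nat.Coprime.mul_right h6 hc)⟩]
      unfold fl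
      rw [if_neg]
      intro h0
      have h7 : x = 0 := by omega
      have h8 := Nat.Coprime.mul_right h6 hc
      rw [h7, Nat.coprime_zero_left] at h8
      omega
    · rw [if_neg (fun h => hc h.2), if_neg (fun h => hc (Nat.Coprime.coprime_mul_left_right (h4.mp h.2)))]
  · rw [if_neg (fun h => hm h.1), if_neg (fun h => hm h.1)]

/-- the mass of the class sums outside of the characters related to `B` -/
theorem class_mass {W N a : ℕ} [NeZero W] [NeZero (W * N)] (hq : 2 ≤ W * N) (hWa : a.Coprime W) (A : ℕ) (K : ℝ)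
    (B : Finset (DirichletCharacter ℂ (W * N)))
    (hB : ∀ T : Finset (DirichletCharacter ℂ (W * N)), (∀ χ ∈ T, χ ∉ B) → ∑ χ ∈ T, ‖TT A χ‖ ^ 2 ≤ K)
    (Y : Finset (DirichletCharacter ℂ (W * N)))
    (hY : ∀ χ ∈ Y, ∀ ψ : DirichletCharacter ℂ W,
      DirichletCharacter.changeLevel (dvd_mul_right W N) ψ * χ⁻¹ ∉ B) :
    ∑ χ ∈ Y, ‖∑ x ∈ UU W N a, ∑ k ∈ range A, (lam (x + k * (W * N)) : ℂ) *
      (starRingEnd ℂ) (χ (x : ZMod (W * N)))‖ ^ 2 ≤ K := by
  classical
  have hφ : (0 : ℝ) < W.totient := by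
    exact_mod_cast Nat.totient_pos.mpr (Nat.pos_of_ne_zero (NeZero.ne W))
  have hcard : ((univ : Finset (DirichletCharacter ℂ W)).card : ℝ) = W.totient := by
    rw [card_univ, ← Nat.card_eq_fintype_card]
    exact_mod_cast DirichletCharacter.card_eq_totient_of_hasEnoughRootsOfUnity ℂ W
  have h1 : ∀ χ ∈ Y, ‖∑ x ∈ UU W N a, ∑ k ∈ range A, (lam (x + k * (W * N)) : ℂ) *
      (starRingEnd ℂ) (χ (x : ZMod (W * N)))‖ ^ 2 ≤ (W.totient : ℝ)⁻¹ * ∑ ψ : DirichletCharacter ℂ W,
        ‖TT A (DirichletCharacter.changeLevel (dvd_mul_right W N) ψ * χ⁻¹)‖ ^ 2 := by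
    intro χ _
    have h2 : ∑ x ∈ UU W N a, ∑ k ∈ range A, (lam (x + k * (W * N)) : ℂ) *
        (starRingEnd ℂ) (χ (x : ZMod (W * N))) =
        ((W.totient : ℕ) : ℂ)⁻¹ * ∑ ψ : DirichletCharacter ℂ W, ψ ((a : ZMod W)⁻¹) *
        TT A (DirichletCharacter.changeLevel (dvd_mul_right W N) ψ * χ⁻¹) := by
      rw [← class_sum hq hWa A χ⁻¹]
      simp_rw [RG.chStar]
    rw [h2, norm_mul, mul_pow, norm_inv, Complex.norm_natCast]
    have h3 : ‖∑ ψ : DirichletCharacter ℂ W, ψ ((a : ZMod W)⁻¹) *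
        TT A (DirichletCharacter.changeLevel (dvd_mul_right W N) ψ * χ⁻¹)‖ ≤
        ∑ ψ : DirichletCharacter ℂ W, ‖TT A (DirichletCharacter.changeLevel (dvd_mul_right W N) ψ * χ⁻¹)‖ := by
      refine (norm_sum_le _ _).trans (sum_le_sum fun ψ _ => ?_)
      rw [norm_mul]
      exact mul_le_of_le_one_left (norm_nonneg _) (DirichletCharacter.norm_le_one ψ _)
    have h4 : (∑ ψ : DirichletCharacter ℂ W,
        ‖TT A (DirichletCharacter.changeLevel (dvd_mul_right W N) ψ * χ⁻¹)‖) ^ 2 ≤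
        W.totient * ∑ ψ : DirichletCharacter ℂ W,
        ‖TT A (DirichletCharacter.changeLevel (dvd_mul_right W N) ψ * χ⁻¹)‖ ^ 2 := by
      have := sq_sum_le_card_mul_sum_sq (s := (univ : Finset (DirichletCharacter ℂ W)))
        (f := fun ψ => ‖TT A (DirichletCharacter.changeLevel (dvd_mul_right W N) ψ * χ⁻¹)‖)
      rw [hcard] at this
      exact this
    have h5 := (pow_le_pow_left₀ (norm_nonneg _) h3 2).trans h4
    calc _ ≤ ((W.totient : ℝ)⁻¹) ^ 2 * (W.totient * ∑ ψ : DirichletCharacter ℂ W,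
        ‖TT A (DirichletCharacter.changeLevel (dvd_mul_right W N) ψ * χ⁻¹)‖ ^ 2) :=
          mul_le_mul_of_nonneg_left h5 (by positivity)
      _ = _ := by field_simp
  refine (sum_le_sum h1).trans ?_
  rw [← mul_sum, sum_comm]
  have h2 : ∀ ψ : DirichletCharacter ℂ W, ∑ χ ∈ Y,
      ‖TT A (DirichletCharacter.changeLevel (dvd_mul_right W N) ψ * χ⁻¹)‖ ^ 2 ≤ K := by
    intro ψ
    have hinj : Set.InjOn (fun χ : DirichletCharacter ℂ (W * N) =>
        DirichletCharacter.changeLevel (dvd_mul_right W N) ψ * χ⁻¹) Y := by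
      intro χ _ χ' _ h
      simpa using h
    have h3 := hB (Y.image (fun χ : DirichletCharacter ℂ (W * N) =>
        DirichletCharacter.changeLevel (dvd_mul_right W N) ψ * χ⁻¹)) (by
      intro χ hχ
      rw [mem_image] at hχ
      obtain ⟨χ', hχ', rfl⟩ := hχ
      exact hY χ' hχ' ψ)
    rwa [sum_image hinj] at h3
  calc (W.totient : ℝ)⁻¹ * ∑ ψ : DirichletCharacter ℂ W, ∑ χ ∈ Y,
      ‖TT A (DirichletCharacter.changeLevel (dvd_mul_right W N) ψ * χ⁻¹)‖ ^ 2 ≤
      (W.totient : ℝ)⁻¹ * ∑ _ψ : DirichletCharacter ℂ W, K :=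
        mul_le_mul_of_nonneg_left (sum_le_sum fun ψ _ => h2 ψ) (by positivity)
    _ = K := by
        rw [sum_const, nsmul_eq_mul, hcard]
        field_simp

end Pool.Agent.Lib.PP
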