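import Pool.Agent.Lib.MP_7b7e48_nt.PP.S3b

/-!
# Part III of theorem PP: an almost periodic Liouville function is close to a character

`MRqS` is the theorem of Matomäki–Radziwiłł type for the characters of one modulus (part II). If the Liouville function on the class
`a` modulo `W` is almost `W N`-periodic on `[1, A W N]` then it is close, on `UU W N a`, to a constant times a character.
-/

open Finset
open Pool.Agent.Lib.MP_45349e_nt.LS (lam lam_mul lam_prime)

namespace Pool.Agent.Lib.PP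

open Pool.Agent.Lib.OW (UU mr sum_zmod)
open Pool.Agent.Lib.OWS (HH FX specX)
open Pool.Agent.Lib.RG (bch)

/-- theorem MRq -/
def MRqS : Prop := ∀ (κ η : ℝ), 0 < κ → 0 < η → ∃ A0 : ℕ, 0 < A0 ∧ ∀ A : ℕ, A0 ≤ A → ∀ ε : ℝ, 0 < ε →
    ∃ q0 : ℕ, ∀ (q : ℕ) [NeZero q], q0 ≤ q → κ * q ≤ q.totient → ∀ f : ℕ → ℂ, (∀ m n, f (m * n) = f m * f n) →
      (∀ n, ‖f n‖ ≤ 1) → ∃ B : Finset (DirichletCharacter ℂ q), (B.card : ℝ) ≤ (q : ℝ) ^ ε ∧
        ∀ T : Finset (DirichletCharacter ℂ q), (∀ χ ∈ T, χ ∉ B) →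
          ∑ χ ∈ T, ‖∑ n ∈ Icc 1 (A * q), f n * χ (n : ZMod q)‖ ^ 2 ≤ η * ((A : ℝ) * q) ^ 2

/-- the exceptional set of the periodicity -/
noncomputable def NQ (W N a k : ℕ) : Finset ℕ :=
  open Classical in (Ioc (k * W * N) ((k + 1) * W * N)).filter fun u =>
    u % W = a % W ∧ u.Coprime N ∧ lam u ≠ lam (u - k * W * N)

/-- the average of the Liouville function over the progression `x + k W N`, `k < A` -/
noncomputable def gA (W N A x : ℕ) : ℝ := (A : ℝ)⁻¹ * ∑ k ∈ range A, lam (x + k * (W * N))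

theorem sum_dist {W N a A : ℕ} (hW : 1 ≤ W) (hN : 2 ≤ N) (haW : a.Coprime W) (hA : 1 ≤ A) (E : ℝ) (hE : 0 ≤ E)
    (hP : ∀ k : ℕ, 1 ≤ k → k < A → ((NQ W N a k).card : ℝ) ≤ E) :
    ∑ x ∈ UU W N a, (lam x - gA W N A x) ^ 2 ≤ 4 * E := by
  classical
  have hA0 : (0 : ℝ) < A := by exact_mod_cast hA
  have h1 : ∀ x ∈ UU W N a, (lam x - gA W N A x) ^ 2 ≤ (A : ℝ)⁻¹ * ∑ k ∈ range A,
      (lam x - lam (x + k * (W * N))) ^ 2 := by
    intro x _
    have h2 : lam x - gA W N A x = (A : ℝ)⁻¹ * ∑ k ∈ range A, (lam x - lam (x + k * (W * N))) := by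
      unfold gA
      rw [sum_sub_distrib, sum_const, card_range, nsmul_eq_mul]
      field_simp
    rw [h2, mul_pow]
    have h3 := sq_sum_le_card_mul_sum_sq (s := range A) (f := fun k => lam x - lam (x + k * (W * N)))
    rw [card_range] at h3
    calc _ ≤ ((A : ℝ)⁻¹) ^ 2 * (A * ∑ k ∈ range A, (lam x - lam (x + k * (W * N))) ^ 2) :=
          mul_le_mul_of_nonneg_left h3 (by positivity)
      _ = _ := by field_simp
  refine (sum_le_sum h1).trans ?_
  rw [← mul_sum, sum_comm]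
  have h4 : ∀ k ∈ range A, ∑ x ∈ UU W N a, (lam x - lam (x + k * (W * N))) ^ 2 ≤ 4 * E := by
    intro k hk
    rw [mem_range] at hk
    rcases Nat.eq_zero_or_pos k with h0 | h0
    · rw [h0]
      simp only [zero_mul, add_zero, sub_self]
      rw [sum_eq_zero fun x _ => by norm_num]
      positivity
    · refine le_trans ?_ (mul_le_mul_of_nonneg_left (hP k h0 hk) (by norm_num))
      have h5 : ∀ x ∈ UU W N a, (lam x - lam (x + k * (W * N))) ^ 2 =
          if lam x ≠ lam (x + k * (W * N)) then 4 else 0 := by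
        intro x _
        rcases lam_pm x with h | h <;> rcases lam_pm (x + k * (W * N)) with h' | h' <;> rw [h, h'] <;> norm_num
      rw [sum_congr rfl h5, ← sum_filter, sum_const, nsmul_eq_mul, mul_comm]
      refine mul_le_mul_of_nonneg_left ?_ (by norm_num)
      have h6 : ((UU W N a).filter fun x => lam x ≠ lam (x + k * (W * N))).card ≤ (NQ W N a k).card := by
        refine card_le_card_of_injOn (fun x => x + k * (W * N)) ?_ ?_
        · intro x hx
          rw [mem_coe, mem_filter] at hx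
          obtain ⟨hx, hne⟩ := hx
          unfold UU at hx
          rw [mem_filter, mem_range] at hx
          rw [mem_coe]
          unfold NQ
          rw [mem_filter, mem_Ioc]
          have e1 : k * W * N = k * (W * N) := by ring
          have e2 : (k + 1) * W * N = k * (W * N) + W * N := by ring
          have hx0 : x ≠ 0 := by
            intro h
            have := hx.2.2
            rw [h, Nat.coprime_zero_left] at this
            omega
          simp only
          rw [e1, e2]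
          refine ⟨⟨by omega, by omega⟩, ?_, ?_, ?_⟩
          · have : (x + k * (W * N)) % W = x % W := by
              rw [← mul_assoc, mul_comm k W, mul_assoc, Nat.add_mul_mod_self_left]
            rw [this]
            exact hx.2.1
          · rw [← mul_assoc, Nat.coprime_add_mul_right_left]
            exact hx.2.2
          · rw [Nat.add_sub_cancel]
            exact fun h => hne h.symm
        · intro x _ x' _ h
          simpa using h
      exact_mod_cast h6
  calc (A : ℝ)⁻¹ * ∑ k ∈ range A, ∑ x ∈ UU W N a, (lam x - lam (x + k * (W * N))) ^ 2 ≤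
        (A : ℝ)⁻¹ * ∑ _k ∈ range A, 4 * E := mul_le_mul_of_nonneg_left (sum_le_sum h4) (by positivity)
    _ = 4 * E := by
        rw [sum_const, card_range, nsmul_eq_mul]
        field_simp

theorem bch_ext {W N a : ℕ} [NeZero (W * N)] (f : ℕ → ℝ) (χ : DirichletCharacter ℂ (W * N)) :
    bch (fun x => (OW.ext W N a f x : ℂ)) χ = (((W * N).totient : ℕ) : ℂ)⁻¹ *
      ∑ x ∈ UU W N a, (f x : ℂ) * (starRingEnd ℂ) (χ (x : ZMod (W * N))) := by
  unfold bch
  congr 1
  rw [← sum_zmod W N a (fun x => (f x : ℂ) * (starRingEnd ℂ) (χ (x : ZMod (W * N))))]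
  refine sum_congr rfl fun x _ => ?_
  have e : OW.ext W N a f x = if x.val ∈ UU W N a then f x.val else 0 := rfl
  simp only [e]
  split_ifs with h
  · rw [ZMod.natCast_zmod_val]
  · simp

theorem ext_unit {W N a : ℕ} [NeZero (W * N)] (haW : a.Coprime W) (f : ℕ → ℝ) (x : ZMod (W * N))
    (hx : ¬ IsUnit x) : OW.ext W N a f x = 0 := by
  unfold OW.ext
  rw [if_neg]
  intro h
  unfold UU at h
  rw [mem_filter] at h
  refine hx ?_
  rw [← ZMod.natCast_zmod_val x, ZMod.isUnit_iff_coprime]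
  exact Nat.Coprime.mul_right (OW.cop_of_class haW h.2.1) h.2.2

/-- `∑ HH` as the mass outside of `X` -/
theorem sum_HH_eq {W N a : ℕ} [NeZero (W * N)] (haW : a.Coprime W) (f : ℕ → ℝ)
    (X : Finset (DirichletCharacter ℂ (W * N))) [DecidableEq (DirichletCharacter ℂ (W * N))] :
    ∑ x : ZMod (W * N), HH (OW.ext W N a f) X x =
      ((W * N).totient : ℝ) * ∑ χ ∈ univ \ X, ‖bch (fun x => (OW.ext W N a f x : ℂ)) χ‖ ^ 2 := by
  have h0 : ∀ x : ZMod (W * N), ¬ IsUnit x → ((OW.ext W N a f x : ℝ) : ℂ) = 0 := fun x hx => by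
    rw [ext_unit haW f x hx]; simp
  have h1 : ∀ x : ZMod (W * N), HH (OW.ext W N a f) X x =
      ‖∑ χ ∈ univ \ X, bch (fun x => (OW.ext W N a f x : ℂ)) χ * χ x‖ ^ 2 := by
    intro x
    unfold HH FX
    have h2 := RG.chInv (fun x => (OW.ext W N a f x : ℂ)) h0 x
    rw [← sum_sdiff (subset_univ X)] at h2
    rw [h2, add_sub_cancel_right]
  rw [sum_congr rfl fun x _ => h1 x]
  exact RG.chPars _ _

/-- few characters carry the Liouville function -/
theorem small_HH {W N a A : ℕ} [NeZero W] [NeZero (W * N)] (hN : 2 ≤ N) (haW : a.Coprime W) (hA : 1 ≤ A)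
    (K E : ℝ) (hE : 0 ≤ E) (B X : Finset (DirichletCharacter ℂ (W * N)))
    (hB : ∀ T : Finset (DirichletCharacter ℂ (W * N)), (∀ χ ∈ T, χ ∉ B) → ∑ χ ∈ T, ‖TT A χ‖ ^ 2 ≤ K)
    (hX : ∀ χ, χ ∉ X → ∀ ψ : DirichletCharacter ℂ W,
      DirichletCharacter.changeLevel (dvd_mul_right W N) ψ * χ⁻¹ ∉ B)
    (hP : ∀ k : ℕ, 1 ≤ k → k < A → ((NQ W N a k).card : ℝ) ≤ E) :
    ∑ x : ZMod (W * N), HH (OW.ext W N a lam) X x ≤ 2 * (K / (A ^ 2 * (W * N).totient)) + 8 * E := by
  classical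
  have hW : 1 ≤ W := NeZero.one_le
  have hq2 : 2 ≤ W * N := hN.trans (Nat.le_mul_of_pos_left _ hW)
  have hφ : (0 : ℝ) < (W * N).totient := by
    exact_mod_cast Nat.totient_pos.mpr (Nat.pos_of_ne_zero (NeZero.ne (W * N)))
  have hA0 : (0 : ℝ) < A := by exact_mod_cast hA
  rw [sum_HH_eq haW lam X]
  obtain ⟨d, hd⟩ : ∃ d : ℕ → ℝ, d = fun x => lam x - gA W N A x := ⟨_, rfl⟩
  have h1 : ∀ χ ∈ univ \ X, ‖bch (fun x => (OW.ext W N a lam x : ℂ)) χ‖ ^ 2 ≤
      2 * ‖bch (fun x => (OW.ext W N a (gA W N A) x : ℂ)) χ‖ ^ 2 + 2 * ‖bch (fun x => (OW.ext W N a d x : ℂ)) χ‖ ^ 2 := by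
    intro χ _
    have h2 : bch (fun x => (OW.ext W N a lam x : ℂ)) χ = bch (fun x => (OW.ext W N a (gA W N A) x : ℂ)) χ +
        bch (fun x => (OW.ext W N a d x : ℂ)) χ := by
      rw [bch_ext, bch_ext, bch_ext, ← mul_add, ← sum_add_distrib]
      congr 1
      refine sum_congr rfl fun x _ => ?_
      rw [hd]
      push_cast
      ring
    rw [h2]
    have h3 := norm_add_le (bch (fun x => (OW.ext W N a (gA W N A) x : ℂ)) χ) (bch (fun x => (OW.ext W N a d x : ℂ)) χ)
    have h4 := norm_nonneg (bch (fun x => (OW.ext W N a (gA W N A) x : ℂ)) χ + bch (fun x => (OW.ext W N a d x : ℂ)) χ)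
    nlinarith [sq_nonneg (‖bch (fun x => (OW.ext W N a (gA W N A) x : ℂ)) χ‖ - ‖bch (fun x => (OW.ext W N a d x : ℂ)) χ‖)]
  refine (mul_le_mul_of_nonneg_left (sum_le_sum h1) hφ.le).trans ?_
  rw [sum_add_distrib, ← mul_sum, ← mul_sum]
  -- the first part
  have p1 : ∑ χ ∈ univ \ X, ‖bch (fun x => (OW.ext W N a (gA W N A) x : ℂ)) χ‖ ^ 2 ≤
      K / (A ^ 2 * ((W * N).totient : ℝ) ^ 2) := by
    have h2 : ∀ χ : DirichletCharacter ℂ (W * N), ‖bch (fun x => (OW.ext W N a (gA W N A) x : ℂ)) χ‖ ^ 2 =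
        (A ^ 2 * ((W * N).totient : ℝ) ^ 2)⁻¹ * ‖∑ x ∈ UU W N a, ∑ k ∈ range A, (lam (x + k * (W * N)) : ℂ) *
          (starRingEnd ℂ) (χ (x : ZMod (W * N)))‖ ^ 2 := by
      intro χ
      have h3 : bch (fun x => (OW.ext W N a (gA W N A) x : ℂ)) χ =
          ((((W * N).totient : ℕ) : ℂ)⁻¹ * (A : ℂ)⁻¹) * ∑ x ∈ UU W N a, ∑ k ∈ range A, (lam (x + k * (W * N)) : ℂ) *
          (starRingEnd ℂ) (χ (x : ZMod (W * N))) := by
        rw [bch_ext, mul_assoc]
        congr 1
        rw [mul_sum]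
        refine sum_congr rfl fun x _ => ?_
        unfold gA
        rw [← sum_mul]
        push_cast
        ring
      rw [h3, norm_mul, norm_mul, norm_inv, norm_inv, Complex.norm_natCast, Complex.norm_natCast]
      field_simp
    rw [sum_congr rfl fun χ _ => h2 χ, ← mul_sum]
    have h3 := class_mass hq2 haW A K B hB (univ \ X) (fun χ hχ => hX χ (by
      rw [mem_sdiff] at hχ
      exact hχ.2))
    calc _ ≤ (A ^ 2 * ((W * N).totient : ℝ) ^ 2)⁻¹ * K := mul_le_mul_of_nonneg_left h3 (by positivity)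
      _ = _ := by rw [div_eq_mul_inv, mul_comm]
  -- the second part
  have p2 : ((W * N).totient : ℝ) * ∑ χ ∈ univ \ X, ‖bch (fun x => (OW.ext W N a d x : ℂ)) χ‖ ^ 2 ≤ 4 * E := by
    have h0 : ∀ x : ZMod (W * N), ¬ IsUnit x → ((OW.ext W N a d x : ℝ) : ℂ) = 0 := fun x hx => by
      rw [ext_unit haW d x hx]; simp
    have h2 := RG.chParsF (fun x : ZMod (W * N) => (OW.ext W N a d x : ℂ)) h0
    have h3 : ∑ χ ∈ univ \ X, ‖bch (fun x => (OW.ext W N a d x : ℂ)) χ‖ ^ 2 ≤
        ∑ χ : DirichletCharacter ℂ (W * N), ‖bch (fun x => (OW.ext W N a d x : ℂ)) χ‖ ^ 2 :=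
      sum_le_sum_of_subset_of_nonneg (subset_univ _) fun _ _ _ => sq_nonneg _
    refine (mul_le_mul_of_nonneg_left h3 hφ.le).trans ?_
    rw [← h2, RG.sum_norm_cast]
    have h4 : ∑ x : ZMod (W * N), OW.ext W N a d x ^ 2 = ∑ x ∈ UU W N a, d x ^ 2 := by
      rw [← sum_zmod W N a (fun x => d x ^ 2)]
      refine sum_congr rfl fun x _ => ?_
      unfold OW.ext
      split_ifs with h
      · rfl
      · ring
    rw [h4, hd]
    exact sum_dist hW hN haW hA E hE hP
  have p3 : ((W * N).totient : ℝ) * (K / (A ^ 2 * ((W * N).totient : ℝ) ^ 2)) = K / (A ^ 2 * (W * N).totient) := by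
    field_simp
  have p4 := mul_le_mul_of_nonneg_left p1 hφ.le
  rw [p3] at p4
  linarith

end Pool.Agent.Lib.PP
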