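import Pool.Agent.Lib.MP_7b7e48_nt.OW.SPFin

/-!
# Part III of theorem PP: the robust spectral lemma for a general small set `X` of characters

Same proofs as in `OW/SPTwo`, `OW/SPTwoB`, `OW/SPFin`, where `X = XX P0 θ`.
-/

open Finset
open Pool.Agent.Lib.RG (Rough RN bch PB BW)

namespace Pool.Agent.Lib.OWS

section
variable {W N q : ℕ} [NeZero q] {a0 z : ℕ} {η M θ : ℝ} {F : ZMod q → ℝ} {G : ℕ → ℝ} {Q P0 : Finset ℕ}

theorem two_coreX (X : Finset (DirichletCharacter ℂ q)) (h : Hyp W N q a0 z η M θ F G Q P0) (hW : 1 ≤ W) (h2q : 2 ≤ q)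
    (hS : 0 < ∑ x : ZMod q, F x ^ 2) {A A' : ℕ} (hA1 : 1 ≤ A) (hA : Rough z A)
    (hAq : A.Coprime q) (hAQ : ∀ l ∈ Q, ¬ l ∣ A) (hA2 : A ^ 2 ≤ N) (hA1' : 1 ≤ A') (hA' : Rough z A')
    (hAq' : A'.Coprime q) (hAQ' : ∀ l ∈ Q, ¬ l ∣ A') (hA2' : A' ^ 2 ≤ N) (hAA : A % W = A' % W)
    (hle : A ≤ A')
    (herr : (q.divisors.card : ℝ) + X.card * PB q ≤
      (((N - 1) / A' : ℕ) : ℝ) * ((q.totient : ℝ) / q) / 2)
    (hy0 : (N : ℝ) / (2 * A') ≤ (((N - 1) / A' : ℕ) : ℝ)) :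
    Dst X (ww F) (gg θ) A A' ≤ ((A : ℝ) / A' + (A' : ℝ) / A) *
      (8 * W * A * EE N F X A / ∑ x : ZMod q, F x ^ 2 +
        8 * W * A' * EE N F X A' / ∑ x : ZMod q, F x ^ 2) := by
  classical
  obtain ⟨S, hSd⟩ : ∃ S : ℝ, S = ∑ x : ZMod q, F x ^ 2 := ⟨_, rfl⟩
  obtain ⟨y0, hy0d⟩ : ∃ y0 : ℕ, y0 = (N - 1) / A' := ⟨_, rfl⟩
  rw [← hSd] at hS ⊢
  rw [← hy0d] at herr hy0
  obtain ⟨b, hb⟩ : ∃ b : DirichletCharacter ℂ q → ℂ, b = fun χ => bch (fun x => (F x : ℂ)) χ := ⟨_, rfl⟩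
  obtain ⟨c, hc⟩ : ∃ c : DirichletCharacter ℂ q → ℂ, c = fun χ => b χ * (gg θ χ A - gg θ χ A') := ⟨_, rfl⟩
  have hEE0 : ∀ a : ℕ, 0 ≤ EE N F X a := fun a => sum_nonneg fun _ _ => sq_nonneg _
  have hAR : (0 : ℝ) < A := by exact_mod_cast hA1
  have hAR' : (0 : ℝ) < A' := by exact_mod_cast hA1'
  -- pointwise
  have hpt : ∀ n ∈ Icc 1 y0, ‖∑ χ ∈ X, c χ * χ (n : ZMod q)‖ ^ 2 ≤
      2 * HH F X ((A * n : ℕ) : ZMod q) + 2 * HH F X ((A' * n : ℕ) : ZMod q) := by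
    intro n hn
    rw [mem_Icc] at hn
    have hAn' : A' * n < N := by
      have h3 : n ≤ (N - 1) / A' := by rw [← hy0d]; exact hn.2
      have h4 := (Nat.le_div_iff_mul_le hA1').mp h3
      rw [mul_comm] at h4
      have : 1 ≤ A' * n := Nat.mul_pos hA1' hn.1
      omega
    have hAn : A * n < N := lt_of_le_of_lt (Nat.mul_le_mul_right n hle) hAn'
    have hF := F_eq h hW hA1 hA hAq hAQ hA2 hA1' hA' hAq' hAQ' hA2' hAA hn.1 hAn hAn'
    have e1 : ∀ a : ℕ, (θ : ℂ) ^ om a * FX F X ((a * n : ℕ) : ZMod q) = ∑ χ ∈ X, b χ * gg θ χ a * χ (n : ZMod q) := by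
      intro a
      unfold FX gg
      rw [mul_sum, hb]
      refine sum_congr rfl fun χ _ => ?_
      rw [Nat.cast_mul, map_mul]
      ring
    have e2 : ∑ χ ∈ X, c χ * χ (n : ZMod q) =
        (θ : ℂ) ^ om A' * ((F ((A' * n : ℕ) : ZMod q) : ℂ) - FX F X ((A' * n : ℕ) : ZMod q)) -
        (θ : ℂ) ^ om A * ((F ((A * n : ℕ) : ZMod q) : ℂ) - FX F X ((A * n : ℕ) : ZMod q)) := by
      have hF' : (θ : ℂ) ^ om A * (F ((A * n : ℕ) : ZMod q) : ℂ) =
          (θ : ℂ) ^ om A' * (F ((A' * n : ℕ) : ZMod q) : ℂ) := by exact_mod_cast hF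
      rw [mul_sub, mul_sub, e1, e1, hF', hc]
      have : ∑ χ ∈ X, b χ * (gg θ χ A - gg θ χ A') * χ (n : ZMod q) =
          ∑ χ ∈ X, b χ * gg θ χ A * χ (n : ZMod q) - ∑ χ ∈ X, b χ * gg θ χ A' * χ (n : ZMod q) := by
        rw [← sum_sub_distrib]
        refine sum_congr rfl fun χ _ => ?_
        ring
      rw [this]
      ring
    rw [e2]
    have hn1 : ∀ (k : ℕ) (w : ℂ), ‖(θ : ℂ) ^ k * w‖ = ‖w‖ := by
      intro k w
      rw [norm_mul, norm_pow, th_norm h.th, one_pow, one_mul]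
    have e3 := norm_sub_le ((θ : ℂ) ^ om A' * ((F ((A' * n : ℕ) : ZMod q) : ℂ) - FX F X ((A' * n : ℕ) : ZMod q)))
      ((θ : ℂ) ^ om A * ((F ((A * n : ℕ) : ZMod q) : ℂ) - FX F X ((A * n : ℕ) : ZMod q)))
    rw [hn1, hn1] at e3
    unfold HH
    have e4 := norm_nonneg ((θ : ℂ) ^ om A' * ((F ((A' * n : ℕ) : ZMod q) : ℂ) - FX F X ((A' * n : ℕ) : ZMod q)) -
      (θ : ℂ) ^ om A * ((F ((A * n : ℕ) : ZMod q) : ℂ) - FX F X ((A * n : ℕ) : ZMod q)))
    nlinarith [sq_nonneg (‖(F ((A' * n : ℕ) : ZMod q) : ℂ) - FX F X ((A' * n : ℕ) : ZMod q)‖ -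
      ‖(F ((A * n : ℕ) : ZMod q) : ℂ) - FX F X ((A * n : ℕ) : ZMod q)‖)]
  have hsum : ∑ n ∈ Icc 1 y0, ‖∑ χ ∈ X, c χ * χ (n : ZMod q)‖ ^ 2 ≤ 2 * EE N F X A + 2 * EE N F X A' := by
    refine (sum_le_sum hpt).trans ?_
    rw [sum_add_distrib, ← mul_sum, ← mul_sum]
    have e1 : ∑ n ∈ Icc 1 y0, HH F X ((A * n : ℕ) : ZMod q) ≤ EE N F X A := by
      unfold EE
      refine sum_le_sum_of_subset_of_nonneg ?_ fun _ _ _ => sq_nonneg _
      refine Icc_subset_Icc_right ?_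
      rw [hy0d]
      exact Nat.div_le_div_left hle hA1
    have e2 : ∑ n ∈ Icc 1 y0, HH F X ((A' * n : ℕ) : ZMod q) ≤ EE N F X A' := by
      unfold EE
      rw [hy0d]
    linarith
  -- near orthogonality
  have hno := RG.nearOrth2 h2q X c (y0 : ℝ) (Nat.cast_nonneg _)
  rw [Nat.floor_natCast] at hno
  obtain ⟨Sc, hSc⟩ : ∃ Sc : ℝ, Sc = ∑ χ ∈ X, ‖c χ‖ ^ 2 := ⟨_, rfl⟩
  rw [← hSc] at hno
  have hSc0 : 0 ≤ Sc := by rw [hSc]; exact sum_nonneg fun _ _ => sq_nonneg _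
  have hq0 : (0 : ℝ) < q := by
    have : 0 < q := by omega
    exact_mod_cast this
  have hφ0 : (0 : ℝ) < q.totient := by exact_mod_cast Nat.totient_pos.mpr (by omega)
  have hlow : (y0 : ℝ) * ((q.totient : ℝ) / q) / 2 * Sc ≤ 2 * EE N F X A + 2 * EE N F X A' := by
    have e1 := (abs_le.mp hno).1
    have e2 : ((q.divisors.card : ℝ) + X.card * PB q) * Sc ≤
        (y0 : ℝ) * ((q.totient : ℝ) / q) / 2 * Sc := mul_le_mul_of_nonneg_right herr hSc0
    nlinarith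
  have hDst : Dst X (ww F) (gg θ) A A' = (q.totient : ℝ) * Sc / S := by
    unfold Dst ww
    rw [hSc, ← hSd, hc, mul_sum, sum_div]
    refine sum_congr rfl fun χ _ => ?_
    rw [norm_mul, mul_pow, hb]
    ring
  have hy0pos : (0 : ℝ) < y0 := lt_of_lt_of_le (by
    have hN : (0 : ℝ) < N := by
      have h5 : 1 ≤ A ^ 2 := Nat.one_le_pow _ _ hA1
      have : 0 < N := by omega
      exact_mod_cast this
    positivity) hy0
  have hφS : (q.totient : ℝ) * Sc ≤ 8 * W * A' * (EE N F X A + EE N F X A') := by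
    have e1 : (q.totient : ℝ) * Sc * y0 ≤ 4 * q * (EE N F X A + EE N F X A') := by
      have e2 : (y0 : ℝ) * ((q.totient : ℝ) / q) / 2 * Sc = (q.totient : ℝ) * Sc * y0 / (2 * q) := by
        field_simp
      rw [e2, div_le_iff₀ (by positivity)] at hlow
      linarith
    have e3 : (q.totient : ℝ) * Sc * (N / (2 * A')) ≤ 4 * q * (EE N F X A + EE N F X A') :=
      le_trans (mul_le_mul_of_nonneg_left hy0 (by positivity)) e1
    have hqR : (q : ℝ) = W * N := by rw [h.hq]; push_cast; ring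
    have hN : (0 : ℝ) < N := by
      by_contra hcc
      have : (N : ℝ) = 0 := le_antisymm (not_lt.mp hcc) (Nat.cast_nonneg _)
      rw [this, mul_zero] at hqR
      linarith
    rw [hqR] at e3
    have e4 : (q.totient : ℝ) * Sc * (N / (2 * A')) = ((q.totient : ℝ) * Sc / (2 * A')) * N := by ring
    have e5 : 4 * ((W : ℝ) * N) * (EE N F X A + EE N F X A') = (4 * W * (EE N F X A + EE N F X A')) * N := by
      ring
    rw [e4, e5] at e3
    have e6 := le_of_mul_le_mul_right e3 hN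
    rw [div_le_iff₀ (by positivity)] at e6
    linarith
  rw [hDst]
  have hr1 : 1 ≤ (A' : ℝ) / A := by
    rw [one_le_div hAR]
    exact_mod_cast hle
  have hr0 : 0 ≤ (A : ℝ) / A' := by positivity
  calc (q.totient : ℝ) * Sc / S ≤ 8 * W * A' * (EE N F X A + EE N F X A') / S :=
        div_le_div_of_nonneg_right hφS hS.le
    _ = (A' / A) * (8 * W * A * EE N F X A / S) + 8 * W * A' * EE N F X A' / S := by
        field_simp
    _ ≤ (A' / A) * (8 * W * A * EE N F X A / S) + (A' / A) * (8 * W * A' * EE N F X A' / S) := by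
        have : 0 ≤ 8 * W * A' * EE N F X A' / S := by
          have := hEE0 A'
          positivity
        nlinarith
    _ = (A' / A) * (8 * W * A * EE N F X A / S + 8 * W * A' * EE N F X A' / S) := by ring
    _ ≤ _ := by
        refine mul_le_mul_of_nonneg_right (by linarith) ?_
        have := hEE0 A
        have := hEE0 A'
        positivity

theorem mass_XX (h : Hyp W N q a0 z η M θ F G Q P0) (X : Finset (DirichletCharacter ℂ q))
    (hHH : ∑ x : ZMod q, HH F X x ≤ η * ∑ x : ZMod q, F x ^ 2) (hS : 0 < ∑ x : ZMod q, F x ^ 2) :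
    1 - η ≤ ∑ χ ∈ X, ww F χ := by
  classical
  have h0 : ∀ x : ZMod q, ¬ IsUnit x → ((F x : ℝ) : ℂ) = 0 := fun x hx => by rw [h.F0 x hx]; simp
  have h1 : ∀ x : ZMod q, HH F (X) x =
      ‖∑ χ ∈ univ \ X, bch (fun x => (F x : ℂ)) χ * χ x‖ ^ 2 := by
    intro x
    unfold HH FX
    have h2 := RG.chInv (fun x => (F x : ℂ)) h0 x
    rw [← sum_sdiff (subset_univ X)] at h2
    rw [h2, add_sub_cancel_right]
  have h2 : ∑ x : ZMod q, HH F (X) x =
      (q.totient : ℝ) * ∑ χ ∈ univ \ X, ‖bch (fun x => (F x : ℂ)) χ‖ ^ 2 := by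
    rw [sum_congr rfl fun x _ => h1 x]
    exact RG.chPars _ _
  have h3 := hHH
  rw [h2] at h3
  have h4 := RG.chParsF (fun x : ZMod q => (F x : ℂ)) h0
  have h5 : ∑ x : ZMod q, ‖((F x : ℝ) : ℂ)‖ ^ 2 = ∑ x : ZMod q, F x ^ 2 := RG.sum_norm_cast F
  rw [h5, ← sum_sdiff (subset_univ X), mul_add] at h4
  have h6 : ∑ χ ∈ X, ww F χ = ((q.totient : ℝ) * ∑ χ ∈ X,
      ‖bch (fun x => (F x : ℂ)) χ‖ ^ 2) / ∑ x : ZMod q, F x ^ 2 := by
    unfold ww
    rw [← sum_div, mul_sum]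
  rw [h6, le_div_iff₀ hS]
  linarith

end

theorem two_ptX (W : ℕ) (hW : 1 ≤ W) (κ : ℝ) (hκ : 0 < κ) (hκ1 : κ ≤ 1 / 100) :
    ∀ c : ℝ, 0 < c → c ≤ κ → ∃ Cc : ℝ, 0 < Cc ∧ ∃ N0 : ℕ, ∀ (N q : ℕ) [NeZero q], N0 ≤ N →
    ∀ (a0 : ℕ) (η M θ : ℝ) (F : ZMod q → ℝ) (G : ℕ → ℝ) (Q P0 : Finset ℕ) (X : Finset (DirichletCharacter ℂ q)),
    Hyp W N q a0 ⌊(N : ℝ) ^ c⌋₊ η M θ F G Q P0 → (X.card : ℝ) ≤ (N : ℝ) ^ (κ / 4) →
    ∑ x : ZMod q, HH F X x ≤ η * ∑ x : ZMod q, F x ^ 2 → 0 < ∑ x : ZMod q, F x ^ 2 →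
    ∃ e : ℕ → ℝ, Two W q ⌊(N : ℝ) ^ c⌋₊ ⌊(N : ℝ) ^ (1 / 2 - κ)⌋₊ (Cc * η) X (ww F) (gg θ) e := by
  classical
  intro c hc hcκ
  obtain ⟨R, hR1, N2, hRd⟩ := rough_div c hc
  obtain ⟨Cs, hCs, hsr⟩ := RG.sum_rough
  obtain ⟨Cp, hCp, hPB⟩ := RG.PB_le (κ / 16) (by positivity)
  refine ⟨8 * W * R + 4 * (Cs * (1 + 1 / c)), by positivity, ?_⟩
  obtain ⟨N3, hN3⟩ := nm_exists κ hκ hκ1 c hc 4
  obtain ⟨N4, h4⟩ := (RH.ev_log_pow 1 (κ / 2) (by positivity) (16 * Cp * W) (by positivity)).exists_forall_of_atTop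
  obtain ⟨N5, h5⟩ := RH.ev_totient.exists_forall_of_atTop
  refine ⟨max N2 (max (max N3 N4) (max N5 (W + 2))), ?_⟩
  intro N q _ hN a0 η M θ F G Q P0 X h hXc hHH hS
  have a2 : N2 ≤ N := (le_max_left _ _).trans hN
  have a3 : N3 ≤ N := (le_max_left _ _).trans ((le_max_left _ _).trans ((le_max_right _ _).trans hN))
  have a4 : N4 ≤ N := (le_max_right _ _).trans ((le_max_left _ _).trans ((le_max_right _ _).trans hN))
  have a5 : N5 ≤ N := (le_max_left _ _).trans ((le_max_right _ _).trans ((le_max_right _ _).trans hN))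
  have a6 : W + 2 ≤ N := (le_max_right _ _).trans ((le_max_right _ _).trans ((le_max_right _ _).trans hN))
  obtain ⟨_, J, hNm⟩ := hN3 N a3
  obtain ⟨z, hz⟩ : ∃ z : ℕ, z = ⌊(N : ℝ) ^ c⌋₊ := ⟨_, rfl⟩
  obtain ⟨B, hB⟩ : ∃ B : ℕ, B = ⌊(N : ℝ) ^ (1 / 2 - κ)⌋₊ := ⟨_, rfl⟩
  rw [← hz, ← hB] at hNm
  rw [← hz] at h
  rw [← hz, ← hB]
  obtain ⟨f1, f2, f3, f4', f5, f6, f7, f8, f9⟩ := nm_facts hNm hκ hκ1 hcκ
  have hN0 : (0 : ℝ) < N := by linarith
  have hNq : N ≤ q := by rw [h.hq]; exact Nat.le_mul_of_pos_left _ hW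
  have h2q : 2 ≤ q := by omega
  have hz3 := hNm.z3
  have hL : 0 < Real.log z := Real.log_pos (by exact_mod_cast (by omega : 1 < z))
  have hB1 : 1 ≤ B := by
    have h1 : (0 : ℝ) < B := lt_of_lt_of_le (by positivity) hNm.B2
    exact_mod_cast h1
  have hB0 : (0 : ℝ) < B := by exact_mod_cast hB1
  obtain ⟨S, hSd⟩ : ∃ S : ℝ, S = ∑ x : ZMod q, F x ^ 2 := ⟨_, rfl⟩
  have hη0 := h.η0
  have hHle : ∑ m ∈ (Icc 1 B).filter (Rough z), 1 / (m : ℝ) ≤ Cs * (1 + 1 / c) := by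
    refine (hsr z B (by omega) hB1).trans (mul_le_mul_of_nonneg_left ?_ hCs.le)
    have h1 : Real.log B ≤ 1 / 2 * Real.log N := by
      have h2 : Real.log B ≤ (1 / 2 - κ) * Real.log N := by
        rw [← Real.log_rpow hN0]
        exact Real.log_le_log hB0 hNm.B1
      nlinarith
    have h3 : Real.log B / Real.log z ≤ 1 / c := by
      rw [div_le_div_iff₀ hL hc]
      have := hNm.L1
      nlinarith
    linarith
  have hEE0 : ∀ a : ℕ, 0 ≤ EE N F X a := fun a => sum_nonneg fun _ _ => sq_nonneg _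
  obtain ⟨e, he⟩ : ∃ e : ℕ → ℝ, e = fun A => 8 * W * A * EE N F X A / S +
      4 * (if ∃ l ∈ Q, l ∣ A then (1 : ℝ) else 0) := ⟨_, rfl⟩
  have hi0 : ∀ A : ℕ, (0 : ℝ) ≤ (if ∃ l ∈ Q, l ∣ A then (1 : ℝ) else 0) := by
    intro A
    split_ifs <;> norm_num
  have hS0 : 0 < S := by rw [hSd]; exact hS
  have he1 : ∀ A : ℕ, 0 ≤ 8 * W * A * EE N F X A / S := by
    intro A
    have := hEE0 A
    positivity
  have he0 : ∀ A : ℕ, 0 ≤ e A := by
    intro A
    rw [he]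
    have := he1 A
    have := hi0 A
    positivity
  have hFam : Fam q X (ww F) (gg θ) := Fam_gg h.th F h.F0 X
  refine ⟨e, he0, ?_, ?_⟩
  · -- the mass
    have hsumEE : ∑ A ∈ RN q z B, EE N F X A ≤ R * (η * S) := by
      refine (sum_EE h.hq hW (by omega) F X B R (hRd N a2 z hz)).trans ?_
      rw [hSd]
      exact mul_le_mul_of_nonneg_left hHH (Nat.cast_nonneg _)
    have hsplit : ∑ A ∈ RN q z B, e A / A = 8 * W / S * ∑ A ∈ RN q z B, EE N F X A +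
        4 * ∑ A ∈ RN q z B, (if ∃ l ∈ Q, l ∣ A then (1 : ℝ) else 0) / A := by
      rw [mul_sum, mul_sum, ← sum_add_distrib]
      refine sum_congr rfl fun A hA => ?_
      have hA0 : (A : ℝ) ≠ 0 := by
        have := (mem_RN'.mp hA).1.1
        positivity
      rw [he]
      field_simp
    rw [hsplit]
    have k1 : 8 * W / S * ∑ A ∈ RN q z B, EE N F X A ≤ 8 * W * R * η := by
      calc 8 * W / S * ∑ A ∈ RN q z B, EE N F X A ≤ 8 * W / S * (R * (η * S)) :=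
            mul_le_mul_of_nonneg_left hsumEE (by positivity)
        _ = _ := by field_simp
    have k2 : ∑ A ∈ RN q z B, (if ∃ l ∈ Q, l ∣ A then (1 : ℝ) else 0) / A ≤ η * (Cs * (1 + 1 / c)) := by
      refine (sum_Q q z B Q h.Qz _ hHle).trans ?_
      exact mul_le_mul_of_nonneg_right h.Qs (by positivity)
    calc _ ≤ 8 * W * R * η + 4 * (η * (Cs * (1 + 1 / c))) := add_le_add k1
          (mul_le_mul_of_nonneg_left k2 (by norm_num))
      _ = _ := by ring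
  · -- the two point inequality
    have hcoef : ∀ A ∈ RN q z B, ∀ A' ∈ RN q z B, (1 : ℝ) ≤ (A : ℝ) / A' + (A' : ℝ) / A := by
      intro A hA A' hA'
      have hA0 : (0 : ℝ) < A := by exact_mod_cast (mem_RN'.mp hA).1.1
      have hA0' : (0 : ℝ) < A' := by exact_mod_cast (mem_RN'.mp hA').1.1
      rcases le_total (A : ℝ) A' with h1 | h1
      · have h2 : 1 ≤ (A' : ℝ) / A := by rwa [one_le_div hA0]
        have h3 : 0 ≤ (A : ℝ) / A' := by positivity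
        linarith
      · have h2 : 1 ≤ (A : ℝ) / A' := by rwa [one_le_div hA0']
        have h3 : 0 ≤ (A' : ℝ) / A := by positivity
        linarith
    have hbad : ∀ A ∈ RN q z B, ∀ A' ∈ RN q z B, (∃ l ∈ Q, l ∣ A) ∨ (∃ l ∈ Q, l ∣ A') →
        Dst X (ww F) (gg θ) A A' ≤ ((A : ℝ) / A' + (A' : ℝ) / A) * (e A + e A') := by
      intro A hA A' hA' hor
      have m1 := mem_RN'.mp hA
      have m2 := mem_RN'.mp hA'
      have h1 := Dst_le_four hFam m1.1.1 m2.1.1 m1.2.2 m2.2.2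
      have h2 : 4 ≤ e A + e A' := by
        rcases hor with h3 | h3
        · have : 4 ≤ e A := by
            rw [he]
            simp only [if_pos h3]
            have := he1 A
            linarith
          have := he0 A'
          linarith
        · have : 4 ≤ e A' := by
            rw [he]
            simp only [if_pos h3]
            have := he1 A'
            linarith
          have := he0 A
          linarith
      have h3 := hcoef A hA A' hA'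
      have h4 : 0 ≤ e A + e A' := by linarith
      nlinarith
    -- numbers
    have hnum : ∀ A' ∈ RN q z B, (q.divisors.card : ℝ) + X.card * PB q ≤
        (((N - 1) / A' : ℕ) : ℝ) * ((q.totient : ℝ) / q) / 2 ∧
        (N : ℝ) / (2 * A') ≤ (((N - 1) / A' : ℕ) : ℝ) := by
      intro A' hA'
      have m2 := mem_RN'.mp hA'
      have hA0 : (0 : ℝ) < A' := by exact_mod_cast m2.1.1
      have hA1 : (A' : ℝ) ≤ (N : ℝ) ^ (1 / 2 - κ) := le_trans (by exact_mod_cast m2.1.2) hNm.B1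
      have hNA : (N : ℝ) ^ (1 / 2 + κ) ≤ N / A' := by
        rw [le_div_iff₀ hA0]
        calc (N : ℝ) ^ (1 / 2 + κ) * A' ≤ (N : ℝ) ^ (1 / 2 + κ) * (N : ℝ) ^ (1 / 2 - κ) :=
              mul_le_mul_of_nonneg_left hA1 (by positivity)
          _ = N := by
              rw [← rpow_split _ hN0]
              have : 1 / 2 + κ + (1 / 2 - κ) = 1 := by ring
              rw [this, Real.rpow_one]
      have hbig : (4 : ℝ) ≤ (N : ℝ) ^ (1 / 2 + κ) :=
        hNm.Nk.trans (Real.rpow_le_rpow_of_exponent_le f1 (by linarith))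
      have hfl : ((N - 1 : ℕ) : ℝ) / A' < (((N - 1) / A' : ℕ) : ℝ) + 1 := by
        rw [div_lt_iff₀ hA0]
        have := Nat.lt_mul_div_succ (N - 1) (b := A') m2.1.1
        rw [mul_comm] at this
        exact_mod_cast this
      have hN1 : ((N - 1 : ℕ) : ℝ) = N - 1 := by
        rw [Nat.cast_sub (by omega)]
        norm_num
      rw [hN1] at hfl
      have hA1' : (1 : ℝ) ≤ A' := by exact_mod_cast m2.1.1
      have hy : (N : ℝ) / (2 * A') ≤ (((N - 1) / A' : ℕ) : ℝ) := by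
        have e1 : ((N : ℝ) - 1) / A' = N / A' - 1 / A' := by ring
        have e2 : 1 / (A' : ℝ) ≤ 1 := by rw [div_le_one hA0]; exact hA1'
        have e3 : (N : ℝ) / (2 * A') = (N / A') / 2 := by field_simp
        rw [e3]
        rw [e1] at hfl
        linarith
      refine ⟨?_, hy⟩
      obtain ⟨p1, p2⟩ := hPB q h2q
      have hqR : (q : ℝ) = W * N := by rw [h.hq]; push_cast; ring
      have hq0 : (0 : ℝ) < q := by
        have : 0 < q := by omega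
        exact_mod_cast this
      have hWR : (1 : ℝ) ≤ W := by exact_mod_cast hW
      have hWN : (W : ℝ) ≤ N := by
        have : W ≤ N := by omega
        exact_mod_cast this
      have hqpow : ∀ s : ℝ, 0 ≤ s → s ≤ 1 → (q : ℝ) ^ s ≤ W * (N : ℝ) ^ s := by
        intro s hs0 hs1
        rw [hqR, Real.mul_rpow (by linarith) hN0.le]
        refine mul_le_mul_of_nonneg_right ?_ (by positivity)
        calc (W : ℝ) ^ s ≤ (W : ℝ) ^ (1 : ℝ) := Real.rpow_le_rpow_of_exponent_le hWR hs1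
          _ = W := Real.rpow_one _
      have t1 : (q.divisors.card : ℝ) ≤ Cp * W * (N : ℝ) ^ (1 / 2 + κ / 2) := by
        calc (q.divisors.card : ℝ) ≤ Cp * (q : ℝ) ^ (κ / 16) := p2
          _ ≤ Cp * (W * (N : ℝ) ^ (κ / 16)) :=
              mul_le_mul_of_nonneg_left (hqpow _ (by positivity) (by linarith)) hCp.le
          _ ≤ Cp * (W * (N : ℝ) ^ (1 / 2 + κ / 2)) := by
              refine mul_le_mul_of_nonneg_left (mul_le_mul_of_nonneg_left ?_ (by linarith)) hCp.le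
              exact Real.rpow_le_rpow_of_exponent_le f1 (by linarith)
          _ = _ := by ring
      have t2 : (X.card : ℝ) * PB q ≤ Cp * W * (N : ℝ) ^ (1 / 2 + κ / 2) := by
        calc (X.card : ℝ) * PB q ≤ (N : ℝ) ^ (κ / 4) * (Cp * (q : ℝ) ^ (1 / 2 + κ / 16)) := by
              refine mul_le_mul hXc p1 ?_ (by positivity)
              unfold RG.PB
              have : 0 ≤ Real.log q := Real.log_nonneg (by
                have : 1 ≤ q := by omega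
                exact_mod_cast this)
              positivity
          _ ≤ (N : ℝ) ^ (κ / 4) * (Cp * (W * (N : ℝ) ^ (1 / 2 + κ / 16))) := by
              refine mul_le_mul_of_nonneg_left (mul_le_mul_of_nonneg_left ?_ hCp.le) (by positivity)
              exact hqpow _ (by positivity) (by linarith)
          _ = Cp * W * ((N : ℝ) ^ (κ / 4) * (N : ℝ) ^ (1 / 2 + κ / 16)) := by ring
          _ ≤ Cp * W * (N : ℝ) ^ (1 / 2 + κ / 2) := by
              refine mul_le_mul_of_nonneg_left ?_ (by positivity)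
              rw [← rpow_split _ hN0]
              exact Real.rpow_le_rpow_of_exponent_le f1 (by linarith)
      have t3 : (q : ℝ) ≤ 2 * Real.log N * q.totient := by
        have e1 := h5 q (a5.trans hNq)
        have e2 : Real.log q ≤ 2 * Real.log N := by
          have e3 : Real.log q ≤ Real.log ((N : ℝ) * N) := by
            refine Real.log_le_log hq0 ?_
            rw [hqR]
            exact mul_le_mul_of_nonneg_right hWN hN0.le
          rw [Real.log_mul hN0.ne' hN0.ne'] at e3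
          linarith
        exact e1.trans (mul_le_mul_of_nonneg_right e2 (Nat.cast_nonneg _))
      have t4 : 1 / (2 * Real.log N) ≤ (q.totient : ℝ) / q := by
        rw [div_le_div_iff₀ (by positivity) hq0]
        linarith
      have t5 : (N : ℝ) ^ (1 / 2 + κ) / 2 ≤ (((N - 1) / A' : ℕ) : ℝ) := by
        refine le_trans ?_ hy
        have e3 : (N : ℝ) / (2 * A') = (N / A') / 2 := by field_simp
        rw [e3]
        linarith
      have t6 := h4 N a4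
      rw [pow_one] at t6
      have t7 : (N : ℝ) ^ (1 / 2 + κ) / 2 * (1 / (2 * Real.log N)) / 2 ≤
          (((N - 1) / A' : ℕ) : ℝ) * ((q.totient : ℝ) / q) / 2 := by
        refine div_le_div_of_nonneg_right ?_ (by norm_num)
        exact mul_le_mul t5 t4 (by positivity) (Nat.cast_nonneg _)
      refine le_trans (add_le_add t1 t2) (le_trans ?_ t7)
      have t8 : (N : ℝ) ^ (1 / 2 + κ) = (N : ℝ) ^ (1 / 2 + κ / 2) * (N : ℝ) ^ (κ / 2) := by
        rw [← rpow_split _ hN0]; congr 1; ring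
      rw [t8]
      have hlN : 0 < Real.log N := by linarith
      have t9 : 0 < (N : ℝ) ^ (1 / 2 + κ / 2) := by positivity
      have t10 : (N : ℝ) ^ (1 / 2 + κ / 2) * (N : ℝ) ^ (κ / 2) / 2 * (1 / (2 * Real.log N)) / 2 =
          (N : ℝ) ^ (1 / 2 + κ / 2) * ((N : ℝ) ^ (κ / 2) / (8 * Real.log N)) := by
        field_simp
        norm_num
      rw [t10]
      have t11 : 2 * Cp * W ≤ (N : ℝ) ^ (κ / 2) / (8 * Real.log N) := by
        rw [le_div_iff₀ (by positivity)]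
        linarith
      nlinarith
    have hgood : ∀ A ∈ RN q z B, ∀ A' ∈ RN q z B, A ≤ A' → A % W = A' % W →
        Dst X (ww F) (gg θ) A A' ≤ ((A : ℝ) / A' + (A' : ℝ) / A) * (e A + e A') := by
      intro A hA A' hA' hle hmod
      by_cases h1 : ∃ l ∈ Q, l ∣ A
      · exact hbad A hA A' hA' (Or.inl h1)
      by_cases h2 : ∃ l ∈ Q, l ∣ A'
      · exact hbad A hA A' hA' (Or.inr h2)
      push Not at h1 h2
      have m1 := mem_RN'.mp hA
      have m2 := mem_RN'.mp hA'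
      have hsq : ∀ A ∈ RN q z B, A ^ 2 ≤ N := by
        intro A hA
        have m := mem_RN'.mp hA
        have e1 : (A : ℝ) ≤ (N : ℝ) ^ (1 / 2 - κ) := le_trans (by exact_mod_cast m.1.2) hNm.B1
        have e2 : (A : ℝ) ^ 2 ≤ N := by
          calc (A : ℝ) ^ 2 ≤ ((N : ℝ) ^ (1 / 2 - κ)) ^ 2 := pow_le_pow_left₀ (Nat.cast_nonneg _) e1 2
            _ = (N : ℝ) ^ ((1 / 2 - κ) * 2) := by rw [← Real.rpow_natCast, ← Real.rpow_mul hN0.le]; norm_num
            _ ≤ (N : ℝ) ^ (1 : ℝ) := Real.rpow_le_rpow_of_exponent_le f1 (by linarith)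
            _ = N := Real.rpow_one _
        exact_mod_cast e2
      obtain ⟨n1, n2⟩ := hnum A' hA'
      have hcore := two_coreX X h hW h2q hS m1.1.1 m1.2.1 m1.2.2 h1 (hsq A hA) m2.1.1 m2.2.1 m2.2.2 h2
        (hsq A' hA') hmod hle n1 n2
      rw [← hSd] at hcore
      refine hcore.trans ?_
      refine mul_le_mul_of_nonneg_left ?_ (by
        have := hcoef A hA A' hA'
        linarith)
      rw [he]
      simp only
      have := hi0 A
      have := hi0 A'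
      linarith
    intro A hA A' hA' hmod
    rcases le_total A A' with hle | hle
    · exact hgood A hA A' hA' hle hmod
    · have h1 := hgood A' hA' A hA hle hmod.symm
      rw [Dst_symm]
      refine h1.trans (le_of_eq ?_)
      ring

theorem specX (W : ℕ) [NeZero W] (ε : ℝ) (hε : 0 < ε) : ∃ κ : ℝ, 0 < κ ∧ κ ≤ 1 / 100 ∧
    ∃ c : ℝ, 0 < c ∧ c ≤ κ ∧ ∃ η0 : ℝ, 0 < η0 ∧
    ∃ N0 : ℕ, ∀ (N q : ℕ) [NeZero q], N0 ≤ N →
    ∀ (a0 : ℕ) (η M θ : ℝ) (F : ZMod q → ℝ) (G : ℕ → ℝ) (Q P0 : Finset ℕ) (X : Finset (DirichletCharacter ℂ q)),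
    Hyp W N q a0 ⌊(N : ℝ) ^ c⌋₊ η M θ F G Q P0 → (X.card : ℝ) ≤ (N : ℝ) ^ (κ / 4) →
    ∑ x : ZMod q, HH F X x ≤ η * ∑ x : ZMod q, F x ^ 2 → η ≤ η0 → 0 < ∑ x : ZMod q, F x ^ 2 →
    ∃ χ ∈ X, 1 - ε ≤ W.totient * ww F χ := by
  classical
  have hW : 1 ≤ W := NeZero.one_le
  obtain ⟨c3, hc3, hlow⟩ := low_pair W
  obtain ⟨ε1, hε1d⟩ : ∃ ε1 : ℝ, ε1 = ε * c3 / 16 := ⟨_, rfl⟩
  have hε1 : 0 < ε1 := by rw [hε1d]; positivity
  obtain ⟨κ, hκ, hκ1, hκε, hch⟩ := chain W hW ε1 hε1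
  have htw := two_ptX W hW κ hκ hκ1
  obtain ⟨c0, hc0, hlow2⟩ := hlow κ hκ hκ1
  obtain ⟨c, hc, hcc1, hcκ, η2, hη2, N1, hch1⟩ := hch c0 hc0
  obtain ⟨Cc, hCc, N2, htw1⟩ := htw c hc hcκ
  obtain ⟨N3, hlow3⟩ := hlow2 c hc hcc1
  refine ⟨κ, hκ, hκ1, c, hc, hcκ, min (η2 / Cc) (min (ε / 4) (1 / 2)),
    lt_min (by positivity) (lt_min (by positivity) (by norm_num)),
    max (max N1 N2) (max N3 (max 16 ⌈(Real.exp 1 * 4) ^ (1 / c)⌉₊)), ?_⟩
  intro N q _ hN a0 η M θ F G Q P0 X h hXc hHH hη hS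
  have hN1 : N1 ≤ N := (le_max_left _ _).trans ((le_max_left _ _).trans hN)
  have hN2 : N2 ≤ N := (le_max_right _ _).trans ((le_max_left _ _).trans hN)
  have hN3 : N3 ≤ N := (le_max_left _ _).trans ((le_max_right _ _).trans hN)
  have hN4 : 16 ≤ N := (le_max_left _ _).trans ((le_max_right _ _).trans ((le_max_right _ _).trans hN))
  have hN5 : ⌈(Real.exp 1 * 4) ^ (1 / c)⌉₊ ≤ N :=
    (le_max_right _ _).trans ((le_max_right _ _).trans ((le_max_right _ _).trans hN))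
  have hWq : W ∣ q := by rw [h.hq]; exact Nat.dvd_mul_right W N
  obtain ⟨e, he⟩ := htw1 N q hN2 a0 η M θ F G Q P0 X h hXc hHH hS
  obtain ⟨w, hw⟩ : ∃ w : DirichletCharacter ℂ q → ℝ, w = ww F := ⟨_, rfl⟩
  have hfam : Fam q X w (gg θ) := by
    rw [hw]
    exact Fam_gg h.th F h.F0 X
  have hE : Cc * η ≤ η2 := by
    have := hη.trans (min_le_left _ _)
    rw [le_div_iff₀ hCc] at this
    linarith
  have he' : Two W q ⌊(N : ℝ) ^ c⌋₊ ⌊(N : ℝ) ^ (1 / 2 - κ)⌋₊ η2 X w (gg θ) e := by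
    rw [hw]
    exact ⟨he.e0, he.mass.trans hE, he.two⟩
  obtain ⟨nst, hns, hnd⟩ := hch1 N q hN1 h.hq (DirichletCharacter ℂ q) X w (gg θ) e hfam he'
  obtain ⟨Y, hY⟩ : ∃ Y : ℝ, Y = (⌊(N : ℝ) ^ (1 / 2 + κ)⌋₊ : ℝ) / Real.log ⌊(N : ℝ) ^ c⌋₊ := ⟨_, rfl⟩
  rw [← hY] at hnd
  have hpm := pair_mass h.th hWq X w hfam (RN q ⌊(N : ℝ) ^ c⌋₊ ⌊(N : ℝ) ^ (1 / 2 + κ)⌋₊) nst
    (fun r => (hns r).2) c3 Y ε1 (by
      intro χ1 χ2 hr γ
      rw [hY]
      refine hlow3 N q hWq hN3 h.hq χ1 χ2 ?_ γ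
      intro ψ hψ
      exact hr ⟨ψ, hψ⟩) hnd
  have hNR : (1 : ℝ) ≤ N := by exact_mod_cast (by omega : 1 ≤ N)
  have hY0 : 0 < Y := by
    have e1 : (1 : ℝ) ≤ (N : ℝ) ^ (1 / 2 + κ) := Real.one_le_rpow hNR (by positivity)
    have e2 : 1 ≤ ⌊(N : ℝ) ^ (1 / 2 + κ)⌋₊ := by
      rw [Nat.one_le_floor_iff]
      exact e1
    have e3 : Real.exp 1 * 4 ≤ (N : ℝ) ^ c := by
      have h1 : (Real.exp 1 * 4) ^ (1 / c) ≤ N := Nat.ceil_le.mp hN5
      have h2 : ((Real.exp 1 * 4) ^ (1 / c)) ^ c ≤ (N : ℝ) ^ c :=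
        Real.rpow_le_rpow (by positivity) h1 hc.le
      rwa [← Real.rpow_mul (by positivity), one_div, inv_mul_cancel₀ hc.ne', Real.rpow_one] at h2
    have e4 : (2 : ℝ) ≤ ⌊(N : ℝ) ^ c⌋₊ := by
      have h1 := Real.add_one_le_exp 1
      have h2 : (2 : ℕ) ≤ ⌊(N : ℝ) ^ c⌋₊ := by
        apply Nat.le_floor
        push_cast
        linarith
      exact_mod_cast h2
    have e5 : 0 < Real.log ⌊(N : ℝ) ^ c⌋₊ := Real.log_pos (by linarith)
    rw [hY]
    have e6 : (1 : ℝ) ≤ ⌊(N : ℝ) ^ (1 / 2 + κ)⌋₊ := by exact_mod_cast e2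
    positivity
  have hmass : 1 - η ≤ ∑ χ ∈ X, w χ := by
    rw [hw]
    exact mass_XX h X hHH hS
  have hη4 : η ≤ ε / 4 := hη.trans ((min_le_right _ _).trans (min_le_left _ _))
  have hη1 : η ≤ 1 / 2 := hη.trans ((min_le_right _ _).trans (min_le_right _ _))
  have hη0 := h.η0
  obtain ⟨PI0, hPI0⟩ : ∃ PI0 : ℝ, PI0 = ∑ χ1 ∈ X, ∑ χ2 ∈ X.filter (fun χ2 => ¬ Rel hWq χ2 χ1), w χ1 * w χ2 :=
    ⟨_, rfl⟩
  rw [← hPI0] at hpm
  have hPI04 : PI0 ≤ ε / 4 := by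
    have h1 : ε1 ≤ ε * c3 / 16 := hε1d.le
    have h2 : (c3 * Y) * PI0 ≤ (c3 * Y) * (ε / 4) := by
      calc (c3 * Y) * PI0 ≤ 4 * (ε1 * Y) := hpm
        _ ≤ 4 * ((ε * c3 / 16) * Y) := by
            refine mul_le_mul_of_nonneg_left ?_ (by norm_num)
            exact mul_le_mul_of_nonneg_right h1 hY0.le
        _ = (c3 * Y) * (ε / 4) := by ring
    exact le_of_mul_le_mul_left h2 (by positivity)
  -- choose the coset
  have hex : ∃ χ ∈ X, 1 - ε ≤ ∑ χ' ∈ X.filter (fun χ' => Rel hWq χ' χ), w χ' := by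
    by_contra hcon
    push Not at hcon
    have h1 : ∑ χ1 ∈ X, w χ1 * ∑ χ' ∈ X.filter (fun χ' => Rel hWq χ' χ1), w χ' ≤ ∑ χ1 ∈ X, w χ1 * (1 - ε) :=
      sum_le_sum fun χ1 h1 => mul_le_mul_of_nonneg_left (hcon χ1 h1).le (hfam.w0 χ1 h1)
    have h2 : (∑ χ1 ∈ X, w χ1) * (∑ χ1 ∈ X, w χ1) =
        ∑ χ1 ∈ X, w χ1 * ∑ χ' ∈ X.filter (fun χ' => Rel hWq χ' χ1), w χ' + PI0 := by
      rw [hPI0, sum_mul, ← sum_add_distrib]
      refine sum_congr rfl fun χ1 _ => ?_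
      rw [← mul_sum, ← mul_add, sum_filter_add_sum_filter_not]
    rw [← sum_mul] at h1
    obtain ⟨s, hs⟩ : ∃ s : ℝ, s = ∑ χ1 ∈ X, w χ1 := ⟨_, rfl⟩
    rw [← hs] at h1 h2 hmass
    have hs1 : s ≤ 1 := by rw [hs]; exact hfam.w1
    have hs2 : 1 / 2 ≤ s := by linarith
    have hs3 : 3 * ε / 4 ≤ s - 1 + ε := by linarith
    have hs4 : 1 / 2 * (3 * ε / 4) ≤ s * (s - 1 + ε) :=
      mul_le_mul hs2 hs3 (by positivity) (by linarith)
    have hs5 : s * (s - 1 + ε) = s * s - s * (1 - ε) := by ring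
    linarith
  obtain ⟨χ, hχ, hm⟩ := hex
  refine ⟨χ, hχ, ?_⟩
  refine hm.trans ?_
  rw [hw]
  exact coset_mass h hWq X χ

end Pool.Agent.Lib.OWS
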